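import Pool.Agent.Lib.Pa7c826q.Defs

/-!
The number `mS N` of satellites balances a spin.

Proof. `log 2 = ∑_{k ≥ 0} 1 / ((k + 1) 2 ^ (k + 1))` (`Real.hasSum_pow_div_log_of_abs_lt_one` at
`1 / 2`). Each term `N * 2 ^ (N - 1 - k) / (k + 1)` (division of natural numbers) is at most
`2 ^ N N / ((k + 1) 2 ^ (k + 1))` and larger than this minus `1`; the tail `k ≥ N` of
`2 ^ N N ∑ 1 / ((k + 1) 2 ^ (k + 1))` is at most `1`. Hence
`N 2 ^ N log 2 - N - 1 ≤ mS N ≤ N 2 ^ N log 2`.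
Upper bound: `(1 + x) ^ m ≤ exp (m x) ≤ exp (N log 2) = 2 ^ N` for `x = 2 ^ (-N)`.
Lower bound: `log (1 + x) ≥ x - x ^ 2 / 2` for `x ≥ 0`, so
`m log (1 + x) ≥ (N log 2 - (N + 1) x) (1 - x / 2) ≥ N log 2 - 2 N x` (as
`N log 2 / 2 + N + 1 ≤ 2 N` for `N ≥ 2`, `log 2 ≤ 0.7`), and `exp (- 2 N x) ≥ 1 - 2 N x`.
`mS_le`: `N * 2 ^ (N - 1 - k) / (k + 1) ≤ N * 2 ^ (N - 1 - k)`, geometric sum.
-/

namespace Pool.Agent.Lib.Pa7c826q

namespace Ln2Aux

theorem geo_lt (N : ℕ) : ∑ k ∈ Finset.range N, 2 ^ k < 2 ^ N := by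
  induction N with
  | zero => simp
  | succ n ih =>
    rw [Finset.sum_range_succ, pow_succ]
    omega

theorem hs : HasSum (fun n : ℕ => (1 / 2 : ℝ) ^ (n + 1) / (n + 1)) (Real.log 2) := by
  have h := Real.hasSum_pow_div_log_of_abs_lt_one (x := (1 / 2 : ℝ)) (by
    rw [abs_of_pos (by norm_num)]; norm_num)
  have e : -Real.log (1 - 1 / 2) = Real.log 2 := by
    have : (1 - 1 / 2 : ℝ) = 2⁻¹ := by norm_num
    rw [this, Real.log_inv, neg_neg]
  rw [e] at h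
  exact h

/-- the partial sums are at most `log 2` -/
theorem part_le (N : ℕ) :
    ∑ k ∈ Finset.range N, (1 / 2 : ℝ) ^ (k + 1) / (k + 1) ≤ Real.log 2 :=
  sum_le_hasSum _ (fun i _ => by positivity) hs

/-- the tail -/
theorem part_ge (N : ℕ) :
    Real.log 2 ≤ (∑ k ∈ Finset.range N, (1 / 2 : ℝ) ^ (k + 1) / (k + 1)) +
      (1 / 2 : ℝ) ^ N / (N + 1) := by
  have h1 := (hasSum_nat_add_iff' (f := fun n : ℕ => (1 / 2 : ℝ) ^ (n + 1) / (n + 1)) N).mpr hs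
  have h2 : HasSum (fun n : ℕ => (1 / 2 : ℝ) ^ n * ((1 / 2 : ℝ) ^ (N + 1) / (N + 1)))
      ((1 - 1 / 2)⁻¹ * ((1 / 2 : ℝ) ^ (N + 1) / (N + 1))) :=
    (hasSum_geometric_of_lt_one (by norm_num) (by norm_num)).mul_right _
  have h3 := hasSum_le (fun n => ?_) h1 h2
  · have e : (1 - 1 / 2 : ℝ)⁻¹ * ((1 / 2 : ℝ) ^ (N + 1) / (N + 1))
        = (1 / 2 : ℝ) ^ N / (N + 1) := by
      rw [pow_succ]
      norm_num
      ring
    rw [e] at h3
    linarith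
  · have hN : (0 : ℝ) < N + 1 := by positivity
    have e : (1 / 2 : ℝ) ^ n * ((1 / 2 : ℝ) ^ (N + 1) / (N + 1))
        = (1 / 2 : ℝ) ^ (n + N + 1) / (N + 1) := by
      rw [← mul_div_assoc, ← pow_add, ← add_assoc]
    rw [e]
    apply div_le_div_of_nonneg_left (by positivity) hN
    push_cast
    have : (0 : ℝ) ≤ n := Nat.cast_nonneg n
    linarith

theorem term_eq {N k : ℕ} (hk : k < N) :
    ((N * 2 ^ (N - 1 - k) : ℕ) : ℝ) / (k + 1) =
      N * 2 ^ N * ((1 / 2 : ℝ) ^ (k + 1) / (k + 1)) := by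
  have h : N = (N - 1 - k) + (k + 1) := by omega
  have e : (2 : ℝ) ^ N = 2 ^ (N - 1 - k) * 2 ^ (k + 1) := by
    rw [← pow_add, ← h]
  have e2 : (2 : ℝ) ^ (k + 1) * (1 / 2) ^ (k + 1) = 1 := by
    rw [← mul_pow]; norm_num
  push_cast
  rw [e]
  have : (N : ℝ) * (2 ^ (N - 1 - k) * 2 ^ (k + 1)) * ((1 / 2) ^ (k + 1) / (k + 1))
      = N * 2 ^ (N - 1 - k) * (2 ^ (k + 1) * (1 / 2) ^ (k + 1)) / (k + 1) := by ring
  rw [this, e2, mul_one]

theorem mS_up (N : ℕ) : (mS N : ℝ) ≤ N * 2 ^ N * Real.log 2 := by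
  have h1 : (mS N : ℝ) ≤ ∑ k ∈ Finset.range N, N * 2 ^ N * ((1 / 2 : ℝ) ^ (k + 1) / (k + 1)) := by
    unfold mS
    rw [Nat.cast_sum]
    apply Finset.sum_le_sum
    intro k hk
    rw [← term_eq (Finset.mem_range.mp hk)]
    have := @Nat.cast_div_le ℝ _ _ _ (N * 2 ^ (N - 1 - k)) (k + 1)
    push_cast at this ⊢
    exact this
  rw [← Finset.mul_sum] at h1
  exact h1.trans (mul_le_mul_of_nonneg_left (part_le N) (by positivity))

theorem mS_lo (N : ℕ) : (N : ℝ) * 2 ^ N * Real.log 2 - (N + 1) ≤ mS N := by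
  have h1 : ∑ k ∈ Finset.range N, (N * 2 ^ N * ((1 / 2 : ℝ) ^ (k + 1) / (k + 1)) - 1) ≤
      (mS N : ℝ) := by
    unfold mS
    rw [Nat.cast_sum]
    apply Finset.sum_le_sum
    intro k hk
    rw [← term_eq (Finset.mem_range.mp hk)]
    have hlt := Nat.lt_div_mul_add (a := N * 2 ^ (N - 1 - k)) (b := k + 1) (by omega)
    have h2 : ((N * 2 ^ (N - 1 - k) : ℕ) : ℝ) ≤
        ((N * 2 ^ (N - 1 - k) / (k + 1) : ℕ) : ℝ) * (k + 1) + (k + 1) := by
      have := hlt.le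
      exact_mod_cast this
    have hk0 : (0 : ℝ) < k + 1 := by positivity
    rw [sub_le_iff_le_add, div_le_iff₀ hk0]
    linarith
  rw [Finset.sum_sub_distrib, ← Finset.mul_sum] at h1
  have h3 : (N : ℝ) * 2 ^ N * Real.log 2 ≤ N * 2 ^ N *
      ((∑ k ∈ Finset.range N, (1 / 2 : ℝ) ^ (k + 1) / (k + 1)) + (1 / 2 : ℝ) ^ N / (N + 1)) :=
    mul_le_mul_of_nonneg_left (part_ge N) (by positivity)
  have h4 : (N : ℝ) * 2 ^ N * ((1 / 2 : ℝ) ^ N / (N + 1)) ≤ 1 := by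
    have e2 : (2 : ℝ) ^ N * (1 / 2) ^ N = 1 := by
      rw [← mul_pow]; norm_num
    have e : (N : ℝ) * 2 ^ N * ((1 / 2 : ℝ) ^ N / (N + 1))
        = N * (2 ^ N * (1 / 2 : ℝ) ^ N) / (N + 1) := by ring
    rw [e, e2, mul_one, div_le_one (by positivity)]
    linarith
  rw [mul_add] at h3
  simp only [Finset.sum_const, Finset.card_range, nsmul_eq_mul, mul_one] at h1
  linarith

theorem half_pow (N : ℕ) : (1 / 2 : ℝ) ^ N = Real.exp (-(N * Real.log 2)) := by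
  rw [Real.exp_neg, mul_comm, Real.exp_mul, Real.exp_log (by norm_num), Real.rpow_natCast,
    one_div, inv_pow]

end Ln2Aux

open Ln2Aux

theorem mS_le (N : ℕ) : mS N ≤ N * 2 ^ N := by
  have h1 : mS N ≤ ∑ k ∈ Finset.range N, N * 2 ^ (N - 1 - k) :=
    Finset.sum_le_sum (fun k _ => Nat.div_le_self _ _)
  rw [← Finset.mul_sum, Finset.sum_range_reflect (fun j => 2 ^ j) N] at h1
  exact h1.trans (Nat.mul_le_mul_left _ (geo_lt N).le)

theorem mS_upper (N : ℕ) : (1 / 2 : ℚ) ^ N * (1 + (1 / 2) ^ N) ^ mS N ≤ 1 := by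
  have key : (1 / 2 : ℝ) ^ N * (1 + (1 / 2) ^ N) ^ mS N ≤ 1 := by
    have h1 : (1 + (1 / 2 : ℝ) ^ N) ≤ Real.exp ((1 / 2 : ℝ) ^ N) := by
      have := Real.add_one_le_exp ((1 / 2 : ℝ) ^ N)
      linarith
    have h2 : (1 + (1 / 2 : ℝ) ^ N) ^ mS N ≤ Real.exp (mS N * (1 / 2 : ℝ) ^ N) := by
      rw [Real.exp_nat_mul]
      exact pow_le_pow_left₀ (by positivity) h1 _
    have h3 : (mS N : ℝ) * (1 / 2 : ℝ) ^ N ≤ N * Real.log 2 := by
      have e2 : (2 : ℝ) ^ N * (1 / 2) ^ N = 1 := by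
        rw [← mul_pow]; norm_num
      have := mul_le_mul_of_nonneg_right (mS_up N) (by positivity : (0 : ℝ) ≤ (1 / 2) ^ N)
      have e : (N : ℝ) * 2 ^ N * Real.log 2 * (1 / 2) ^ N
          = N * Real.log 2 * (2 ^ N * (1 / 2) ^ N) := by ring
      rw [e, e2, mul_one] at this
      exact this
    have h4 : (1 + (1 / 2 : ℝ) ^ N) ^ mS N ≤ Real.exp (N * Real.log 2) :=
      h2.trans (Real.exp_le_exp.mpr h3)
    calc (1 / 2 : ℝ) ^ N * (1 + (1 / 2) ^ N) ^ mS N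
        ≤ (1 / 2 : ℝ) ^ N * Real.exp (N * Real.log 2) :=
          mul_le_mul_of_nonneg_left h4 (by positivity)
      _ = 1 := by
          rw [half_pow, ← Real.exp_add, neg_add_cancel, Real.exp_zero]
  have e : (((1 / 2 : ℚ) ^ N * (1 + (1 / 2) ^ N) ^ mS N : ℚ) : ℝ)
      = (1 / 2 : ℝ) ^ N * (1 + (1 / 2) ^ N) ^ mS N := by push_cast; ring
  have h : (((1 / 2 : ℚ) ^ N * (1 + (1 / 2) ^ N) ^ mS N : ℚ) : ℝ) ≤ ((1 : ℚ) : ℝ) := by
    rw [e]; exact_mod_cast key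
  exact_mod_cast h

theorem mS_lower {N : ℕ} (hN : 2 ≤ N) :
    1 - 2 * (N : ℚ) / 2 ^ N ≤ (1 / 2 : ℚ) ^ N * (1 + (1 / 2) ^ N) ^ mS N := by
  have key : 1 - 2 * (N : ℝ) / 2 ^ N ≤ (1 / 2 : ℝ) ^ N * (1 + (1 / 2) ^ N) ^ mS N := by
    set x : ℝ := (1 / 2 : ℝ) ^ N with hx
    have hx0 : 0 < x := by positivity
    have hx1 : x ≤ 1 := pow_le_one₀ (by norm_num) (by norm_num)
    have hN' : (2 : ℝ) ≤ N := by exact_mod_cast hN
    have e2 : (2 : ℝ) ^ N * x = 1 := by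
      rw [hx, ← mul_pow]; norm_num
    have hlog2 : Real.log 2 < 0.7 := by
      have := Real.log_two_lt_d9
      linarith
    have hlog0 : 0 < Real.log 2 := Real.log_pos (by norm_num)
    have hlog : x - x ^ 2 / 2 ≤ Real.log (1 + x) := by
      have h1 := Real.le_log_one_add_of_nonneg hx0.le
      refine le_trans ?_ h1
      rw [le_div_iff₀ (by linarith)]
      nlinarith [pow_pos hx0 3]
    have hlx0 : 0 ≤ x - x ^ 2 / 2 := by nlinarith
    have hm : (N : ℝ) * Real.log 2 - (N + 1) * x ≤ mS N * x := by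
      have := mul_le_mul_of_nonneg_right (mS_lo N) hx0.le
      have e : ((N : ℝ) * 2 ^ N * Real.log 2 - (N + 1)) * x
          = N * Real.log 2 * (2 ^ N * x) - (N + 1) * x := by ring
      rw [e, e2, mul_one] at this
      exact this
    have hmain : (N : ℝ) * Real.log 2 - 2 * N * x ≤ mS N * Real.log (1 + x) := by
      have h1 : (mS N : ℝ) * (x - x ^ 2 / 2) ≤ mS N * Real.log (1 + x) :=
        mul_le_mul_of_nonneg_left hlog (Nat.cast_nonneg _)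
      have h2 : (mS N : ℝ) * (x - x ^ 2 / 2) = (mS N * x) * (1 - x / 2) := by ring
      have h3 : ((N : ℝ) * Real.log 2 - (N + 1) * x) * (1 - x / 2) ≤
          (mS N * x) * (1 - x / 2) :=
        mul_le_mul_of_nonneg_right hm (by linarith)
      have h4 : (N : ℝ) * Real.log 2 - 2 * N * x ≤
          ((N : ℝ) * Real.log 2 - (N + 1) * x) * (1 - x / 2) := by
        have h5 : 0 ≤ x * ((N : ℝ) - 1 - N * Real.log 2 / 2) := by
          apply mul_nonneg hx0.le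
          nlinarith
        nlinarith [mul_nonneg (mul_nonneg hx0.le hx0.le) (by linarith : (0 : ℝ) ≤ (N : ℝ) + 1)]
      linarith
    have h6 : (1 + x) ^ mS N = Real.exp (mS N * Real.log (1 + x)) := by
      rw [Real.exp_nat_mul, Real.exp_log (by linarith)]
    rw [h6]
    have h7 : x = Real.exp (-(N * Real.log 2)) := by rw [hx, half_pow]
    have h8 : x * Real.exp (mS N * Real.log (1 + x)) =
        Real.exp (-(N * Real.log 2) + mS N * Real.log (1 + x)) := by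
      rw [Real.exp_add, ← h7]
    rw [h8]
    have h9 : 2 * (N : ℝ) / 2 ^ N = 2 * N * x := by
      rw [div_eq_iff (by positivity)]
      have : 2 * (N : ℝ) * x * 2 ^ N = 2 * N * (2 ^ N * x) := by ring
      rw [this, e2, mul_one]
    rw [h9]
    have h10 := Real.add_one_le_exp (-(N * Real.log 2) + mS N * Real.log (1 + x))
    linarith
  have e : (((1 / 2 : ℚ) ^ N * (1 + (1 / 2) ^ N) ^ mS N : ℚ) : ℝ)
      = (1 / 2 : ℝ) ^ N * (1 + (1 / 2) ^ N) ^ mS N := by push_cast; ring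
  have e' : ((1 - 2 * (N : ℚ) / 2 ^ N : ℚ) : ℝ) = 1 - 2 * (N : ℝ) / 2 ^ N := by
    push_cast; ring
  have h : ((1 - 2 * (N : ℚ) / 2 ^ N : ℚ) : ℝ) ≤
      (((1 / 2 : ℚ) ^ N * (1 + (1 / 2) ^ N) ^ mS N : ℚ) : ℝ) := by
    rw [e, e']; exact key
  exact_mod_cast h

end Pool.Agent.Lib.Pa7c826q
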