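import Pool.Agent.Lib.Pa7c826s.XDef
import Pool.Agent.Lib.Pa7c826s.Cube

/-!
Regular bipartite expanders made of complete bipartite blocks joined by labelled links with shared
centres, and the system of hubs and pendants that carries a bipartite graph.
-/

namespace Pool.Agent.Lib.Pa7c826q

open Pool.Agent.Lib.Pa7c826
open Pool.Agent.Lib.Pa7c826s (Pairing cutX flip flipN flipN_lt)

/-! ### Blocks with labelled links and shared centres -/

/-- slots of a block: `c + 1` per label, one per centre class and `f` free ones -/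
abbrev Slt (Λ Γ : Type) (c f : ℕ) : Type := (Λ × Fin (c + 1)) ⊕ (Γ ⊕ Fin f)

/-- vertices of one side -/
abbrev Vx (Λ Γ Blk : Type) (c f : ℕ) : Type := Blk × Slt Λ Γ c f

section generic

variable {Λ Γ Blk : Type} (pt : Λ → Blk → Blk) (dr : Λ → Blk → Bool) (ctr : Λ → Γ) (c f : ℕ)

/-- adjacency between left vertices `u` and right vertices `v`: blocks are complete bipartite
except that the link with label `l` between the source `x` (`dr l x = true`) and the target
`y = pt l x` switches, for every `j`, the edges `(x, (l, j)) (x, (l, j))` and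
`(y, ctr l) (y, (l, j))` into `(x, (l, j)) (y, (l, j))` and `(y, ctr l) (x, (l, j))` (left vertex
first) -/
def XRel (u v : Vx Λ Γ Blk c f) : Prop :=
  match v.2 with
  | .inr _ => u.1 = v.1
  | .inl g =>
    (pt g.1 v.1 = v.1 ∧ u.1 = v.1) ∨
    (pt g.1 v.1 ≠ v.1 ∧ dr g.1 v.1 = true ∧
      ((u.1 = v.1 ∧ u.2 ≠ .inl g) ∨ (u.1 = pt g.1 v.1 ∧ u.2 = .inr (.inl (ctr g.1))))) ∨
    (pt g.1 v.1 ≠ v.1 ∧ dr g.1 v.1 = false ∧
      ((u.1 = v.1 ∧ u.2 ≠ .inr (.inl (ctr g.1))) ∨ (u.1 = pt g.1 v.1 ∧ u.2 = .inl g)))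

/-- `U` is a union of a set of left vertices in the blocks with `σ = true` and a set of right
vertices in the other blocks, spanning no edge. -/
def XPure (σ : Blk → Bool) (U : Set (Vx Λ Γ Blk c f)) : Prop :=
  ∀ u ∈ U, ∀ v ∈ U, σ u.1 = true → σ v.1 = false → ¬ XRel pt dr ctr c f u v

/-- the total number of pure sets -/
noncomputable def xpure [Fintype Blk] [DecidableEq Blk] : ℕ :=
  ∑ σ : Blk → Bool, Nat.card {U : Set (Vx Λ Γ Blk c f) // XPure pt dr ctr c f σ U}

/-- number of the labels of the centre class `γ` for which the block `y` is a target in the state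
`true` whose source is in the state `false` -/
def nF [Fintype Λ] [DecidableEq Γ] (σ : Blk → Bool) (y : Blk) (γ : Γ) : ℕ :=
  (Finset.univ.filter fun l : Λ =>
    ctr l = γ ∧ dr l y = false ∧ σ y = true ∧ σ (pt l y) = false).card

/-- normalised number of pure sets -/
def wgt [Fintype Λ] [Fintype Γ] [Fintype Blk] [DecidableEq Γ] (σ : Blk → Bool) : ℚ :=
  (∏ l : Λ, ∏ x : Blk,
    if dr l x = true ∧ σ x = true ∧ σ (pt l x) = false then hh c else 1) *
  ∏ y : Blk, ∏ γ : Γ, (1 + (1 / 2) ^ ((c + 1) * nF pt dr ctr σ y γ)) / 2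

end generic

/-! ### Hubs and pendants -/

/-- pendants: `(0, i)` is the spin `i`, `(j + 1, i)` are its satellites, and `R` followers -/
abbrev PB (L m R : ℕ) : Type := (Fin (m + 1) × Fin (2 ^ L)) ⊕ Fin R

/-- blocks: hubs and pendants -/
abbrev SB (κ L m R : ℕ) : Type := Fin (2 ^ κ) ⊕ PB L m R

/-- labels: two for every direction of the hypercube, `T + 1` from the hubs to their pendants, one
from the followers to their hubs, `m` from the satellites to the spins, and one for every pair of
vertices of the given graph -/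
abbrev SL (κ T m a b : ℕ) : Type :=
  (Fin κ × Fin 2) ⊕ (Fin (T + 1) ⊕ (Fin 1 ⊕ (Fin m ⊕ (Fin a × Fin b))))

/-- centre classes -/
abbrev SG (κ T : ℕ) : Type := (Fin κ × Fin 2) ⊕ (Fin (T + 1) ⊕ Fin 1)

/-- the centre class of a label; the labels of the satellites and of the edges of the given graph
use the centre of the label number `0` from the hub to the pendant -/
def sctr {κ T m a b : ℕ} : SL κ T m a b → SG κ T
  | .inl x => .inl x
  | .inr (.inl k) => .inr (.inl k)
  | .inr (.inr (.inl x)) => .inr (.inr x)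
  | .inr (.inr (.inr _)) => .inr (.inl 0)

section system

variable {κ L T m R a b : ℕ}

/-- the hub of a pendant -/
def eP (hR : (m + 1) * 2 ^ L + R = 2 ^ κ) : PB L m R ≃ Fin (2 ^ κ) :=
  ((Equiv.sumCongr finProdFinEquiv (Equiv.refl _)).trans finSumFinEquiv).trans (finCongr hR)

/-- the spin that carries a left vertex of the given graph -/
def vL (hab : a + b ≤ 2 ^ L) (x : Fin a) : Fin (2 ^ L) := ⟨x, by omega⟩

/-- the spin that carries a right vertex of the given graph -/
def vR (hab : a + b ≤ 2 ^ L) (y : Fin b) : Fin (2 ^ L) := ⟨a + y, by omega⟩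

/-- block of a spin -/
def spin (i : Fin (2 ^ L)) : SB κ L m R := .inr (.inl (0, i))

variable (hR : (m + 1) * 2 ^ L + R = 2 ^ κ) (hab : a + b ≤ 2 ^ L) (E : Fin a → Fin b → Bool)

/-- the pairings of the system -/
def spt : SL κ T m a b → SB κ L m R → SB κ L m R
  | .inl (i, _), .inl τ => .inl (flip i τ)
  | .inl _, .inr π => .inr π
  | .inr (.inl _), .inl τ => .inr ((eP hR).symm τ)
  | .inr (.inl _), .inr π => .inl (eP hR π)
  | .inr (.inr (.inl _)), .inl τ =>
    match (eP hR).symm τ with
    | .inl _ => .inl τ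
    | .inr r => .inr (.inr r)
  | .inr (.inr (.inl _)), .inr (.inl u) => .inr (.inl u)
  | .inr (.inr (.inl _)), .inr (.inr r) => .inl (eP hR (.inr r))
  | .inr (.inr (.inr (.inl j))), .inr (.inl (k, i)) =>
    .inr (.inl (Equiv.swap 0 j.succ k, i))
  | .inr (.inr (.inr (.inl _))), x => x
  | .inr (.inr (.inr (.inr (x, y)))), z =>
    if E x y = true then Equiv.swap (spin (vL hab x)) (spin (vR hab y)) z else z

/-- sources -/
def sdr : SL κ T m a b → SB κ L m R → Bool
  | .inl (i, e), .inl τ => decide ((τ : ℕ) / 2 ^ (i : ℕ) % 2 = (e : ℕ))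
  | .inl _, .inr _ => false
  | .inr (.inl _), .inl _ => true
  | .inr (.inl _), .inr _ => false
  | .inr (.inr (.inl _)), .inl _ => false
  | .inr (.inr (.inl _)), .inr _ => true
  | .inr (.inr (.inr (.inl _))), .inr (.inl (k, _)) => decide (k ≠ 0)
  | .inr (.inr (.inr (.inl _))), _ => false
  | .inr (.inr (.inr (.inr (x, _)))), z => decide (z = spin (vL hab x))

/-- weights of cut links for sets of left vertices -/
def wL (c : ℕ) (l : SL κ T m a b) (x : SB κ L m R) : ℕ :=
  match l, x with
  | .inl (i, e), .inl τ => bif decide ((τ : ℕ) / 2 ^ (i : ℕ) % 2 = (e : ℕ)) then c + 1 else 0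
  | .inr (.inl _), _ => 1
  | _, _ => 0

/-- weights of cut links for sets of right vertices -/
def wR (c : ℕ) (l : SL κ T m a b) (x : SB κ L m R) : ℕ :=
  match l, x with
  | .inl (i, e), .inl τ => bif decide ((τ : ℕ) / 2 ^ (i : ℕ) % 2 = (e : ℕ)) then 0 else c + 1
  | .inr (.inl _), _ => 1
  | _, _ => 0

end system

/-- number of satellites of a spin, about `N 2 ^ N log 2` -/
def mS (N : ℕ) : ℕ := ∑ k ∈ Finset.range N, N * 2 ^ (N - 1 - k) / (k + 1)

/-! ### Index level -/

/-- number of labels -/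
abbrev LL (κ N m a b : ℕ) : ℕ := κ * 2 + (N + (1 + (m + a * b)))

/-- number of centre classes -/
abbrev GG (κ N : ℕ) : ℕ := κ * 2 + (N + 1)

/-- partner of the block `V` under the label `l`; `H = 2 ^ κ`, `W = 2 ^ L`, `N = T + 1`,
`g = (m + 1) * 2 ^ L` -/
def ptN (κ H W N m g a b : ℕ) (F : ℕ → ℕ → Bool) (l V : ℕ) : ℕ :=
  if decide (l < κ * 2) = true then (if decide (V < H) = true then flipN (l / 2) V else V)
  else if decide (l < κ * 2 + N) = true then (if decide (V < H) = true then H + V else V - H)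
  else if decide (l < κ * 2 + (N + 1)) = true then
    (if decide (V < H) = true then (if decide (V < g) = true then V else H + V)
    else (if decide (V - H < g) = true then V else V - H))
  else if decide (l < κ * 2 + (N + (1 + m))) = true then
    (if decide (V < H) = true then V
    else if decide (V - H < W) = true then V + W * (l - (κ * 2 + (N + 1)) + 1)
    else if decide ((V - H) / W = l - (κ * 2 + (N + 1)) + 1) = true then
      V - W * (l - (κ * 2 + (N + 1)) + 1)
    else V)
  else if F ((l - (κ * 2 + (N + (1 + m)))) / b) ((l - (κ * 2 + (N + (1 + m)))) % b) = true then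
    (if decide (V = H + (l - (κ * 2 + (N + (1 + m)))) / b) = true then
      H + (a + (l - (κ * 2 + (N + (1 + m)))) % b)
    else if decide (V = H + (a + (l - (κ * 2 + (N + (1 + m)))) % b)) = true then
      H + (l - (κ * 2 + (N + (1 + m)))) / b
    else V)
  else V

/-- whether the block `V` is a source under the label `l` (for blocks that are linked) -/
def drN (κ H W N m b : ℕ) (l V : ℕ) : Bool :=
  if decide (l < κ * 2) = true then decide (V / 2 ^ (l / 2) % 2 = l % 2)
  else if decide (l < κ * 2 + N) = true then decide (V < H)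
  else if decide (l < κ * 2 + (N + 1)) = true then !decide (V < H)
  else if decide (l < κ * 2 + (N + (1 + m))) = true then !decide (V < H + W)
  else decide (V = H + (l - (κ * 2 + (N + (1 + m)))) / b)

/-- centre class of a label -/
def ctrN (κ N : ℕ) (l : ℕ) : ℕ := if decide (l < κ * 2 + (N + 1)) = true then l else κ * 2

/-- adjacency of `(U, S)` and `(V, T)` (block, slot), when `T` is a slot of a label, given the
number `s` of label slots, the partner `P` of `V`, the direction `d` and the centre class `z` -/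
def F6g (s P z : ℕ) (d : Bool) (U S V T : ℕ) : Bool :=
  if decide (P = V) = true then decide (U = V)
  else if d = true then
    ((decide (U = V) && !decide (S = T)) || (decide (U = P) && decide (S = s + z)))
  else
    ((decide (U = V) && !decide (S = s + z)) || (decide (U = P) && decide (S = T)))

/-- adjacency; `D` is the number of slots of a block, `s` the number of label slots -/
def F6 (κ H W N m g a b c1 D s : ℕ) (F : ℕ → ℕ → Bool) (u v : ℕ) : Bool :=
  if decide (v % D < s) = true then
    F6g s (ptN κ H W N m g a b F (v % D / c1) (v / D)) (ctrN κ N (v % D / c1))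
      (drN κ H W N m b (v % D / c1) (v / D)) (u / D) (u % D) (v / D) (v % D)
  else decide (u / D = v / D)

/-- numbering of the pendants -/
def ePB (L m R : ℕ) : PB L m R ≃ Fin ((m + 1) * 2 ^ L + R) :=
  (Equiv.sumCongr finProdFinEquiv (Equiv.refl _)).trans finSumFinEquiv

/-- numbering of the blocks -/
def eSB (κ L m R : ℕ) : SB κ L m R ≃ Fin (2 ^ κ + ((m + 1) * 2 ^ L + R)) :=
  (Equiv.sumCongr (Equiv.refl _) (ePB L m R)).trans finSumFinEquiv

/-- numbering of the labels -/
def eSL (κ T m a b : ℕ) : SL κ T m a b ≃ Fin (LL κ (T + 1) m a b) :=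
  (Equiv.sumCongr finProdFinEquiv ((Equiv.sumCongr (Equiv.refl _)
    ((Equiv.sumCongr (Equiv.refl _) ((Equiv.sumCongr (Equiv.refl _)
      finProdFinEquiv).trans finSumFinEquiv)).trans finSumFinEquiv)).trans
        finSumFinEquiv)).trans finSumFinEquiv

/-- numbering of the centre classes -/
def eSG (κ T : ℕ) : SG κ T ≃ Fin (GG κ (T + 1)) :=
  (Equiv.sumCongr finProdFinEquiv ((Equiv.sumCongr (Equiv.refl _)
    (Equiv.refl _)).trans finSumFinEquiv)).trans finSumFinEquiv

/-- numbering of the slots -/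
def eSS (κ T m a b c f : ℕ) : Slt (SL κ T m a b) (SG κ T) c f ≃
    Fin (LL κ (T + 1) m a b * (c + 1) + (GG κ (T + 1) + f)) :=
  (Equiv.sumCongr ((Equiv.prodCongr (eSL κ T m a b) (Equiv.refl _)).trans finProdFinEquiv)
    ((Equiv.sumCongr (eSG κ T) (Equiv.refl _)).trans finSumFinEquiv)).trans finSumFinEquiv

/-- numbering of the vertices -/
def eSV (κ L T m R a b c f : ℕ) : Vx (SL κ T m a b) (SG κ T) (SB κ L m R) c f ≃
    Fin ((2 ^ κ + ((m + 1) * 2 ^ L + R)) *
      (LL κ (T + 1) m a b * (c + 1) + (GG κ (T + 1) + f))) :=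
  (Equiv.prodCongr (eSB κ L m R) (eSS κ T m a b c f)).trans finProdFinEquiv

/-! ### Sizes -/

/-- logarithm of the base parameter -/
def Lq (q a b t : ℕ) : ℕ := Nat.log 2 (a + b + 2 * t + 30) + 1 + q

/-- number of labels from a hub to its pendant -/
def Nq (L : ℕ) : ℕ := 4 * L

/-- number of gadget pendants -/
def gq (L : ℕ) : ℕ := (mS (Nq L) + 1) * 2 ^ L

/-- the unit of the exponents -/
def Mq (p q L : ℕ) : ℕ := 16 * L / min p (q - p) + 1

/-- `2 ^ kq` is the number of hubs -/
def kq (p q L : ℕ) : ℕ := (q - p) * Mq p q L - 2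

/-- number of followers -/
def Rq (p q L : ℕ) : ℕ := 2 ^ kq p q L - gq L

/-- size parameter of the links -/
def cq (p q L : ℕ) : ℕ := 3 * (gq L + kq p q L + 2 * L + 20)

/-- number of label slots -/
def sq (p q a b L : ℕ) : ℕ := LL (kq p q L) (Nq L) (mS (Nq L)) a b * (cq p q L + 1)

/-- the degree -/
def Dq (p q L : ℕ) : ℕ := 2 ^ (p * Mq p q L)

/-- number of free slots -/
def fq (p q a b L : ℕ) : ℕ := Dq p q L - sq p q a b L - GG (kq p q L) (Nq L)

/-- number of vertices of one side -/
def nq (p q L : ℕ) : ℕ := 2 * 2 ^ kq p q L * Dq p q L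

/-- the new graph -/
def redQ (p q : ℕ) (G : BGraph) (t : ℕ) : BGraph :=
  mkGraph (nq p q (Lq q G.a G.b t)) (nq p q (Lq q G.a G.b t))
    (F6 (kq p q (Lq q G.a G.b t)) (2 ^ kq p q (Lq q G.a G.b t)) (2 ^ Lq q G.a G.b t)
      (Nq (Lq q G.a G.b t)) (mS (Nq (Lq q G.a G.b t))) (gq (Lq q G.a G.b t)) G.a G.b
      (cq p q (Lq q G.a G.b t) + 1) (Dq p q (Lq q G.a G.b t))
      (sq p q G.a G.b (Lq q G.a G.b t)) G.F)

/-- the exponent -/
def KQ (p q : ℕ) (G : BGraph) (t : ℕ) : ℕ :=
  nq p q (Lq q G.a G.b t) + (2 ^ Lq q G.a G.b t - (G.a + G.b))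

/-- `d`-regular bipartite graphs with `n` vertices, `d = n ^ (p / q)`, that are `α`-expanders for
some `α` with `30 α d ≥ min (log₂ d) (log₂ (n / d))` -/
def LogExpander (p q : ℕ) (G : BGraph) : Prop :=
  ∃ (d : ℕ) (α : ℝ), (∀ i, G.rowDeg i = d) ∧ (∀ j, G.colDeg j = d) ∧ d ^ q = (G.a + G.b) ^ p ∧
    Pool.Agent.Lib.Pa7c826x.IsExpander α G ∧
    ((min (Nat.log 2 d) (Nat.log 2 ((G.a + G.b) / d)) : ℕ) : ℝ) ≤ 30 * (α * d)

end Pool.Agent.Lib.Pa7c826q
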