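import Pool.Agent.Lib.Pa7c826q.Ln2

/-!
The weight of a spin with its satellites is at most `1 + η`, `η = 1 / 2 ^ (3 L)`.

Put `N = 4 L`, `m = mS N`, `q = hh c`, `c = 3 (g + κ + 2 L + 20)`, `g = (m + 1) 2 ^ L`, so
`q * 2 ^ (g + κ + 2 L + 20) ≤ 1` (`hh_small`, Lib/Pa7c826/BISSum.lean).
`eta1`: let `y = (1 / 2) ^ (c + 1)`, `x = (1 / 2) ^ N`,
`G = gg c ^ N = x (1 + y) ^ N ≤ x (1 + 2 N y)` (`one_add_pow_le`, Lib/Pa7c826/BISSum.lean), so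
`1 + G ≤ (1 + x) (1 + 2 N x y)` and
`G (1 + G) ^ m ≤ x (1 + x) ^ m (1 + 2 N y) (1 + 2 N x y) ^ m ≤ (1 + 2 N y) (1 + 4 m N x y)` by
`mS_upper`; `m x ≤ N` (`mS_le`), so this is at most `(1 + 2 N y) (1 + 4 N ^ 2 y)
≤ 1 + 8 N ^ 2 y + …`, and `y ≤ 2 ^ (- c) ≤ 2 ^ (- 3 (2 L + 20))`, `N = 4 L ≤ 2 ^ L`.
`eta2`: `(1 + G q) ^ m ≤ 1 + 2 m q ≤ 1 + η` as `G ≤ 1`, `m ≤ g ≤ 2 ^ g`.
-/

namespace Pool.Agent.Lib.Pa7c826q

open Pool.Agent.Lib.Pa7c826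

namespace SEtaAux

theorem four_mul_le {L : ℕ} (hL : 7 ≤ L) : 4 * L ≤ 2 ^ L := by
  induction L, hL using Nat.le_induction with
  | base => norm_num
  | succ n hn ih => rw [pow_succ]; omega

/-- the final numerical inequality -/
theorem final {w y : ℚ} (hw : 1 ≤ w) (hy0 : 0 ≤ y) (hy : y * w ^ 6 * 2 ^ 60 ≤ 1) :
    (1 + 2 * w * y) * (1 + 4 * w ^ 2 * y) ≤ 1 + 1 / w ^ 3 := by
  have hw0 : 0 < w := by linarith
  have h3 : 0 < w ^ 3 := by positivity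
  -- `z = w ^ 2 y`
  have hwy : w * y ≤ w ^ 2 * y := by
    apply mul_le_mul_of_nonneg_right _ hy0
    nlinarith
  have h1 : (1 + 2 * w * y) * (1 + 4 * w ^ 2 * y) ≤
      (1 + 4 * (w ^ 2 * y)) * (1 + 4 * (w ^ 2 * y)) := by
    have hz : 0 ≤ w ^ 2 * y := by positivity
    have h2 : 1 + 2 * w * y ≤ 1 + 4 * (w ^ 2 * y) := by nlinarith
    calc (1 + 2 * w * y) * (1 + 4 * w ^ 2 * y) = (1 + 2 * w * y) * (1 + 4 * (w ^ 2 * y)) := by ring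
      _ ≤ _ := mul_le_mul_of_nonneg_right h2 (by linarith)
  refine h1.trans ?_
  -- `w ^ 3 z ≤ 2 ^ (-60)`
  have h5 : w ^ 3 * (w ^ 2 * y) * 2 ^ 60 ≤ 1 := by
    have h6 : w ^ 5 ≤ w ^ 6 := pow_le_pow_right₀ hw (by norm_num)
    calc w ^ 3 * (w ^ 2 * y) * 2 ^ 60 = w ^ 5 * (y * 2 ^ 60) := by ring
      _ ≤ w ^ 6 * (y * 2 ^ 60) := mul_le_mul_of_nonneg_right h6 (by positivity)
      _ = y * w ^ 6 * 2 ^ 60 := by ring
      _ ≤ 1 := hy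
  have hz : 0 ≤ w ^ 2 * y := by positivity
  have hz1 : w ^ 2 * y ≤ 1 := by
    have h7 : (1 : ℚ) ≤ w ^ 3 := one_le_pow₀ hw
    nlinarith
  have h8 : w ^ 3 * (8 * (w ^ 2 * y) + 16 * (w ^ 2 * y) ^ 2) ≤ 1 := by
    have h9 : (w ^ 2 * y) ^ 2 ≤ w ^ 2 * y := by nlinarith
    have h10 : w ^ 3 * (8 * (w ^ 2 * y) + 16 * (w ^ 2 * y) ^ 2) ≤
        w ^ 3 * (24 * (w ^ 2 * y)) := by
      apply mul_le_mul_of_nonneg_left _ h3.le
      linarith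
    have h11 : w ^ 3 * (24 * (w ^ 2 * y)) ≤ 1 := by
      have h12 : 0 ≤ w ^ 3 * (w ^ 2 * y) := by positivity
      nlinarith
    exact h10.trans h11
  have h13 : 8 * (w ^ 2 * y) + 16 * (w ^ 2 * y) ^ 2 ≤ 1 / w ^ 3 := by
    rw [le_div_iff₀ h3]
    linarith
  nlinarith

theorem y_small {L κ c m : ℕ} (hc : c = 3 * ((m + 1) * 2 ^ L + κ + 2 * L + 20)) :
    (1 / 2 : ℚ) ^ (c + 1) * (2 ^ L) ^ 6 * 2 ^ 60 ≤ 1 := by
  have h1 : (1 / 2 : ℚ) ^ (c + 1) ≤ (1 / 2) ^ (6 * L + 60) :=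
    pow_le_pow_of_le_one (by norm_num) (by norm_num) (by omega)
  calc (1 / 2 : ℚ) ^ (c + 1) * (2 ^ L) ^ 6 * 2 ^ 60
      ≤ (1 / 2) ^ (6 * L + 60) * (2 ^ L) ^ 6 * 2 ^ 60 := by gcongr
    _ = (1 / 2) ^ (6 * L + 60) * 2 ^ (6 * L + 60) := by
        rw [← pow_mul, mul_assoc, ← pow_add, mul_comm L 6]
    _ = 1 := by rw [← mul_pow]; norm_num

end SEtaAux

open SEtaAux

theorem eta1 {L κ c : ℕ} (hL : 7 ≤ L) (hc : c = 3 * ((mS (4 * L) + 1) * 2 ^ L + κ + 2 * L + 20)) :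
    gg c ^ (4 * L) * (1 + gg c ^ (4 * L)) ^ mS (4 * L) ≤ 1 + 1 / 2 ^ (3 * L) := by
  set N := 4 * L with hN
  set m := mS N with hm
  set y : ℚ := (1 / 2) ^ (c + 1) with hy
  set x : ℚ := (1 / 2) ^ N with hx
  set w : ℚ := 2 ^ L with hw
  have hy0 : 0 < y := by positivity
  have hx0 : 0 < x := by positivity
  have hx1 : x ≤ 1 := pow_le_one₀ (by norm_num) (by norm_num)
  have hw1 : 1 ≤ w := one_le_pow₀ (by norm_num)
  have hysm : y * w ^ 6 * 2 ^ 60 ≤ 1 := y_small hc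
  have hNw : (N : ℚ) ≤ w := by
    have := four_mul_le hL
    rw [hw]
    exact_mod_cast this
  have hN0 : (0 : ℚ) ≤ N := Nat.cast_nonneg _
  have hw2 : w ^ 2 * y ≤ 1 / 8 := by
    have h6 : w ^ 2 ≤ w ^ 6 := pow_le_pow_right₀ hw1 (by norm_num)
    have h7 : w ^ 2 * y ≤ w ^ 6 * y := mul_le_mul_of_nonneg_right h6 hy0.le
    nlinarith
  have hNy : (N : ℚ) * y ≤ w * y := mul_le_mul_of_nonneg_right hNw hy0.le
  have hwy : w * y ≤ w ^ 2 * y := by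
    apply mul_le_mul_of_nonneg_right _ hy0.le
    nlinarith
  have hN2 : (N : ℚ) ^ 2 ≤ w ^ 2 := pow_le_pow_left₀ hN0 hNw 2
  have hN2y : (N : ℚ) ^ 2 * y ≤ w ^ 2 * y := mul_le_mul_of_nonneg_right hN2 hy0.le
  -- `G`
  have hG : gg c ^ N = x * (1 + y) ^ N := by
    unfold gg
    rw [hx, ← mul_pow]
    congr 1
    ring
  have h1 : (1 + y) ^ N ≤ 1 + 2 * N * y := one_add_pow_le N hy0.le (by linarith)
  have hGle : gg c ^ N ≤ x * (1 + 2 * N * y) := by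
    rw [hG]
    exact mul_le_mul_of_nonneg_left h1 hx0.le
  have hG0 : 0 ≤ gg c ^ N := by
    rw [hG]; positivity
  have hz0 : 0 ≤ 2 * N * x * y := by positivity
  have h1G : 1 + gg c ^ N ≤ (1 + x) * (1 + 2 * N * x * y) := by
    have : 0 ≤ x * (2 * N * x * y) := by positivity
    nlinarith
  have hmx : (m : ℚ) * x ≤ N := by
    have h2 : (m : ℚ) ≤ N * 2 ^ N := by exact_mod_cast mS_le N
    calc (m : ℚ) * x ≤ (N * 2 ^ N) * x := mul_le_mul_of_nonneg_right h2 hx0.le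
      _ = N * (2 ^ N * (1 / 2) ^ N) := by rw [hx]; ring
      _ = N := by rw [← mul_pow]; norm_num
  have hmz : 2 * (m : ℚ) * (2 * N * x * y) ≤ 4 * (N : ℚ) ^ 2 * y := by
    have : (m : ℚ) * x * (N * y) ≤ N * (N * y) := mul_le_mul_of_nonneg_right hmx (by positivity)
    nlinarith
  have h2 : (1 + 2 * N * x * y) ^ m ≤ 1 + 4 * (N : ℚ) ^ 2 * y :=
    (one_add_pow_le m hz0 (by linarith)).trans (by linarith)
  have hup : x * (1 + x) ^ m ≤ 1 := mS_upper N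
  calc gg c ^ N * (1 + gg c ^ N) ^ m
      ≤ (x * (1 + 2 * N * y)) * ((1 + x) * (1 + 2 * N * x * y)) ^ m :=
        mul_le_mul hGle (pow_le_pow_left₀ (by linarith) h1G m) (by positivity) (by positivity)
    _ = (x * (1 + x) ^ m) * ((1 + 2 * N * y) * (1 + 2 * N * x * y) ^ m) := by
        rw [mul_pow]; ring
    _ ≤ 1 * ((1 + 2 * N * y) * (1 + 2 * N * x * y) ^ m) :=
        mul_le_mul_of_nonneg_right hup (by positivity)
    _ ≤ 1 * ((1 + 2 * N * y) * (1 + 4 * (N : ℚ) ^ 2 * y)) := by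
        apply mul_le_mul_of_nonneg_left _ (by norm_num)
        exact mul_le_mul_of_nonneg_left h2 (by positivity)
    _ ≤ (1 + 2 * w * y) * (1 + 4 * w ^ 2 * y) := by
        rw [one_mul]
        exact mul_le_mul (by linarith) (by linarith) (by positivity) (by positivity)
    _ ≤ 1 + 1 / w ^ 3 := final hw1 hy0.le hysm
    _ = 1 + 1 / 2 ^ (3 * L) := by rw [hw, ← pow_mul, mul_comm L 3]

theorem eta2 {L κ c : ℕ} (hL : 7 ≤ L) (hc : c = 3 * ((mS (4 * L) + 1) * 2 ^ L + κ + 2 * L + 20)) :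
    (1 + gg c ^ (4 * L) * hh c) ^ mS (4 * L) ≤ 1 + 1 / 2 ^ (3 * L) := by
  set N := 4 * L with hN
  set m := mS N with hm
  set M := (m + 1) * 2 ^ L + κ + 2 * L + 20 with hM
  have hq0 : 0 < hh c := hh_pos c
  have hq : hh c * 2 ^ M ≤ 1 := by rw [hc]; exact hh_small M
  have hgg1 : gg c ≤ 1 := by
    have h1 := gg_upper c
    have h2 := hh_le_one c
    linarith
  have hgg0 : 0 ≤ gg c := by
    have := gg_lower c
    linarith
  have hG1 : gg c ^ N ≤ 1 := pow_le_one₀ hgg0 hgg1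
  have hG0 : 0 ≤ gg c ^ N := pow_nonneg hgg0 _
  -- `2 m 2 ^ (3 L) ≤ 2 ^ M`
  have hbig : 2 * (m : ℚ) * 2 ^ (3 * L) ≤ 2 ^ M := by
    have h1 : m + L + 1 ≤ (m + 1) * 2 ^ L := by
      have h2 : L + 1 ≤ 2 ^ L := Nat.lt_two_pow_self
      calc m + L + 1 ≤ (m + 1) * (L + 1) := by nlinarith
        _ ≤ (m + 1) * 2 ^ L := Nat.mul_le_mul_left _ h2
    have h3 : m + 3 * L + 1 ≤ M := by omega
    have h4 : (m : ℚ) ≤ 2 ^ m := nat_le_two_pow m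
    calc 2 * (m : ℚ) * 2 ^ (3 * L) ≤ 2 * 2 ^ m * 2 ^ (3 * L) := by gcongr
      _ = 2 ^ (m + 3 * L + 1) := by rw [pow_succ, pow_add]; ring
      _ ≤ 2 ^ M := pow_le_pow_right₀ (by norm_num) h3
  have hmq : 2 * (m : ℚ) * hh c * 2 ^ (3 * L) ≤ 1 := by
    calc 2 * (m : ℚ) * hh c * 2 ^ (3 * L) = hh c * (2 * (m : ℚ) * 2 ^ (3 * L)) := by ring
      _ ≤ hh c * 2 ^ M := mul_le_mul_of_nonneg_left hbig hq0.le
      _ ≤ 1 := hq
  have hp : (0 : ℚ) < 2 ^ (3 * L) := by positivity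
  have hmq' : 2 * (m : ℚ) * hh c ≤ 1 / 2 ^ (3 * L) := by
    rw [le_div_iff₀ hp]; exact hmq
  have hle1 : (1 : ℚ) / 2 ^ (3 * L) ≤ 1 := by
    rw [div_le_one hp]; exact one_le_pow₀ (by norm_num)
  calc (1 + gg c ^ N * hh c) ^ m ≤ (1 + hh c) ^ m := by
        apply pow_le_pow_left₀ (by positivity)
        have : gg c ^ N * hh c ≤ 1 * hh c := mul_le_mul_of_nonneg_right hG1 hq0.le
        linarith
    _ ≤ 1 + 2 * m * hh c := one_add_pow_le m hq0.le (hmq'.trans hle1)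
    _ ≤ 1 + 1 / 2 ^ (3 * L) := by linarith

end Pool.Agent.Lib.Pa7c826q
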