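import Pool.Agent.Lib.Pa7c826q.STot
import Pool.Agent.Lib.Pa7c826q.SEta

/-!
The estimate of the sum over all states.

Put `N = T + 1 = 4 L`, `g = (m + 1) 2 ^ L`, `q = hh c`, `c = 3 (g + κ + 2 L + 20)`, so
`q * 2 ^ (g + κ + 2 L + 20) ≤ 1` (`hh_small`), `I = cnt …`, `Y = 2 ^ L - (a + b) ≥ 2 t + 30`.

`η = 1 / 2 ^ (3 L)`; the hypotheses of `sum_phi` are `eta1`, `eta2`.

`snum`, lower bound: `tot_lower`, `sum_low`, `mS_lower` and `(1 - z) ^ n ≥ 1 - n z`
(`one_add_mul_le_pow`) with `z = 2 N / 2 ^ N = 8 L / 2 ^ (4 L)`, `n = 2 ^ L`; finally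
`64 L (2 t + 1) ≤ 2 ^ (3 L)` because `2 t + 1 ≤ 2 ^ L` and `64 L ≤ 2 ^ (2 L)`.

`snum`, upper bound: `tot_upper`, `sum_phi`; `(1 + q) ^ R ≤ (1 + q) ^ 2 ^ κ ≤ 1 + 2 * 2 ^ κ * q`,
`(1 + η) ^ 2 ^ L ≤ 1 + 2 * 2 ^ L * η`, `2 ^ 2 ^ L * q` and `2 ^ g * 2 ^ κ * q` are at most
`2 ^ (- 2 L - 20)`, `I ≥ 1`, `(1 + q) ^ 2 ^ κ / 2 ^ Y ≤ 2 / 2 ^ (2 t + 30)`, and
`2 t + 1 ≤ 2 ^ L`.
-/

namespace Pool.Agent.Lib.Pa7c826q

open Pool.Agent.Lib.Pa7c826

namespace SNumAux

theorem up {Z PR P Sg H I D e2 e3 y r : ℚ} (hy0 : 0 < y) (hy : y ≤ 1 / 128) (hI : 1 ≤ I)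
    (hD : 1 ≤ D) (hDr : 1 / D ≤ r / 128) (hr : y ≤ r) (hPR0 : 0 ≤ PR) (hPR : PR ≤ P)
    (hP : P ≤ 1 + y ^ 2 / 16) (hS : Sg ≤ H * (I * D + e2)) (hH0 : 0 ≤ H)
    (hH : H ≤ 1 + 2 * y ^ 2) (he2 : 0 ≤ e2) (he2' : e2 ≤ y ^ 2 / 16) (he3 : 0 ≤ e3)
    (he3' : e3 ≤ y ^ 2 / 16) (hZ : Z ≤ PR * Sg + P + PR * e3) : Z / D ≤ I * (1 + r / 8) := by
  have hD0 : 0 < D := by linarith
  have hP0 : 0 ≤ P := hPR0.trans hPR
  have hr0 : 0 < r := by linarith
  set z : ℚ := y ^ 2 with hz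
  have hz0 : 0 < z := by positivity
  have hz1 : z ≤ y / 128 := by
    rw [hz, pow_two]
    have := mul_le_mul_of_nonneg_left hy hy0.le
    linarith
  have hz2 : z ≤ 1 / 16384 := by linarith
  have hP2 : P ≤ 2 := by linarith
  have h0 : 0 ≤ H * (I * D + e2) := by positivity
  have h1 : PR * Sg ≤ P * (H * (I * D + e2)) :=
    (mul_le_mul_of_nonneg_left hS hPR0).trans (mul_le_mul_of_nonneg_right hPR h0)
  have h2 : PR * e3 ≤ P * e3 := mul_le_mul_of_nonneg_right hPR he3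
  have h3 : Z ≤ D * (P * H * (I + e2) + P * (1 / D) + P * e3) := by
    have e1 : D * (P * H * (I + e2) + P * (1 / D) + P * e3) =
        P * H * (I * D + e2 * D) + P + P * e3 * D := by
      field_simp
    rw [e1]
    have f1 : e2 ≤ e2 * D := le_mul_of_one_le_right he2 hD
    have f2 : P * e3 ≤ P * e3 * D := le_mul_of_one_le_right (mul_nonneg hP0 he3) hD
    have f3 : P * (H * (I * D + e2)) ≤ P * H * (I * D + e2 * D) := by
      rw [← mul_assoc]
      exact mul_le_mul_of_nonneg_left (by linarith) (mul_nonneg hP0 hH0)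
    linarith
  have h4 : Z / D ≤ P * H * (I + e2) + P * (1 / D) + P * e3 := by
    rw [div_le_iff₀ hD0, mul_comm _ D]
    exact h3
  have g1 : P * H ≤ (1 + z / 16) * (1 + 2 * z) :=
    mul_le_mul hP hH hH0 (by positivity)
  have g2 : I + e2 ≤ I * (1 + z / 16) := by
    have : e2 ≤ I * (z / 16) := he2'.trans (le_mul_of_one_le_left (by positivity) hI)
    linarith
  have g3 : P * H * (I + e2) ≤ ((1 + z / 16) * (1 + 2 * z)) * (I * (1 + z / 16)) :=
    mul_le_mul g1 g2 (by linarith) (by positivity)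
  have g4 : ((1 + z / 16) * (1 + 2 * z)) * (I * (1 + z / 16)) ≤ I * (1 + 3 * z) := by
    have e1 : ((1 + z / 16) * (1 + 2 * z)) * (I * (1 + z / 16)) =
        I * (1 + 17 / 8 * z + z * z * (65 / 256) + z * z * z / 128) := by ring
    rw [e1]
    refine mul_le_mul_of_nonneg_left ?_ (by linarith)
    have f1 : z * z ≤ z * (1 / 16384) := mul_le_mul_of_nonneg_left hz2 hz0.le
    have f2 : z * z * z ≤ z * (1 / 16384) * (1 / 16384) :=
      mul_le_mul f1 hz2 hz0.le (by positivity)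
    linarith
  have g5 : P * (1 / D) ≤ I * (r / 64) := by
    have f1 : P * (1 / D) ≤ 2 * (r / 128) := mul_le_mul hP2 hDr (by positivity) (by norm_num)
    have f2 : r / 64 ≤ I * (r / 64) := le_mul_of_one_le_left (by positivity) hI
    linarith
  have g6 : P * e3 ≤ I * (z / 8) := by
    have f1 : P * e3 ≤ 2 * (z / 16) := mul_le_mul hP2 he3' he3 (by norm_num)
    have f2 : z / 8 ≤ I * (z / 8) := le_mul_of_one_le_left (by positivity) hI
    linarith
  have g7 : I * (1 + 3 * z) + I * (r / 64) + I * (z / 8) ≤ I * (1 + r / 8) := by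
    have e1 : I * (1 + 3 * z) + I * (r / 64) + I * (z / 8) =
        I * (1 + 3 * z + r / 64 + z / 8) := by ring
    rw [e1]
    refine mul_le_mul_of_nonneg_left ?_ (by linarith)
    linarith
  linarith

theorem q_small {q : ℚ} (hq : 0 ≤ q) {M n : ℕ} (h : q * 2 ^ M ≤ 1) (hn : n ≤ M) :
    q * 2 ^ n ≤ 1 :=
  (mul_le_mul_of_nonneg_left (pow_le_pow_right₀ (by norm_num) hn) hq).trans h

end SNumAux

open SNumAux in
theorem snum {κ L T m R a b t c : ℕ} (hR : (m + 1) * 2 ^ L + R = 2 ^ κ) (hab : a + b ≤ 2 ^ L)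
    (E : Fin a → Fin b → Bool) (hL : 7 ≤ L) (hT : T + 1 = 4 * L) (hm : m = mS (4 * L))
    (hc : c = 3 * ((m + 1) * 2 ^ L + κ + 2 * L + 20)) (ht : a + b + 2 * t + 30 ≤ 2 ^ L)
    (hE : 1 ≤ cnt (fun x y => E x y = true)) :
    (cnt (fun x y => E x y = true) : ℚ) * (1 - 1 / (8 * (2 * (t : ℚ) + 1))) ≤
      (∑ σ : SB κ L m R → Bool, wgt (spt (T := T) hR hab E) (sdr hab) sctr c σ) /
        2 ^ (2 ^ L - (a + b)) ∧
    (∑ σ : SB κ L m R → Bool, wgt (spt (T := T) hR hab E) (sdr hab) sctr c σ) /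
        2 ^ (2 ^ L - (a + b)) ≤
      (cnt (fun x y => E x y = true) : ℚ) * (1 + 1 / (8 * (2 * (t : ℚ) + 1))) := by
  subst hm
  have hq0 : 0 < hh c := hh_pos c
  have hqM : hh c * 2 ^ ((mS (4 * L) + 1) * 2 ^ L + κ + 2 * L + 20) ≤ 1 := by
    rw [hc]
    exact hh_small _
  set q : ℚ := hh c with hq
  set I : ℚ := (cnt (fun x y => E x y = true) : ℚ) with hI
  have hI1 : 1 ≤ I := by
    rw [hI]
    exact_mod_cast hE
  set D : ℚ := 2 ^ (2 ^ L - (a + b)) with hD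
  have hD1 : 1 ≤ D := one_le_pow₀ (by norm_num)
  have hD0 : 0 < D := by linarith
  set y : ℚ := 1 / 2 ^ L with hy
  have h2L : (0 : ℚ) < 2 ^ L := by positivity
  have hy0 : 0 < y := by positivity
  have hyL : y * 2 ^ L = 1 := by
    rw [hy]
    field_simp
  have hLp : (128 : ℚ) ≤ 2 ^ L := by
    calc (128 : ℚ) = 2 ^ 7 := by norm_num
      _ ≤ 2 ^ L := pow_le_pow_right₀ (by norm_num) hL
  have hy1 : y ≤ 1 / 128 := by
    rw [hy]
    exact one_div_le_one_div_of_le (by norm_num) hLp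
  have hy2 : y ^ 2 * 2 ^ (2 * L) = 1 := by
    rw [mul_comm 2 L, pow_mul, ← mul_pow, hyL, one_pow]
  have hs0 : (0 : ℚ) < 2 * (t : ℚ) + 1 := by positivity
  set r : ℚ := 1 / (2 * (t : ℚ) + 1) with hr
  have hr0 : 0 < r := by positivity
  have hr8 : 1 / (8 * (2 * (t : ℚ) + 1)) = r / 8 := by
    rw [hr]
    field_simp
  rw [hr8]
  have hst : 2 * (t : ℚ) + 1 ≤ 2 ^ L := by
    have h1 : 2 * t + 1 ≤ 2 ^ L := by omega
    exact_mod_cast h1
  have hyr : y ≤ r := one_div_le_one_div_of_le hs0 hst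
  constructor
  · -- lower bound
    set w : ℚ := (1 / 2 : ℚ) ^ (T + 1) * (1 + (1 / 2) ^ (T + 1)) ^ mS (4 * L) with hw
    have hw1 : w ≤ 1 := by
      rw [hw, hT]
      exact mS_upper (4 * L)
    have hw2 : 1 - 2 * ((4 * L : ℕ) : ℚ) / 2 ^ (4 * L) ≤ w := by
      rw [hw, hT]
      exact mS_lower (by omega)
    have hz : (2 : ℚ) ^ L * (2 * ((4 * L : ℕ) : ℚ) / 2 ^ (4 * L)) ≤ r / 8 := by
      have e1 : (2 : ℚ) ^ (4 * L) = 2 ^ L * 2 ^ (3 * L) := by
        rw [← pow_add]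
        congr 1
        ring
      have e2 : (2 : ℚ) ^ L * (2 * ((4 * L : ℕ) : ℚ) / 2 ^ (4 * L)) = 8 * L / 2 ^ (3 * L) := by
        rw [e1]
        push_cast
        field_simp
        norm_num
      rw [e2, ← hr8, div_le_div_iff₀ (by positivity) (by positivity)]
      have f1 : (L : ℚ) ≤ 2 ^ L := nat_le_two_pow L
      have f2 : (64 : ℚ) ≤ 2 ^ L := by linarith
      have e3 : (2 : ℚ) ^ (3 * L) = 2 ^ L * 2 ^ L * 2 ^ L := by
        rw [← pow_add, ← pow_add]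
        congr 1
        ring
      rw [e3, one_mul]
      have f3 : (64 : ℚ) * L ≤ 2 ^ L * 2 ^ L := mul_le_mul f2 f1 (by positivity) (by positivity)
      have f4 : (64 : ℚ) * L * (2 * (t : ℚ) + 1) ≤ 2 ^ L * 2 ^ L * 2 ^ L :=
        mul_le_mul f3 hst hs0.le (by positivity)
      linarith
    have hzz : (2 : ℚ) * ((4 * L : ℕ) : ℚ) / 2 ^ (4 * L) ≤ 1 := by
      have f1 : (0 : ℚ) ≤ 2 * ((4 * L : ℕ) : ℚ) / 2 ^ (4 * L) := by positivity
      have f2 : 2 * ((4 * L : ℕ) : ℚ) / 2 ^ (4 * L) ≤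
          2 ^ L * (2 * ((4 * L : ℕ) : ℚ) / 2 ^ (4 * L)) :=
        le_mul_of_one_le_left f1 (by linarith)
      have f3 : r ≤ 1 := by
        rw [hr, div_le_one hs0]
        have : (0 : ℚ) ≤ t := Nat.cast_nonneg t
        linarith
      linarith
    have hpow : 1 - r / 8 ≤ w ^ 2 ^ L := by
      have f1 := one_add_mul_le_pow (a := -(2 * ((4 * L : ℕ) : ℚ) / 2 ^ (4 * L))) (by linarith)
        (2 ^ L)
      have f2 : (1 + -(2 * ((4 * L : ℕ) : ℚ) / 2 ^ (4 * L))) ^ 2 ^ L ≤ w ^ 2 ^ L :=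
        pow_le_pow_left₀ (by linarith) (by linarith) _
      have f3 : (((2 ^ L : ℕ) : ℚ)) = 2 ^ L := by push_cast; rfl
      rw [f3] at f1
      linarith
    have h1 := (sum_low hab E hw1).trans (tot_lower (κ := κ) (R := R) hR hab E c)
    rw [le_div_iff₀ hD0]
    refine le_trans ?_ h1
    have e1 : I * (1 - r / 8) * D = I * D * (1 - r / 8) := by ring
    rw [e1]
    exact mul_le_mul_of_nonneg_left hpow (by positivity)
  · -- upper bound
    have hc' : c = 3 * ((mS (4 * L) + 1) * 2 ^ L + κ + 2 * L + 20) := hc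
    have h1 : gg c ^ (T + 1) * (1 + gg c ^ (T + 1)) ^ mS (4 * L) ≤ 1 + 1 / 2 ^ (3 * L) := by
      rw [hT]
      exact eta1 hL hc'
    have h2 : (1 + gg c ^ (T + 1) * hh c) ^ mS (4 * L) ≤ 1 + 1 / 2 ^ (3 * L) := by
      rw [hT]
      exact eta2 hL hc'
    have hS := sum_phi (T := T) (m := mS (4 * L)) hab E c (η := 1 / 2 ^ (3 * L)) (by positivity)
      h1 h2
    have hZ := tot_upper (T := T) hR hab E c
    set g : ℕ := (mS (4 * L) + 1) * 2 ^ L with hg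
    have hgL : 2 ^ L ≤ g := by
      rw [hg]
      exact Nat.le_mul_of_pos_left _ (Nat.succ_pos _)
    have hRκ : R ≤ 2 ^ κ := by omega
    -- the powers of `1 + q`
    have a1 : 2 * ((2 ^ κ : ℕ) : ℚ) * q * (16 * 2 ^ (2 * L)) ≤ 1 := by
      have e1 : 2 * ((2 ^ κ : ℕ) : ℚ) * q * (16 * 2 ^ (2 * L)) = q * 2 ^ (κ + 2 * L + 5) := by
        push_cast
        rw [pow_add, pow_add]
        ring
      rw [e1]
      exact q_small hq0.le hqM (by omega)
    have a1' : 2 * ((2 ^ κ : ℕ) : ℚ) * q ≤ y ^ 2 / 16 := by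
      have e1 : y ^ 2 / 16 * (16 * 2 ^ (2 * L)) = 1 := by
        rw [← hy2]
        ring
      rw [← e1] at a1
      exact le_of_mul_le_mul_right a1 (by positivity)
    have hyy : y ^ 2 / 16 ≤ 1 := by
      have : y ^ 2 ≤ 1 := pow_le_one₀ hy0.le (by linarith)
      linarith
    have hP : (1 + q) ^ 2 ^ κ ≤ 1 + 2 * ((2 ^ κ : ℕ) : ℚ) * q :=
      one_add_pow_le (2 ^ κ) hq0.le (a1'.trans hyy)
    have hPR : (1 + q) ^ R ≤ (1 + q) ^ 2 ^ κ := pow_le_pow_right₀ (by linarith) hRκ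
    have hPR0 : 0 ≤ (1 + q) ^ R := by positivity
    -- eta
    have e3 : (2 : ℚ) ^ (3 * L) = 2 ^ L * 2 ^ (2 * L) := by
      rw [← pow_add]
      congr 1
      ring
    have hη : 2 * ((2 ^ L : ℕ) : ℚ) * (1 / 2 ^ (3 * L)) = 2 * y ^ 2 := by
      have h22 : (0 : ℚ) < 2 ^ (2 * L) := by positivity
      have e4 : y ^ 2 = 1 / 2 ^ (2 * L) := by
        rw [eq_div_iff h22.ne']
        exact hy2
      rw [e4, e3]
      push_cast
      field_simp
    have hH : (1 + 1 / 2 ^ (3 * L) : ℚ) ^ 2 ^ L ≤ 1 + 2 * y ^ 2 := by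
      have := one_add_pow_le (x := 1 / 2 ^ (3 * L)) (2 ^ L) (by positivity) (by
        rw [hη]
        have : y ^ 2 ≤ y * (1 / 128) := by
          rw [pow_two]
          exact mul_le_mul_of_nonneg_left hy1 hy0.le
        linarith)
      rw [hη] at this
      exact this
    have a2 : (2 : ℚ) ^ 2 ^ L * q ≤ y ^ 2 / 16 := by
      have e1 : (2 : ℚ) ^ 2 ^ L * q * (16 * 2 ^ (2 * L)) = q * 2 ^ (2 ^ L + 2 * L + 4) := by
        rw [pow_add, pow_add]
        ring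
      have f1 : q * 2 ^ (2 ^ L + 2 * L + 4) ≤ 1 := q_small hq0.le hqM (by omega)
      rw [← e1] at f1
      have e2 : y ^ 2 / 16 * (16 * 2 ^ (2 * L)) = 1 := by
        rw [← hy2]
        ring
      rw [← e2] at f1
      exact le_of_mul_le_mul_right f1 (by positivity)
    have hP1 : 1 ≤ (1 + q) ^ 2 ^ κ := one_le_pow₀ (by linarith)
    have a3 : (2 : ℚ) ^ g * (2 * ((1 + q) ^ 2 ^ κ - 1)) ≤ y ^ 2 / 16 := by
      have f0 : (2 : ℚ) ^ g * (2 * ((1 + q) ^ 2 ^ κ - 1)) ≤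
          2 ^ g * (2 * (2 * ((2 ^ κ : ℕ) : ℚ) * q)) :=
        mul_le_mul_of_nonneg_left (by linarith) (by positivity)
      refine f0.trans ?_
      have e1 : (2 : ℚ) ^ g * (2 * (2 * ((2 ^ κ : ℕ) : ℚ) * q)) * (16 * 2 ^ (2 * L)) =
          q * 2 ^ (g + κ + 2 * L + 6) := by
        push_cast
        rw [pow_add, pow_add, pow_add]
        ring
      have f1 : q * 2 ^ (g + κ + 2 * L + 6) ≤ 1 := q_small hq0.le hqM (by omega)
      rw [← e1] at f1
      have e2 : y ^ 2 / 16 * (16 * 2 ^ (2 * L)) = 1 := by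
        rw [← hy2]
        ring
      rw [← e2] at f1
      exact le_of_mul_le_mul_right f1 (by positivity)
    have hDr : 1 / D ≤ r / 128 := by
      have f1 : (2 * (t : ℚ) + 1) ≤ 2 ^ (2 * t + 1) := by
        have := nat_le_two_pow (2 * t + 1)
        push_cast at this
        exact this
      have f2 : (2 : ℚ) ^ (2 * t + 8) ≤ D := pow_le_pow_right₀ (by norm_num) (by omega)
      have f3 : (128 : ℚ) * (2 * (t : ℚ) + 1) ≤ D := by
        refine le_trans ?_ f2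
        have e1 : (2 : ℚ) ^ (2 * t + 8) = 128 * 2 ^ (2 * t + 1) := by
          rw [pow_add, pow_add]
          norm_num
          ring
        rw [e1]
        exact mul_le_mul_of_nonneg_left f1 (by norm_num)
      have e2 : r / 128 = 1 / (128 * (2 * (t : ℚ) + 1)) := by
        rw [hr]
        field_simp
      rw [e2]
      exact one_div_le_one_div_of_le (by positivity) f3
    exact up hy0 hy1 hI1 hD1 hDr hyr hPR0 hPR (hP.trans (by linarith)) hS (by positivity) hH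
      (by positivity) a2 (mul_nonneg (by positivity) (mul_nonneg (by norm_num) (by linarith))) a3 hZ

end Pool.Agent.Lib.Pa7c826q
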