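import Pool.Agent.Lib.Pa7c826q.Defs
import Pool.Agent.Lib.Pa7c826s.TPair

/-!
The pairings of the system of hubs and pendants, and the conditions on the weights of the cut
links. (See `flip_flip`, `flip_digit` in Lib/Pa7c826s/Cube.lean and `Pa7c826s.TPairAux.swap_dir` in
Lib/Pa7c826s/TPair.lean.)
-/

namespace Pool.Agent.Lib.Pa7c826q

open Pool.Agent.Lib.Pa7c826
open Pool.Agent.Lib.Pa7c826s (Pairing cutX flip flipN flip_flip flip_digit flip_ne)

theorem card_SL (κ T m a b : ℕ) : Fintype.card (SL κ T m a b) = LL κ (T + 1) m a b := by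
  simp [SL, LL]

theorem card_SG (κ T : ℕ) : Fintype.card (SG κ T) = GG κ (T + 1) := by
  simp [SG, GG]

theorem card_SB {κ L m R : ℕ} (hR : (m + 1) * 2 ^ L + R = 2 ^ κ) :
    Fintype.card (SB κ L m R) = 2 * 2 ^ κ := by
  simp only [SB, PB, Fintype.card_sum, Fintype.card_prod, Fintype.card_fin]
  omega

variable {κ L T m R a b : ℕ}

theorem spair (hR : (m + 1) * 2 ^ L + R = 2 ^ κ) (hab : a + b ≤ 2 ^ L)
    (E : Fin a → Fin b → Bool) : Pairing (spt (T := T) hR hab E) (sdr hab) := by
  constructor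
  · rintro (⟨i, e⟩ | (k | (u | (j | ⟨x, y⟩)))) z
    · rcases z with τ | π
      · simp [spt, Pa7c826s.flip_flip]
      · simp [spt]
    · rcases z with τ | π
      · simp [spt]
      · simp [spt]
    · rcases z with τ | (w | r)
      · rcases hs : (eP hR).symm τ with w | r
        · simp [spt, hs]
        · have : eP hR (.inr r) = τ := by rw [← hs]; simp
          simp [spt, hs, this]
      · simp [spt]
      · simp [spt]
    · rcases z with τ | (⟨k, i⟩ | r)
      · simp [spt]
      · simp [spt]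
      · simp [spt]
    · by_cases h : E x y = true
      · simp [spt, h]
      · simp [spt, h]
  · rintro (⟨i, e⟩ | (k | (u | (j | ⟨x, y⟩)))) z h
    · rcases z with τ | π
      · simp only [spt, sdr]
        rw [flip_digit]
        have hb : (e : ℕ) < 2 := e.2
        rw [Bool.eq_not_iff, ne_eq, decide_eq_decide]
        omega
      · exact absurd (by simp [spt]) h
    · rcases z with τ | π
      · simp [spt, sdr]
      · simp [spt, sdr]
    · rcases z with τ | (w | r)
      · rcases hs : (eP hR).symm τ with w | r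
        · exact absurd (by simp [spt, hs]) h
        · simp [spt, sdr, hs]
      · exact absurd (by simp [spt]) h
      · simp [spt, sdr]
    · rcases z with τ | (⟨k, i⟩ | r)
      · exact absurd (by simp [spt]) h
      · have h2 : Equiv.swap 0 j.succ k ≠ k := by
          intro h3
          apply h
          simp only [spt]
          rw [h3]
        have := Pa7c826s.TPairAux.swap_dir (0 : Fin (m + 1)) j.succ 0 k (Or.inl rfl) h2
        simp only [spt, sdr, ne_eq, decide_not, this]
      · exact absurd (by simp [spt]) h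
    · by_cases hE : E x y = true
      · have h1 : spt (T := T) hR hab E (.inr (.inr (.inr (.inr (x, y))))) z =
            Equiv.swap (spin (vL hab x)) (spin (vR hab y)) z := by simp [spt, hE]
        rw [h1] at h ⊢
        simp only [sdr]
        exact Pa7c826s.TPairAux.swap_dir _ _ _ _ (Or.inl rfl) h
      · exact absurd (by simp [spt, hE]) h

theorem wL1 (hab : a + b ≤ 2 ^ L) (c : ℕ) (l : SL κ T m a b) (x : SB κ L m R) :
    wL c l x ≤ bif sdr hab l x then c + 1 else 1 := by
  rcases l with ⟨i, e⟩ | (k | (u | (j | ⟨p, q⟩)))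
  · rcases x with τ | π
    · simp only [wL, sdr]
      cases decide ((τ : ℕ) / 2 ^ (i : ℕ) % 2 = (e : ℕ)) <;> simp
    · simp [wL]
  · rcases x with τ | π
    · simp [wL, sdr]
    · simp [wL, sdr]
  · simp [wL]
  · simp [wL]
  · simp [wL]

theorem wL2 (hab : a + b ≤ 2 ^ L) (c : ℕ) (x : SB κ L m R) (l l' : SL κ T m a b)
    (h1 : sdr hab l x = false) (h2 : sdr hab l' x = false) (h3 : sctr l = sctr l')
    (h4 : 0 < wL c l x) (h5 : 0 < wL c l' x) : l = l' := by
  have key : ∀ l : SL κ T m a b, sdr hab l x = false → 0 < wL c l x → ∃ k, l = .inr (.inl k) := by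
    rintro (⟨i, e⟩ | (k | (u | (j | ⟨p, q⟩)))) g1 g2
    · rcases x with τ | π
      · simp only [wL] at g2
        simp only [sdr] at g1
        rw [g1] at g2
        exact absurd g2 (by simp)
      · exact absurd g2 (by simp [wL])
    · exact ⟨k, rfl⟩
    · exact absurd g2 (by simp [wL])
    · exact absurd g2 (by simp [wL])
    · exact absurd g2 (by simp [wL])
  obtain ⟨k, rfl⟩ := key l h1 h4
  obtain ⟨k', rfl⟩ := key l' h2 h5
  simp only [sctr, Sum.inr.injEq, Sum.inl.injEq] at h3
  rw [h3]

theorem wR1 (hab : a + b ≤ 2 ^ L) (c : ℕ) (l : SL κ T m a b) (x : SB κ L m R) :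
    wR c l x ≤ bif sdr hab l x then 1 else c + 1 := by
  rcases l with ⟨i, e⟩ | (k | (u | (j | ⟨p, q⟩)))
  · rcases x with τ | π
    · simp only [wR, sdr]
      cases decide ((τ : ℕ) / 2 ^ (i : ℕ) % 2 = (e : ℕ)) <;> simp
    · simp [wR]
  · rcases x with τ | π
    · simp [wR, sdr]
    · simp [wR, sdr]
  · simp [wR]
  · simp [wR]
  · simp [wR]

theorem wR2 (hR : (m + 1) * 2 ^ L + R = 2 ^ κ) (hab : a + b ≤ 2 ^ L) (E : Fin a → Fin b → Bool)
    (c : ℕ) (y : SB κ L m R) (l l' : SL κ T m a b)
    (h1 : sdr hab l y = false) (h2 : sdr hab l' y = false) (h3 : sctr l = sctr l')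
    (h4 : 0 < wR c l (spt hR hab E l y)) (h5 : 0 < wR c l' (spt hR hab E l' y)) : l = l' := by
  have key : ∀ l : SL κ T m a b, 0 < wR c l (spt hR hab E l y) →
      (∃ i, l = .inl i) ∨ ∃ k, l = .inr (.inl k) := by
    rintro (i | (k | (u | (j | ⟨p, q⟩)))) g2
    · exact Or.inl ⟨i, rfl⟩
    · exact Or.inr ⟨k, rfl⟩
    · exact absurd g2 (by simp [wR])
    · exact absurd g2 (by simp [wR])
    · exact absurd g2 (by simp [wR])
  rcases key l h4 with ⟨i, rfl⟩ | ⟨k, rfl⟩ <;> rcases key l' h5 with ⟨i', rfl⟩ | ⟨k', rfl⟩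
  · simp only [sctr, Sum.inl.injEq] at h3
    rw [h3]
  · simp [sctr] at h3
  · simp [sctr] at h3
  · simp only [sctr, Sum.inr.injEq, Sum.inl.injEq] at h3
    rw [h3]

end Pool.Agent.Lib.Pa7c826q
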