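import Pool.Agent.Lib.Pa7c826q.XPure
import Pool.Agent.Lib.Pa7c826q.XCount
import Pool.Agent.Lib.Pa7c826q.SPair
import Pool.Agent.Lib.Pa7c826q.SNum

/-!
The number of independent sets of the system.

`num_final2`: `C ≥ B S (1 - N / F) ≥ B x (1 - e) ^ 2` and `C (1 - N W / F) ≤ B S` with
`e = 1 / (8 q)`, `N W / F ≤ e` and `N / F ≤ e` (`W ≥ 1`); then `(1 - e) ^ 2 ≥ 1 - 1 / q` and
`(1 + e) / (1 - e) ≤ 1 + 1 / q`. (See `num_final` in Lib/Pa7c826/BISTotal.lean.)

`sfinal`: `num_final2` with `C = cnt (XRel …)`, `B = 2 ^ (nb * D + Y)`, `S` the quotient of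
`snum`, `F = 2 ^ f`, `N = Fintype.card (SB κ L m R) = 2 * 2 ^ κ`, `W = 2 ^ (LL * (c + 1) + GG)`,
`q = 2 t + 1`, from `lower_x`, `upper_x`, `xpure_eq` (cast to `ℚ`).
-/

namespace Pool.Agent.Lib.Pa7c826q

open Pool.Agent.Lib.Pa7c826

theorem num_final2 {C S B x F W N q : ℚ} (hB0 : 0 < B) (hF : 0 < F) (hC0 : 0 ≤ C) (hx1 : 0 ≤ x)
    (hW : 1 ≤ W) (hN : 0 ≤ N) (hq : 1 ≤ q) (hlo : F * (B * S) ≤ F * C + N * (B * S))
    (hup : F * C ≤ F * (B * S) + N * (W * C)) (hf : N * W * (8 * q) ≤ F)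
    (hn1 : x * (1 - 1 / (8 * q)) ≤ S) (hn2 : S ≤ x * (1 + 1 / (8 * q))) :
    |C / B - x| ≤ x / q := by
  have q0 : (0 : ℚ) < q := by linarith
  set ε : ℚ := 1 / q with hε
  have hε0 : 0 < ε := by positivity
  have hε1 : ε ≤ 1 := by
    rw [hε, div_le_one q0]
    linarith
  have hεt : ε * q = 1 := by rw [hε]; field_simp
  have e4 : 1 / (8 * q) = ε / 8 := by rw [hε]; field_simp
  rw [e4] at hn2 hn1
  -- error factor
  set δ : ℚ := N * W / F with hδ
  have hδ0 : 0 ≤ δ := by positivity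
  have hδ1 : δ ≤ ε / 8 := by
    rw [hδ, div_le_iff₀ hF]
    have h1 : ε / 8 * (N * W * (8 * q)) ≤ ε / 8 * F :=
      mul_le_mul_of_nonneg_left hf (by positivity)
    have h2 : ε / 8 * (N * W * (8 * q)) = N * W := by
      calc ε / 8 * (N * W * (8 * q)) = ε * q * (N * W) := by ring
        _ = N * W := by rw [hεt, one_mul]
    linarith
  have hδF : δ * F = N * W := by rw [hδ, div_mul_cancel₀ _ hF.ne']
  have hNF : N ≤ δ * F := by
    rw [hδF]
    exact le_mul_of_one_le_right hN hW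
  have hS0 : 0 ≤ S := le_trans (mul_nonneg hx1 (by linarith)) hn1
  have g1 : B * S * (1 - δ) ≤ C := by
    have h1 : N * (B * S) ≤ δ * F * (B * S) :=
      mul_le_mul_of_nonneg_right hNF (by positivity)
    have h2 : F * (B * S * (1 - δ)) ≤ F * C := by linarith
    exact le_of_mul_le_mul_left h2 hF
  have g2 : C * (1 - δ) ≤ B * S := by
    have h1 : N * (W * C) = δ * F * C := by
      rw [hδF]; ring
    rw [h1] at hup
    have h2 : F * (C * (1 - δ)) ≤ F * (B * S) := by linarith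
    exact le_of_mul_le_mul_left h2 hF
  set y : ℚ := C / B with hy
  have hCy : C = y * B := by rw [hy, div_mul_cancel₀ _ hB0.ne']
  have hy0 : 0 ≤ y := by positivity
  have g1' : S * (1 - δ) ≤ y := by
    have : B * (S * (1 - δ)) ≤ B * y := by linarith
    exact le_of_mul_le_mul_left this hB0
  have g2' : y * (1 - δ) ≤ S := by
    have : B * (y * (1 - δ)) ≤ B * S := by
      calc B * (y * (1 - δ)) = C * (1 - δ) := by rw [hCy]; ring
        _ ≤ B * S := g2
    exact le_of_mul_le_mul_left this hB0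
  have e5 : x / q = x * ε := by rw [hε]; field_simp
  rw [e5, abs_le]
  constructor
  · have h1 : x * (1 - ε / 8) * (1 - δ) ≤ S * (1 - δ) :=
      mul_le_mul_of_nonneg_right hn1 (by linarith)
    have h2 : x * (1 - ε / 8) * (1 - ε / 8) ≤ x * (1 - ε / 8) * (1 - δ) :=
      mul_le_mul_of_nonneg_left (by linarith) (mul_nonneg hx1 (by linarith))
    have h3 : x * (1 - ε) ≤ x * ((1 - ε / 8) * (1 - ε / 8)) :=
      mul_le_mul_of_nonneg_left (by nlinarith) hx1
    linarith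
  · -- upper bound
    have h1 : y * (1 - ε / 8) ≤ x * (1 + ε / 8) := by
      have : y * (1 - ε / 8) ≤ y * (1 - δ) := mul_le_mul_of_nonneg_left (by linarith) hy0
      linarith
    have h2 : x * (1 + ε / 8) ≤ x * ((1 + ε) * (1 - ε / 8)) := by
      refine mul_le_mul_of_nonneg_left ?_ hx1
      nlinarith
    have h3 : y * (1 - ε / 8) ≤ (x * (1 + ε)) * (1 - ε / 8) := by linarith
    have h4 := le_of_mul_le_mul_right h3 (by linarith)
    linarith

theorem sfinal {κ L T m R a b t c f : ℕ} (hR : (m + 1) * 2 ^ L + R = 2 ^ κ)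
    (hab : a + b ≤ 2 ^ L) (E : Fin a → Fin b → Bool) (hL : 7 ≤ L) (hT : T + 1 = 4 * L)
    (hm : m = mS (4 * L)) (hc : c = 3 * ((m + 1) * 2 ^ L + κ + 2 * L + 20))
    (ht : a + b + 2 * t + 30 ≤ 2 ^ L) (hE : 1 ≤ cnt (fun x y => E x y = true))
    (hf : LL κ (T + 1) m a b * (c + 1) + GG κ (T + 1) + κ + 2 * t + 5 ≤ f) :
    |(cnt (XRel (spt (T := T) (R := R) hR hab E) (sdr hab) sctr c f) : ℚ) /
      2 ^ (2 * 2 ^ κ * (LL κ (T + 1) m a b * (c + 1) + (GG κ (T + 1) + f)) +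
        (2 ^ L - (a + b))) - cnt (fun x y => E x y = true)| ≤
      cnt (fun x y => E x y = true) / (2 * (t : ℚ) + 1) := by
  have hp : Pool.Agent.Lib.Pa7c826s.Pairing (spt (T := T) (R := R) hR hab E) (sdr hab) :=
    spair hR hab E
  have hlo := lower_x (c := c) (f := f) (ctr := sctr) hp
  have hup := upper_x (c := c) (f := f) (ctr := sctr) hp
  have hPT := xpure_eq (c := c) (f := f) (ctr := sctr) hp
  obtain ⟨hn1, hn2⟩ := snum (κ := κ) (R := R) hR hab E hL hT hm hc ht hE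
  rw [card_SL, card_SG, card_SB hR] at hup hPT
  rw [card_SB hR] at hlo
  set D : ℕ := LL κ (T + 1) m a b * (c + 1) + (GG κ (T + 1) + f) with hD
  set Y : ℕ := 2 ^ L - (a + b) with hY
  set Sg : ℚ := ∑ σ : SB κ L m R → Bool, wgt (spt (T := T) hR hab E) (sdr hab) sctr c σ with hSg
  have hBS : (2 : ℚ) ^ (2 * 2 ^ κ * D + Y) * (Sg / 2 ^ Y) =
      (xpure (spt (T := T) (R := R) hR hab E) (sdr hab) sctr c f : ℚ) := by
    rw [hPT, pow_add]
    field_simp
  refine num_final2 (F := 2 ^ f) (W := 2 ^ (LL κ (T + 1) m a b * (c + 1) + GG κ (T + 1)))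
    (N := 2 * 2 ^ κ) (S := Sg / 2 ^ Y) (by positivity) (by positivity) (by positivity)
    (by positivity) (one_le_pow₀ (by norm_num)) (by positivity) ?_ ?_ ?_ ?_ hn1 hn2
  · have : (0 : ℚ) ≤ t := by positivity
    linarith
  · rw [hBS]
    exact_mod_cast hlo
  · rw [hBS]
    exact_mod_cast hup
  · have h1 : 2 * t + 1 ≤ 2 ^ (2 * t + 1) := Nat.lt_two_pow_self.le
    have h2 : 2 * 2 ^ κ * 2 ^ (LL κ (T + 1) m a b * (c + 1) + GG κ (T + 1)) *
        (8 * (2 * t + 1)) ≤ 2 ^ f := by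
      calc 2 * 2 ^ κ * 2 ^ (LL κ (T + 1) m a b * (c + 1) + GG κ (T + 1)) * (8 * (2 * t + 1))
          ≤ 2 * 2 ^ κ * 2 ^ (LL κ (T + 1) m a b * (c + 1) + GG κ (T + 1)) *
            (8 * 2 ^ (2 * t + 1)) := by gcongr
        _ = 2 ^ (LL κ (T + 1) m a b * (c + 1) + GG κ (T + 1) + κ + 2 * t + 5) := by
            ring
        _ ≤ 2 ^ f := Nat.pow_le_pow_right (by norm_num) hf
    exact_mod_cast h2

end Pool.Agent.Lib.Pa7c826q
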