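import Pool.Agent.Lib.Pa7c826q.Defs

/-!
Cut links of sets of blocks of the system.

Proof. Let `H` be the set of the `τ` with `.inl τ ∈ A`, `P` the set of the `τ` with
`.inr ((eP hR).symm τ) ∈ A`. Then `|A| = |H| + |P|`, and `Fintype.card (SB κ L m R) = 2 * 2 ^ κ`.
The labels `.inl (i, e)`: for `τ ∈ H`, `flip i τ ∉ H` exactly one `e : Fin 2` has weight `c + 1`
(digit `i` of `τ` equal to `e` for `wL`, different from `e` for `wR`), so these labels contribute
at least `(c + 1) * min |H| (2 ^ κ - |H|)` by `cube` (Lib/Pa7c826s/Cube.lean). The labels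
`.inr (.inl k)`, `k : Fin (T + 1)`: every `τ` in the symmetric difference of `H` and `P`
contributes `1` for every `k`, so together `(T + 1) * (|H \ P| + |P \ H|)`. Let
`d = |H \ P| + |P \ H|`. If `|H| ≤ 2 ^ κ - |H|`: `|A| ≤ 2 |H| + d`, so
`2 cutX ≥ 2 (c + 1) |H| + 2 (T + 1) d ≥ (T + 1) |A|` since `T ≤ c`. Otherwise
`2 * 2 ^ κ - |A| ≤ 2 (2 ^ κ - |H|) + d` in the same way.
-/

namespace Pool.Agent.Lib.Pa7c826q

open Pool.Agent.Lib.Pa7c826
open Pool.Agent.Lib.Pa7c826s (Pairing cutX flip flipN flip_flip flip_digit flip_ne cube)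

variable {κ L T m R a b : ℕ}

namespace SCutAux

/-- hubs in `A` -/
def HS (A : Finset (SB κ L m R)) : Finset (Fin (2 ^ κ)) :=
  Finset.univ.filter fun τ => (.inl τ : SB κ L m R) ∈ A

/-- hubs whose pendant is in `A` -/
def PS (hR : (m + 1) * 2 ^ L + R = 2 ^ κ) (A : Finset (SB κ L m R)) : Finset (Fin (2 ^ κ)) :=
  Finset.univ.filter fun τ => (.inr ((eP hR).symm τ) : SB κ L m R) ∈ A

theorem mem_HS {A : Finset (SB κ L m R)} {τ : Fin (2 ^ κ)} :
    τ ∈ HS A ↔ (.inl τ : SB κ L m R) ∈ A := by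
  simp [HS]

theorem mem_PS (hR : (m + 1) * 2 ^ L + R = 2 ^ κ) {A : Finset (SB κ L m R)} {τ : Fin (2 ^ κ)} :
    τ ∈ PS hR A ↔ (.inr ((eP hR).symm τ) : SB κ L m R) ∈ A := by
  simp [PS]

theorem sumA (hR : (m + 1) * 2 ^ L + R = 2 ^ κ) (A : Finset (SB κ L m R))
    (f : SB κ L m R → ℕ) : ∑ x ∈ A, f x =
      ∑ τ ∈ HS A, f (.inl τ) + ∑ τ ∈ PS hR A, f (.inr ((eP hR).symm τ)) := by
  have h1 : ∑ x ∈ A, f x = ∑ x : SB κ L m R, if x ∈ A then f x else 0 := by
    simp
  rw [h1, Fintype.sum_sum_type]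
  congr 1
  · rw [HS, Finset.sum_filter]
  · rw [PS, Finset.sum_filter]
    exact (Equiv.sum_comp (eP hR).symm
      (fun π => if (.inr π : SB κ L m R) ∈ A then f (.inr π) else 0)).symm

theorem card_A (hR : (m + 1) * 2 ^ L + R = 2 ^ κ) (A : Finset (SB κ L m R)) :
    A.card = (HS A).card + (PS hR A).card := by
  have h := sumA hR A (fun _ => 1)
  simpa using h

theorem card_SB (hR : (m + 1) * 2 ^ L + R = 2 ^ κ) :
    Fintype.card (SB κ L m R) = 2 ^ κ + 2 ^ κ := by
  rw [Fintype.card_sum, Fintype.card_fin, Fintype.card_congr (eP hR), Fintype.card_fin]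

theorem hub (hR : (m + 1) * 2 ^ L + R = 2 ^ κ) (hab : a + b ≤ 2 ^ L)
    (E : Fin a → Fin b → Bool) {c : ℕ} (w : SL κ T m a b → SB κ L m R → ℕ)
    (hw : ∀ (i : Fin κ) (τ : Fin (2 ^ κ)),
      c + 1 ≤ w (.inl (i, 0)) (.inl τ) + w (.inl (i, 1)) (.inl τ))
    (A : Finset (SB κ L m R)) :
    (c + 1) * (∑ i : Fin κ, ∑ τ ∈ HS A, if flip i τ ∈ HS A then 0 else 1) ≤
      ∑ p : Fin κ × Fin 2, ∑ x ∈ A,
        if spt (T := T) hR hab E (.inl p) x ∈ A then 0 else w (.inl p) x := by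
  rw [Fintype.sum_prod_type, Finset.mul_sum]
  refine Finset.sum_le_sum fun i _ => ?_
  rw [Fin.sum_univ_two]
  have key : ∀ e : Fin 2, ∑ τ ∈ HS A, (if flip i τ ∈ HS A then 0 else w (.inl (i, e)) (.inl τ)) ≤
      ∑ x ∈ A, if spt (T := T) hR hab E (.inl (i, e)) x ∈ A then 0 else w (.inl (i, e)) x := by
    intro e
    rw [sumA hR A]
    refine le_trans (le_of_eq ?_) (Nat.le_add_right _ _)
    refine Finset.sum_congr rfl fun τ _ => ?_
    have ht : spt (T := T) hR hab E (.inl (i, e)) (.inl τ) = .inl (flip i τ) := rfl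
    rw [ht]
    by_cases h : flip i τ ∈ HS A
    · rw [if_pos h, if_pos (mem_HS.1 h)]
    · rw [if_neg h, if_neg (fun h' => h (mem_HS.2 h'))]
  refine le_trans ?_ (Nat.add_le_add (key 0) (key 1))
  rw [← Finset.sum_add_distrib, Finset.mul_sum]
  refine Finset.sum_le_sum fun τ _ => ?_
  by_cases h : flip i τ ∈ HS A
  · simp [h]
  · rw [if_neg h, if_neg h, if_neg h, mul_one]
    exact hw i τ

theorem lnk (hR : (m + 1) * 2 ^ L + R = 2 ^ κ) (hab : a + b ≤ 2 ^ L)
    (E : Fin a → Fin b → Bool) (w : SL κ T m a b → SB κ L m R → ℕ)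
    (k : Fin (T + 1)) (hw : ∀ x, w (.inr (.inl k)) x = 1) (A : Finset (SB κ L m R)) :
    (HS A \ PS hR A).card + (PS hR A \ HS A).card ≤
      ∑ x ∈ A, if spt (T := T) hR hab E (.inr (.inl k)) x ∈ A then 0
        else w (.inr (.inl k)) x := by
  rw [sumA hR A]
  refine Nat.add_le_add ?_ ?_
  · rw [Finset.card_eq_sum_ones]
    refine le_trans ?_ (Finset.sum_le_sum_of_subset
      (Finset.sdiff_subset (s := HS A) (t := PS hR A)))
    refine Finset.sum_le_sum fun τ hτ => ?_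
    rw [Finset.mem_sdiff] at hτ
    have ht : spt (T := T) hR hab E (.inr (.inl k)) (.inl τ) = .inr ((eP hR).symm τ) := rfl
    rw [ht, if_neg (fun h' => hτ.2 ((mem_PS hR).2 h')), hw]
  · rw [Finset.card_eq_sum_ones]
    refine le_trans ?_ (Finset.sum_le_sum_of_subset
      (Finset.sdiff_subset (s := PS hR A) (t := HS A)))
    refine Finset.sum_le_sum fun τ hτ => ?_
    rw [Finset.mem_sdiff] at hτ
    have ht : spt (T := T) hR hab E (.inr (.inl k)) (.inr ((eP hR).symm τ)) =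
        .inl (eP hR ((eP hR).symm τ)) := rfl
    rw [ht, Equiv.apply_symm_apply, if_neg (fun h' => hτ.2 (mem_HS.2 h')), hw]

theorem main (hR : (m + 1) * 2 ^ L + R = 2 ^ κ) (hab : a + b ≤ 2 ^ L)
    (E : Fin a → Fin b → Bool) {c : ℕ} (hc : T ≤ c) (w : SL κ T m a b → SB κ L m R → ℕ)
    (hw : ∀ (i : Fin κ) (τ : Fin (2 ^ κ)),
      c + 1 ≤ w (.inl (i, 0)) (.inl τ) + w (.inl (i, 1)) (.inl τ))
    (hw1 : ∀ (k : Fin (T + 1)) x, w (.inr (.inl k)) x = 1)
    (A : Finset (SB κ L m R)) :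
    (T + 1) * min A.card (Fintype.card (SB κ L m R) - A.card) ≤
      2 * cutX (spt (T := T) hR hab E) w A := by
  have hhub := hub (T := T) hR hab E w hw A
  have hlnk : (T + 1) * ((HS A \ PS hR A).card + (PS hR A \ HS A).card) ≤
      ∑ k : Fin (T + 1), ∑ x ∈ A, if spt (T := T) hR hab E (.inr (.inl k)) x ∈ A then 0
        else w (.inr (.inl k)) x := by
    have h := Finset.sum_le_sum fun (k : Fin (T + 1)) (_ : k ∈ Finset.univ) =>
      lnk hR hab E w k (hw1 k) A
    rw [Finset.sum_const, Finset.card_univ, Fintype.card_fin, smul_eq_mul] at h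
    exact h
  have hcut : (∑ p : Fin κ × Fin 2, ∑ x ∈ A,
        if spt (T := T) hR hab E (.inl p) x ∈ A then 0 else w (.inl p) x) +
      (∑ k : Fin (T + 1), ∑ x ∈ A, if spt (T := T) hR hab E (.inr (.inl k)) x ∈ A then 0
        else w (.inr (.inl k)) x) ≤ cutX (spt (T := T) hR hab E) w A := by
    unfold cutX
    rw [Fintype.sum_sum_type, Fintype.sum_sum_type]
    exact Nat.add_le_add_left (Nat.le_add_right _ _) _
  have hcube := cube (HS A)
  have hH : (HS A).card ≤ 2 ^ κ := by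
    have := Finset.card_le_univ (HS A)
    rwa [Fintype.card_fin] at this
  have hPH : (PS hR A).card ≤ (HS A).card + (PS hR A \ HS A).card := by
    have h1 := Finset.card_sdiff_add_card_inter (PS hR A) (HS A)
    have h2 : (PS hR A ∩ HS A).card ≤ (HS A).card := Finset.card_le_card Finset.inter_subset_right
    omega
  have hHP : (HS A).card ≤ (PS hR A).card + (HS A \ PS hR A).card := by
    have h1 := Finset.card_sdiff_add_card_inter (HS A) (PS hR A)
    have h2 : (HS A ∩ PS hR A).card ≤ (PS hR A).card := Finset.card_le_card Finset.inter_subset_right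
    omega
  rw [card_SB hR, card_A hR A]
  clear hw hw1
  generalize (∑ p : Fin κ × Fin 2, ∑ x ∈ A,
        if spt (T := T) hR hab E (.inl p) x ∈ A then 0 else w (.inl p) x) = X at *
  generalize (∑ k : Fin (T + 1), ∑ x ∈ A, if spt (T := T) hR hab E (.inr (.inl k)) x ∈ A then 0
        else w (.inr (.inl k)) x) = Y at *
  generalize (∑ i : Fin κ, ∑ τ ∈ HS A, if flip i τ ∈ HS A then 0 else 1) = e at *
  generalize cutX (spt (T := T) hR hab E) w A = Z at *
  generalize (HS A).card = h at *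
  generalize (PS hR A).card = p at *
  generalize (HS A \ PS hR A).card = d1 at *
  generalize (PS hR A \ HS A).card = d2 at *
  obtain ⟨n, hn⟩ : ∃ n, n = 2 ^ κ := ⟨_, rfl⟩
  rw [← hn] at hH hcube ⊢
  obtain ⟨t, rfl⟩ : ∃ t, c = T + t := ⟨c - T, by omega⟩
  have hTe : (T + 1) * e ≤ (T + t + 1) * e := Nat.mul_le_mul_right _ (by omega)
  rcases le_total h (n - h) with hc' | hc'
  · rw [min_eq_left hc'] at hcube
    have h1 : min (h + p) (n + n - (h + p)) ≤ 2 * e + 2 * (d1 + d2) :=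
      (min_le_left _ _).trans (by omega)
    calc (T + 1) * min (h + p) (n + n - (h + p)) ≤ (T + 1) * (2 * e + 2 * (d1 + d2)) :=
          Nat.mul_le_mul_left _ h1
      _ = 2 * ((T + 1) * e) + 2 * ((T + 1) * (d1 + d2)) := by ring
      _ ≤ 2 * Z := by omega
  · rw [min_eq_right hc'] at hcube
    have h1 : min (h + p) (n + n - (h + p)) ≤ 2 * e + 2 * (d1 + d2) :=
      (min_le_right _ _).trans (by omega)
    calc (T + 1) * min (h + p) (n + n - (h + p)) ≤ (T + 1) * (2 * e + 2 * (d1 + d2)) :=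
          Nat.mul_le_mul_left _ h1
      _ = 2 * ((T + 1) * e) + 2 * ((T + 1) * (d1 + d2)) := by ring
      _ ≤ 2 * Z := by omega

end SCutAux

open SCutAux

theorem scutL (hR : (m + 1) * 2 ^ L + R = 2 ^ κ) (hab : a + b ≤ 2 ^ L)
    (E : Fin a → Fin b → Bool) {c : ℕ} (hc : T ≤ c) (A : Finset (SB κ L m R)) :
    (T + 1) * min A.card (Fintype.card (SB κ L m R) - A.card) ≤
      2 * cutX (spt (T := T) hR hab E) (wL c) A := by
  refine SCutAux.main hR hab E hc (wL c) (fun i τ => ?_) (fun k x => ?_) A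
  · have h := Nat.mod_two_eq_zero_or_one ((τ : ℕ) / 2 ^ (i : ℕ))
    rcases h with h | h <;> simp [wL, h]
  · cases x <;> rfl

theorem scutR (hR : (m + 1) * 2 ^ L + R = 2 ^ κ) (hab : a + b ≤ 2 ^ L)
    (E : Fin a → Fin b → Bool) {c : ℕ} (hc : T ≤ c) (A : Finset (SB κ L m R)) :
    (T + 1) * min A.card (Fintype.card (SB κ L m R) - A.card) ≤
      2 * cutX (spt (T := T) hR hab E) (wR c) A := by
  refine SCutAux.main hR hab E hc (wR c) (fun i τ => ?_) (fun k x => ?_) A
  · have h := Nat.mod_two_eq_zero_or_one ((τ : ℕ) / 2 ^ (i : ℕ))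
    rcases h with h | h <;> simp [wR, h]
  · cases x <;> rfl

end Pool.Agent.Lib.Pa7c826q
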