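import Pool.Agent.Lib.Pa7c826q.WLow

/-!
The number of good states of the spins.

`s ↦ ({x | s (vL hab x) = true}, {y | s (vR hab y) = false})` together with the free values `s i`,
`a + b ≤ i`, is a bijection onto the independent pairs and the free values.
-/

namespace Pool.Agent.Lib.Pa7c826q

open Pool.Agent.Lib.Pa7c826

variable {L a b : ℕ}

namespace SGoodAux

open Classical in
/-- the state with the given values -/
noncomputable def st (P : Set (Fin a) × Set (Fin b)) (f : Fin (2 ^ L - (a + b)) → Bool)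
    (i : Fin (2 ^ L)) : Bool :=
  if h : (i : ℕ) < a then decide ((⟨i, h⟩ : Fin a) ∈ P.1)
  else if h' : (i : ℕ) < a + b then !decide ((⟨i - a, by omega⟩ : Fin b) ∈ P.2)
  else f ⟨i - (a + b), by omega⟩

open Classical in
theorem st_vL (hab : a + b ≤ 2 ^ L) (P : Set (Fin a) × Set (Fin b))
    (f : Fin (2 ^ L - (a + b)) → Bool) (x : Fin a) :
    st P f (vL hab x) = true ↔ x ∈ P.1 := by
  have h : ((vL hab x : Fin (2 ^ L)) : ℕ) < a := x.2
  unfold st
  rw [dif_pos h, decide_eq_true_iff]
  exact Iff.rfl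

open Classical in
theorem st_vR (hab : a + b ≤ 2 ^ L) (P : Set (Fin a) × Set (Fin b))
    (f : Fin (2 ^ L - (a + b)) → Bool) (y : Fin b) :
    st P f (vR hab y) = false ↔ y ∈ P.2 := by
  have h0 : ((vR hab y : Fin (2 ^ L)) : ℕ) = a + y := rfl
  have h : ¬ ((vR hab y : Fin (2 ^ L)) : ℕ) < a := by omega
  have h' : ((vR hab y : Fin (2 ^ L)) : ℕ) < a + b := by have := y.2; omega
  unfold st
  rw [dif_neg h, dif_pos h', Bool.not_eq_false', decide_eq_true_iff]
  have e : (⟨((vR hab y : Fin (2 ^ L)) : ℕ) - a, by have := y.2; omega⟩ : Fin b) = y := by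
    apply Fin.ext
    show ((vR hab y : Fin (2 ^ L)) : ℕ) - a = y
    omega
  rw [e]

/-- the free index -/
def fr (hab : a + b ≤ 2 ^ L) (k : Fin (2 ^ L - (a + b))) : Fin (2 ^ L) :=
  ⟨a + b + k, by have := k.2; omega⟩

theorem st_fr (hab : a + b ≤ 2 ^ L) (P : Set (Fin a) × Set (Fin b))
    (f : Fin (2 ^ L - (a + b)) → Bool) (k : Fin (2 ^ L - (a + b))) :
    st P f (fr hab k) = f k := by
  have h0 : ((fr hab k : Fin (2 ^ L)) : ℕ) = a + b + k := rfl
  have h : ¬ ((fr hab k : Fin (2 ^ L)) : ℕ) < a := by omega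
  have h' : ¬ ((fr hab k : Fin (2 ^ L)) : ℕ) < a + b := by omega
  unfold st
  rw [dif_neg h, dif_neg h']
  congr 1
  apply Fin.ext
  show ((fr hab k : Fin (2 ^ L)) : ℕ) - (a + b) = k
  omega

theorem cases (hab : a + b ≤ 2 ^ L) (i : Fin (2 ^ L)) :
    (∃ x, i = vL hab x) ∨ (∃ y, i = vR hab y) ∨ ∃ k, i = fr hab k := by
  by_cases h : (i : ℕ) < a
  · exact Or.inl ⟨⟨i, h⟩, rfl⟩
  · by_cases h' : (i : ℕ) < a + b
    · refine Or.inr (Or.inl ⟨⟨i - a, by omega⟩, ?_⟩)
      apply Fin.ext
      show (i : ℕ) = a + (i - a)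
      omega
    · refine Or.inr (Or.inr ⟨⟨i - (a + b), by omega⟩, ?_⟩)
      apply Fin.ext
      show (i : ℕ) = a + b + (i - (a + b))
      omega

theorem state_ext (hab : a + b ≤ 2 ^ L) {s t : Fin (2 ^ L) → Bool}
    (hL : ∀ x, s (vL hab x) = true ↔ t (vL hab x) = true)
    (hR : ∀ y, s (vR hab y) = false ↔ t (vR hab y) = false)
    (hF : ∀ k, s (fr hab k) = t (fr hab k)) : s = t := by
  funext i
  rcases cases hab i with ⟨x, rfl⟩ | ⟨y, rfl⟩ | ⟨k, rfl⟩
  · exact Bool.eq_iff_iff.2 (hL x)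
  · have := hR y
    revert this
    cases s (vR hab y) <;> cases t (vR hab y) <;> simp
  · exact hF k

end SGoodAux

open SGoodAux in
theorem card_good (hab : a + b ≤ 2 ^ L) (E : Fin a → Fin b → Bool) :
    Nat.card {s // GoodS hab E s} = cnt (fun x y => E x y = true) * 2 ^ (2 ^ L - (a + b)) := by
  have e : {s // GoodS hab E s} ≃
      {P : Set (Fin a) × Set (Fin b) // ∀ x ∈ P.1, ∀ y ∈ P.2, ¬ E x y = true} ×
        (Fin (2 ^ L - (a + b)) → Bool) :=
    { toFun := fun s => (⟨({x | s.1 (vL hab x) = true}, {y | s.1 (vR hab y) = false}), by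
        intro x hx y hy hE
        have h1 : s.1 (vR hab y) = true := s.2 x y hE hx
        have h2 : s.1 (vR hab y) = false := hy
        rw [h1] at h2
        exact absurd h2 (by decide)⟩, fun k => s.1 (fr hab k))
      invFun := fun q => ⟨st q.1.1 q.2, by
        intro x y hE hx
        by_contra hy
        have hy' : st q.1.1 q.2 (vR hab y) = false := by simpa using hy
        exact q.1.2 x ((st_vL hab _ _ x).1 hx) y ((st_vR hab _ _ y).1 hy') hE⟩
      left_inv := fun s => Subtype.ext (state_ext hab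
        (fun x => (st_vL hab _ _ x).trans Iff.rfl)
        (fun y => (st_vR hab _ _ y).trans Iff.rfl)
        (fun k => st_fr hab _ _ k))
      right_inv := fun q => by
        refine Prod.ext (Subtype.ext (Prod.ext ?_ ?_)) ?_
        · ext x
          exact st_vL hab _ _ x
        · ext y
          exact st_vR hab _ _ y
        · funext k
          exact st_fr hab _ _ k }
  rw [Nat.card_congr e, Nat.card_prod]
  congr 1
  rw [Nat.card_fun]
  simp

end Pool.Agent.Lib.Pa7c826q
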