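import Pool.Agent.Lib.Pa7c826q.SPair

/-!
The block graph at the level of vertex numbers.

Adapt Lib/Pa7c826s/TIdx.lean (`ptN_eq`, `drN_eq`, `eTS_inl`, `eTV_div`, `eTV_mod`, `F5_iff`).
Values of the numberings: `eSB (.inl τ) = τ`, `eSB (.inr (.inl (k, i))) = 2 ^ κ + (i + 2 ^ L * k)`,
`eSB (.inr (.inr r)) = 2 ^ κ + ((m + 1) * 2 ^ L + r)`, `(eP hR π : ℕ) = ePB L m R π`;
`eSL (.inl (i, e)) = e + 2 * i`, `eSL (.inr (.inl k)) = κ * 2 + k`,
`eSL (.inr (.inr (.inl 0))) = κ * 2 + (T + 1)`,
`eSL (.inr (.inr (.inr (.inl j)))) = κ * 2 + (T + 1 + (1 + j))`,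
`eSL (.inr (.inr (.inr (.inr (x, y))))) = κ * 2 + (T + 1 + (1 + (m + (y + b * x))))`; the classes
have the numbers of their labels, `ctrN κ (T + 1) (eSL l) = eSG (sctr l)`; a slot
`.inr (.inl γ)` has the number `LL … * (c + 1) + eSG γ`.
Then `ptN … (eSL l) (eSB x) = eSB (spt hR hab E l x)`, and if `spt hR hab E l x ≠ x` then
`drN … (eSL l) (eSB x) = sdr hab l x`.
-/

namespace Pool.Agent.Lib.Pa7c826q

open Pool.Agent.Lib.Pa7c826
open Pool.Agent.Lib.Pa7c826s (flip flipN flipN_lt)

namespace SIdxAux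

variable {κ L T m R a b c f : ℕ}

theorem ePB_inl (k : Fin (m + 1)) (i : Fin (2 ^ L)) :
    (ePB L m R (.inl (k, i)) : ℕ) = i + 2 ^ L * k := by
  simp [ePB, finProdFinEquiv]

theorem ePB_inr (r : Fin R) : (ePB L m R (.inr r) : ℕ) = (m + 1) * 2 ^ L + r := by
  simp [ePB]

theorem eP_val (hR : (m + 1) * 2 ^ L + R = 2 ^ κ) (π : PB L m R) :
    (eP hR π : ℕ) = ePB L m R π := rfl

theorem eSB_inl (τ : Fin (2 ^ κ)) : (eSB κ L m R (.inl τ) : ℕ) = τ := by
  simp [eSB]

theorem eSB_inr (π : PB L m R) : (eSB κ L m R (.inr π) : ℕ) = 2 ^ κ + ePB L m R π := by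
  simp [eSB]

theorem eSB_inj (r r' : SB κ L m R) : ((eSB κ L m R r : ℕ) = eSB κ L m R r') ↔ r = r' := by
  rw [← Fin.ext_iff, (eSB κ L m R).injective.eq_iff]

theorem eSL_cube (i : Fin κ) (e : Fin 2) :
    (eSL κ T m a b (.inl (i, e)) : ℕ) = e + 2 * i := by
  simp [eSL, finProdFinEquiv]

theorem eSL_hub (k : Fin (T + 1)) : (eSL κ T m a b (.inr (.inl k)) : ℕ) = κ * 2 + k := by
  simp [eSL]

theorem eSL_fol (k : Fin 1) :
    (eSL κ T m a b (.inr (.inr (.inl k))) : ℕ) = κ * 2 + (T + 1) := by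
  have : k = 0 := Subsingleton.elim _ _
  subst this
  simp [eSL]

theorem eSL_sat (j : Fin m) :
    (eSL κ T m a b (.inr (.inr (.inr (.inl j)))) : ℕ) = κ * 2 + (T + 1 + (1 + j)) := by
  simp [eSL]

theorem eSL_edge (x : Fin a) (y : Fin b) :
    (eSL κ T m a b (.inr (.inr (.inr (.inr (x, y))))) : ℕ) =
      κ * 2 + (T + 1 + (1 + (m + (y + b * x)))) := by
  simp [eSL, finProdFinEquiv]

theorem eSG_cube (i : Fin κ) (e : Fin 2) : (eSG κ T (.inl (i, e)) : ℕ) = e + 2 * i := by
  simp [eSG, finProdFinEquiv]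

theorem eSG_hub (k : Fin (T + 1)) : (eSG κ T (.inr (.inl k)) : ℕ) = κ * 2 + k := by
  simp [eSG]

theorem eSG_fol (k : Fin 1) : (eSG κ T (.inr (.inr k)) : ℕ) = κ * 2 + (T + 1) := by
  have : k = 0 := Subsingleton.elim _ _
  subst this
  simp [eSG]

theorem ctrN_eq (l : SL κ T m a b) :
    ctrN κ (T + 1) (eSL κ T m a b l) = eSG κ T (sctr l) := by
  unfold ctrN
  rcases l with ⟨i, e⟩ | k | k | j | ⟨x, y⟩
  · rw [eSL_cube]
    have hi := i.2
    have he := e.2
    rw [if_pos (by rw [decide_eq_true_eq]; omega)]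
    exact (eSG_cube i e).symm
  · rw [eSL_hub]
    have hk := k.2
    rw [if_pos (by rw [decide_eq_true_eq]; omega)]
    exact (eSG_hub k).symm
  · rw [eSL_fol, if_pos (by simp)]
    exact (eSG_fol k).symm
  · rw [eSL_sat, if_neg (by rw [decide_eq_true_eq]; omega)]
    have : sctr (κ := κ) (T := T) (m := m) (a := a) (b := b) (.inr (.inr (.inr (.inl j))))
      = .inr (.inl 0) := rfl
    rw [this, eSG_hub]
    simp
  · rw [eSL_edge, if_neg (by rw [decide_eq_true_eq]; omega)]
    have : sctr (κ := κ) (T := T) (m := m) (a := a) (b := b) (.inr (.inr (.inr (.inr (x, y)))))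
      = .inr (.inl 0) := rfl
    rw [this, eSG_hub]
    simp

theorem ePB_lt_iff (π : PB L m R) :
    (ePB L m R π : ℕ) < (m + 1) * 2 ^ L ↔ ∃ u, π = .inl u := by
  rcases π with ⟨k, i⟩ | r
  · rw [ePB_inl]
    have hk := k.2
    have hi := i.2
    refine ⟨fun _ => ⟨_, rfl⟩, fun _ => ?_⟩
    calc (i : ℕ) + 2 ^ L * k < 2 ^ L + 2 ^ L * k := by omega
      _ = 2 ^ L * (k + 1) := by ring
      _ ≤ 2 ^ L * (m + 1) := Nat.mul_le_mul_left _ hk
      _ = _ := by ring
  · rw [ePB_inr]
    constructor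
    · intro h; omega
    · rintro ⟨u, hu⟩
      exact absurd hu (by simp)

theorem eSB_spin (i : Fin (2 ^ L)) :
    (eSB κ L m R (spin i) : ℕ) = 2 ^ κ + i := by
  unfold spin
  rw [eSB_inr, ePB_inl]
  simp

theorem ptN_eq (hR : (m + 1) * 2 ^ L + R = 2 ^ κ) (hab : a + b ≤ 2 ^ L)
    (E : Fin a → Fin b → Bool) (F : ℕ → ℕ → Bool) (hF : ∀ (x : Fin a) (y : Fin b), F x y = E x y)
    (l : SL κ T m a b) (x : SB κ L m R) :
    ptN κ (2 ^ κ) (2 ^ L) (T + 1) m ((m + 1) * 2 ^ L) a b F (eSL κ T m a b l) (eSB κ L m R x) =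
      eSB κ L m R (spt hR hab E l x) := by
  unfold ptN
  rcases l with ⟨i, e⟩ | k | k | j | ⟨y, z⟩
  · -- cube
    rw [eSL_cube]
    have hi := i.2
    have he := e.2
    rw [if_pos (by rw [decide_eq_true_eq]; omega)]
    have h1 : ((e : ℕ) + 2 * i) / 2 = i := by omega
    rw [h1]
    rcases x with τ | π
    · have h2 : spt (T := T) (a := a) (b := b) hR hab E (.inl (i, e)) (.inl τ) = (.inl (flip i τ) : SB κ L m R) := rfl
      rw [h2, eSB_inl, eSB_inl, if_pos (by simp)]
      rfl
    · have h2 : spt (T := T) (a := a) (b := b) hR hab E (.inl (i, e)) (.inr π) = (.inr π : SB κ L m R) := rfl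
      rw [h2, eSB_inr, if_neg (by simp)]
  · -- hub to pendant
    rw [eSL_hub]
    have hk := k.2
    rw [if_neg (by rw [decide_eq_true_eq]; omega), if_pos (by rw [decide_eq_true_eq]; omega)]
    rcases x with τ | π
    · have h2 : spt (T := T) (a := a) (b := b) hR hab E (.inr (.inl k)) (.inl τ) =
          (.inr ((eP hR).symm τ) : SB κ L m R) := rfl
      have h3 : (ePB L m R ((eP hR).symm τ) : ℕ) = τ := by
        rw [← eP_val hR, Equiv.apply_symm_apply]
      rw [h2, eSB_inl, eSB_inr, if_pos (by simp), h3]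
    · have h2 : spt (T := T) (a := a) (b := b) hR hab E (.inr (.inl k)) (.inr π) = (.inl (eP hR π) : SB κ L m R) := rfl
      rw [h2, eSB_inl, eSB_inr, if_neg (by simp), eP_val]
      omega
  · -- followers
    rw [eSL_fol, if_neg (by simp), if_neg (by simp), if_pos (by simp)]
    rcases x with τ | π
    · rw [eSB_inl, if_pos (by simp)]
      have h3 : (ePB L m R ((eP hR).symm τ) : ℕ) = τ := by
        rw [← eP_val hR, Equiv.apply_symm_apply]
      rcases h4 : (eP hR).symm τ with u | r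
      · have h2 : spt (a := a) (b := b) (T := T) hR hab E (.inr (.inr (.inl k))) (.inl τ) =
            (.inl τ : SB κ L m R) := by
          simp [spt, h4]
        have h5 : (τ : ℕ) < (m + 1) * 2 ^ L := by
          rw [← h3, h4]
          exact (ePB_lt_iff _).2 ⟨u, rfl⟩
        rw [h2, eSB_inl, if_pos (by simpa using h5)]
      · have h2 : spt (a := a) (b := b) (T := T) hR hab E (.inr (.inr (.inl k))) (.inl τ) =
            (.inr (.inr r) : SB κ L m R) := by
          simp [spt, h4]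
        have h5 : ¬ (τ : ℕ) < (m + 1) * 2 ^ L := by
          rw [← h3, h4, ePB_lt_iff]
          rintro ⟨u, hu⟩
          exact absurd hu (by simp)
        rw [h4] at h3
        rw [h2, eSB_inr, if_neg (by simpa using h5), h3]
    · rw [eSB_inr, if_neg (by simp)]
      have h1 : 2 ^ κ + (ePB L m R π : ℕ) - 2 ^ κ = ePB L m R π := by omega
      rw [h1]
      rcases π with u | r
      · have h2 : spt (T := T) (a := a) (b := b) hR hab E (.inr (.inr (.inl k))) (.inr (.inl u)) =
            (.inr (.inl u) : SB κ L m R) := rfl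
        have h5 := (ePB_lt_iff (L := L) (m := m) (R := R) (.inl u)).2 ⟨u, rfl⟩
        rw [h2, eSB_inr, if_pos (by simpa using h5)]
      · have h2 : spt (T := T) (a := a) (b := b) hR hab E (.inr (.inr (.inl k))) (.inr (.inr r)) =
            (.inl (eP hR (.inr r)) : SB κ L m R) := rfl
        have h5 : ¬ (ePB L m R (.inr r) : ℕ) < (m + 1) * 2 ^ L := by
          rw [ePB_lt_iff]
          rintro ⟨u, hu⟩
          exact absurd hu (by simp)
        rw [h2, eSB_inl, if_neg (by simpa using h5), eP_val]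
  · -- satellites
    rw [eSL_sat]
    have hj := j.2
    rw [if_neg (by rw [decide_eq_true_eq]; omega), if_neg (by rw [decide_eq_true_eq]; omega),
      if_neg (by rw [decide_eq_true_eq]; omega), if_pos (by rw [decide_eq_true_eq]; omega)]
    have hl : κ * 2 + (T + 1 + (1 + (j : ℕ))) - (κ * 2 + (T + 1 + 1)) + 1 = j + 1 := by omega
    rw [hl]
    rcases x with τ | π
    · have h2 : spt (T := T) (a := a) (b := b) hR hab E (.inr (.inr (.inr (.inl j)))) (.inl τ) =
          (.inl τ : SB κ L m R) := rfl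
      rw [h2, eSB_inl, if_pos (by simp)]
    · rw [eSB_inr, if_neg (by simp)]
      have h1 : 2 ^ κ + (ePB L m R π : ℕ) - 2 ^ κ = ePB L m R π := by omega
      rw [h1]
      have hW : 0 < 2 ^ L := by positivity
      rcases π with ⟨k, i⟩ | r
      · have hi := i.2
        have h2 : spt (T := T) (a := a) (b := b) hR hab E (.inr (.inr (.inr (.inl j)))) (.inr (.inl (k, i))) =
            (.inr (.inl (Equiv.swap 0 j.succ k, i)) : SB κ L m R) := rfl
        rw [h2, eSB_inr, ePB_inl, ePB_inl]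
        have hdiv : ((i : ℕ) + 2 ^ L * k) / 2 ^ L = k := by
          rw [Nat.add_mul_div_left _ _ hW, Nat.div_eq_of_lt hi, Nat.zero_add]
        by_cases hk0 : k = 0
        · subst hk0
          have h3 : (i : ℕ) + 2 ^ L * ((0 : Fin (m + 1)) : ℕ) < 2 ^ L := by simpa using hi
          rw [if_pos (by simpa using h3), Equiv.swap_apply_left]
          simp
          ring
        · have hk0' : 1 ≤ (k : ℕ) := Nat.pos_of_ne_zero (fun h => hk0 (Fin.ext h))
          have h3 : ¬ ((i : ℕ) + 2 ^ L * k < 2 ^ L) := by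
            have : 2 ^ L * 1 ≤ 2 ^ L * (k : ℕ) := Nat.mul_le_mul_left _ hk0'
            omega
          rw [if_neg (by simpa using h3), hdiv]
          by_cases hkj : k = j.succ
          · subst hkj
            rw [if_pos (by simp), Equiv.swap_apply_right]
            simp
            omega
          · have hkj' : (k : ℕ) ≠ j + 1 := fun h => hkj (Fin.ext (by simpa using h))
            rw [if_neg (by simpa using hkj'), Equiv.swap_apply_of_ne_of_ne hk0 hkj]
      · have h2 : spt (T := T) (a := a) (b := b) hR hab E (.inr (.inr (.inr (.inl j)))) (.inr (.inr r)) =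
            (.inr (.inr r) : SB κ L m R) := rfl
        rw [h2, eSB_inr, ePB_inr]
        have h3 : 2 ^ L ≤ (m + 1) * 2 ^ L := Nat.le_mul_of_pos_left _ (Nat.succ_pos m)
        have h4 : m + 1 ≤ ((m + 1) * 2 ^ L + (r : ℕ)) / 2 ^ L := by
          rw [Nat.le_div_iff_mul_le hW]
          omega
        rw [if_neg (by simp; omega), if_neg (by simp; omega)]
  · -- edges
    rw [eSL_edge]
    have hy := y.2
    have hz := z.2
    rw [if_neg (by rw [decide_eq_true_eq]; omega), if_neg (by rw [decide_eq_true_eq]; omega),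
      if_neg (by rw [decide_eq_true_eq]; omega), if_neg (by rw [decide_eq_true_eq]; omega)]
    have hl : κ * 2 + (T + 1 + (1 + (m + ((z : ℕ) + b * y)))) - (κ * 2 + (T + 1 + (1 + m)))
        = z + b * y := by omega
    have hb : 0 < b := by omega
    have hdiv : ((z : ℕ) + b * y) / b = y := by
      rw [Nat.add_mul_div_left _ _ hb, Nat.div_eq_of_lt hz, Nat.zero_add]
    have hmod : ((z : ℕ) + b * y) % b = z := by
      rw [Nat.add_mul_mod_self_left, Nat.mod_eq_of_lt hz]
    rw [hl, hdiv, hmod, hF]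
    have h2 : spt (T := T) hR hab E (.inr (.inr (.inr (.inr (y, z))))) x =
        if E y z = true then Equiv.swap (spin (vL hab y)) (spin (vR hab z)) x else x := by
      rcases x with τ | ⟨k, i⟩ | r <;> rfl
    rw [h2]
    have hL' : (eSB κ L m R (spin (vL hab y)) : ℕ) = 2 ^ κ + y := eSB_spin _
    have hR' : (eSB κ L m R (spin (vR hab z)) : ℕ) = 2 ^ κ + (a + z) := eSB_spin _
    rw [← hL', ← hR']
    simp only [decide_eq_true_eq, eSB_inj, Equiv.swap_apply_def]
    split_ifs <;> rfl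

theorem drN_eq (hR : (m + 1) * 2 ^ L + R = 2 ^ κ) (hab : a + b ≤ 2 ^ L)
    (E : Fin a → Fin b → Bool) (l : SL κ T m a b) (x : SB κ L m R)
    (hx : spt hR hab E l x ≠ x) :
    drN κ (2 ^ κ) (2 ^ L) (T + 1) m b (eSL κ T m a b l) (eSB κ L m R x) = sdr hab l x := by
  unfold drN
  rcases l with ⟨i, e⟩ | k | k | j | ⟨y, z⟩
  · rw [eSL_cube]
    have hi := i.2
    have he := e.2
    rw [if_pos (by rw [decide_eq_true_eq]; omega)]
    have h1 : ((e : ℕ) + 2 * i) / 2 = i := by omega
    have h1' : ((e : ℕ) + 2 * i) % 2 = e := by omega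
    rw [h1, h1']
    rcases x with τ | π
    · rw [eSB_inl]
      rfl
    · exact absurd rfl hx
  · rw [eSL_hub]
    have hk := k.2
    rw [if_neg (by rw [decide_eq_true_eq]; omega), if_pos (by rw [decide_eq_true_eq]; omega)]
    rcases x with τ | π
    · rw [eSB_inl]
      have : sdr (κ := κ) (L := L) (T := T) (m := m) (R := R) hab (.inr (.inl k)) (.inl τ)
        = true := rfl
      rw [this]
      simp
    · rw [eSB_inr]
      have : sdr (κ := κ) (L := L) (T := T) (m := m) (R := R) hab (.inr (.inl k)) (.inr π)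
        = false := rfl
      rw [this]
      simp
  · rw [eSL_fol, if_neg (by simp), if_neg (by simp), if_pos (by simp)]
    rcases x with τ | π
    · rw [eSB_inl]
      have : sdr (κ := κ) (L := L) (T := T) (m := m) (R := R) hab (.inr (.inr (.inl k))) (.inl τ)
        = false := rfl
      rw [this]
      simp
    · rw [eSB_inr]
      have : sdr (κ := κ) (L := L) (T := T) (m := m) (R := R) hab (.inr (.inr (.inl k))) (.inr π)
        = true := rfl
      rw [this]
      simp
  · rw [eSL_sat]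
    have hj := j.2
    rw [if_neg (by rw [decide_eq_true_eq]; omega), if_neg (by rw [decide_eq_true_eq]; omega),
      if_neg (by rw [decide_eq_true_eq]; omega), if_pos (by rw [decide_eq_true_eq]; omega)]
    rcases x with τ | ⟨k, i⟩ | r
    · exact absurd rfl hx
    · rw [eSB_inr, ePB_inl]
      have hi := i.2
      have h2 : sdr (κ := κ) (L := L) (T := T) (m := m) (R := R) hab
          (.inr (.inr (.inr (.inl j)))) (.inr (.inl (k, i))) = decide (k ≠ 0) := rfl
      rw [h2]
      by_cases hk0 : k = 0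
      · subst hk0
        simp
      · have hk0' : 1 ≤ (k : ℕ) := Nat.pos_of_ne_zero (fun h => hk0 (Fin.ext h))
        have h3 : ¬ (2 ^ κ + ((i : ℕ) + 2 ^ L * k) < 2 ^ κ + 2 ^ L) := by
          have : 2 ^ L * 1 ≤ 2 ^ L * (k : ℕ) := Nat.mul_le_mul_left _ hk0'
          omega
        rw [decide_eq_false h3, decide_eq_true hk0]
        rfl
    · exact absurd rfl hx
  · rw [eSL_edge]
    have hy := y.2
    have hz := z.2
    rw [if_neg (by rw [decide_eq_true_eq]; omega), if_neg (by rw [decide_eq_true_eq]; omega),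
      if_neg (by rw [decide_eq_true_eq]; omega), if_neg (by rw [decide_eq_true_eq]; omega)]
    have hl : κ * 2 + (T + 1 + (1 + (m + ((z : ℕ) + b * y)))) - (κ * 2 + (T + 1 + (1 + m)))
        = z + b * y := by omega
    have hb : 0 < b := by omega
    have hdiv : ((z : ℕ) + b * y) / b = y := by
      rw [Nat.add_mul_div_left _ _ hb, Nat.div_eq_of_lt hz, Nat.zero_add]
    rw [hl, hdiv]
    have hL' : (eSB κ L m R (spin (vL hab y)) : ℕ) = 2 ^ κ + y := eSB_spin _
    rw [← hL']
    simp only [eSB_inj]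
    rcases x with τ | ⟨k, i⟩ | r <;> rfl

theorem eSS_inl (l : SL κ T m a b) (j : Fin (c + 1)) :
    (eSS κ T m a b c f (.inl (l, j)) : ℕ) = j + (c + 1) * eSL κ T m a b l := by
  simp [eSS, finProdFinEquiv]

theorem eSS_ctr (γ : SG κ T) :
    (eSS κ T m a b c f (.inr (.inl γ)) : ℕ) = LL κ (T + 1) m a b * (c + 1) + eSG κ T γ := by
  simp [eSS]

theorem eSS_inr (s : SG κ T ⊕ Fin f) :
    LL κ (T + 1) m a b * (c + 1) ≤ (eSS κ T m a b c f (.inr s) : ℕ) := by
  simp [eSS]

theorem eSV_div (v : Vx (SL κ T m a b) (SG κ T) (SB κ L m R) c f) :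
    (eSV κ L T m R a b c f v : ℕ) / (LL κ (T + 1) m a b * (c + 1) + (GG κ (T + 1) + f)) =
      eSB κ L m R v.1 := by
  have h : (eSV κ L T m R a b c f v : ℕ) = eSS κ T m a b c f v.2 +
      (LL κ (T + 1) m a b * (c + 1) + (GG κ (T + 1) + f)) * eSB κ L m R v.1 := rfl
  have h2 := (eSS κ T m a b c f v.2).2
  rw [h, Nat.add_mul_div_left _ _ (lt_of_le_of_lt (Nat.zero_le _) h2), Nat.div_eq_of_lt h2,
    Nat.zero_add]

theorem eSV_mod (v : Vx (SL κ T m a b) (SG κ T) (SB κ L m R) c f) :
    (eSV κ L T m R a b c f v : ℕ) % (LL κ (T + 1) m a b * (c + 1) + (GG κ (T + 1) + f)) =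
      eSS κ T m a b c f v.2 := by
  have h : (eSV κ L T m R a b c f v : ℕ) = eSS κ T m a b c f v.2 +
      (LL κ (T + 1) m a b * (c + 1) + (GG κ (T + 1) + f)) * eSB κ L m R v.1 := rfl
  have h2 := (eSS κ T m a b c f v.2).2
  rw [h, Nat.add_mul_mod_self_left, Nat.mod_eq_of_lt h2]

end SIdxAux

open SIdxAux

theorem F6_iff {κ L T m R a b c f : ℕ} (hR : (m + 1) * 2 ^ L + R = 2 ^ κ) (hab : a + b ≤ 2 ^ L)
    (E : Fin a → Fin b → Bool) (F : ℕ → ℕ → Bool) (hF : ∀ (x : Fin a) (y : Fin b), F x y = E x y)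
    (u v : Vx (SL κ T m a b) (SG κ T) (SB κ L m R) c f) :
    XRel (spt hR hab E) (sdr hab) sctr c f u v ↔
      F6 κ (2 ^ κ) (2 ^ L) (T + 1) m ((m + 1) * 2 ^ L) a b (c + 1)
        (LL κ (T + 1) m a b * (c + 1) + (GG κ (T + 1) + f)) (LL κ (T + 1) m a b * (c + 1)) F
        (eSV κ L T m R a b c f u) (eSV κ L T m R a b c f v) = true := by
  unfold F6
  simp only [eSV_div, eSV_mod]
  obtain ⟨V, S⟩ := v
  obtain ⟨U, S'⟩ := u
  have hS : ∀ x y : Slt (SL κ T m a b) (SG κ T) c f,
      ((eSS κ T m a b c f x : ℕ) = eSS κ T m a b c f y) ↔ x = y := by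
    intro x y
    rw [← Fin.ext_iff, (eSS κ T m a b c f).injective.eq_iff]
  rcases S with ⟨l, j⟩ | s
  · have hlt : (eSS κ T m a b c f (.inl (l, j)) : ℕ) < LL κ (T + 1) m a b * (c + 1) := by
      rw [eSS_inl]
      have h1 := (eSL κ T m a b l).2
      have h2 := j.2
      calc (j : ℕ) + (c + 1) * eSL κ T m a b l < (c + 1) + (c + 1) * eSL κ T m a b l := by
            omega
        _ = (c + 1) * (eSL κ T m a b l + 1) := by ring
        _ ≤ (c + 1) * (LL κ (T + 1) m a b) := Nat.mul_le_mul_left _ h1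
        _ = _ := by ring
    rw [if_pos (by simpa using hlt)]
    have hg : (eSS κ T m a b c f (.inl (l, j)) : ℕ) / (c + 1) = eSL κ T m a b l := by
      rw [eSS_inl, Nat.add_mul_div_left _ _ (by omega), Nat.div_eq_of_lt j.2, Nat.zero_add]
    simp only [hg, ptN_eq hR hab E F hF, ctrN_eq]
    unfold F6g
    rw [← eSS_ctr (m := m) (a := a) (b := b) (c := c) (f := f)]
    simp only [eSB_inj, hS]
    unfold XRel
    simp only [decide_eq_true_eq]
    by_cases hp : spt hR hab E l V = V
    · rw [if_pos hp]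
      simp [hp]
    · rw [if_neg hp, drN_eq hR hab E l V hp]
      cases hd : sdr hab l V
      · simp [hp]
      · simp [hp]
  · have hlt : ¬ ((eSS κ T m a b c f (.inr s) : ℕ) < LL κ (T + 1) m a b * (c + 1)) := by
      have := eSS_inr (m := m) (a := a) (b := b) (c := c) (f := f) s
      omega
    rw [if_neg (by simpa using hlt)]
    simp only [decide_eq_true_eq, eSB_inj]
    rfl

end Pool.Agent.Lib.Pa7c826q
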