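import Pool.Agent.Lib.Pa7c826q.SSize
import Pool.Agent.Lib.Pa7c826t.EPoly
import Pool.Agent.Lib.P8e91ed.PolyBin

/-!
The sizes are computable in polynomial time.

Adapt Lib/Pa7c826s/TPolyA.lean. `poly_Lq`: `n_log`. `2 ^ Lq` is at most
`2 ^ (q + 1) * (a + b + 2 t + 30)`: `n_pow` of Lib/P8e91ed/PolyBin.lean with this bound (see
`two_Lx` there). `mS (Nq L)`: `nSum` (Lib/P8e91ed/PolyBin.lean) of the terms
`N * 2 ^ (N - 1 - k) / (k + 1)`, `2 ^ (N - 1 - k) ≤ 2 ^ (4 L) = (2 ^ L) ^ 4` by `n_pow`.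
`Mq`: division by the constant `min p (q - p)`. `2 ^ kq ≤ 2 ^ ((q - p) (16 L + 1))
= (2 ^ L) ^ (16 (q - p)) * 2 ^ (q - p)` and `Dq ≤ (2 ^ L) ^ (16 p) * 2 ^ p`: `n_pow` with these
bounds (`Mq p q L ≤ 16 L + 1`, since the divisor is at least `1`).
-/

namespace Pool.Agent.Lib.Pa7c826q

open Pool.Agent.Lib.PolyTime Pool.Agent.Lib.Pa7c826

variable {α : Type} {D : α → Prop} {ctx : List (α → List Bool)} {a b t : α → ℕ} {p q : ℕ}

theorem poly_Lq (q : ℕ) (ha : PolyN D ctx a) (hb : PolyN D ctx b) (ht : PolyN D ctx t) :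
    PolyN D ctx (fun x => Lq q (a x) (b x) (t x)) :=
  ((Pool.Agent.Lib.P8e91ed.PT.n_log
    (((ha.add hb).add ((PolyN.const 2).mul ht)).add (PolyN.const 30))).add
      (PolyN.const 1)).add (PolyN.const q)

theorem poly_two_Lq (q : ℕ) (ha : PolyN D ctx a) (hb : PolyN D ctx b) (ht : PolyN D ctx t) :
    PolyN D ctx (fun x => 2 ^ Lq q (a x) (b x) (t x)) := by
  have hs : PolyN D ctx (fun x => 2 ^ (1 + q) * (a x + b x + 2 * t x + 30)) :=
    (PolyN.const (2 ^ (1 + q))).mul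
      (((ha.add hb).add ((PolyN.const 2).mul ht)).add (PolyN.const 30))
  refine Pool.Agent.Lib.P8e91ed.PT.n_pow (PolyN.const 2) (poly_Lq q ha hb ht)
    ((Pool.Agent.Lib.P8e91ed.PT.Bdd.ofN hs).le fun x _ => ?_)
  unfold Lq
  rw [add_assoc, pow_add, mul_comm]
  exact Nat.mul_le_mul_left _ (Nat.pow_log_le_self 2 (by omega))

namespace SPolyAAux

theorem poly_Nq (q : ℕ) (ha : PolyN D ctx a) (hb : PolyN D ctx b) (ht : PolyN D ctx t) :
    PolyN D ctx (fun x => Nq (Lq q (a x) (b x) (t x))) :=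
  (PolyN.const 4).mul (poly_Lq q ha hb ht)

theorem poly_Mq (p q : ℕ) (ha : PolyN D ctx a) (hb : PolyN D ctx b) (ht : PolyN D ctx t) :
    PolyN D ctx (fun x => Mq p q (Lq q (a x) (b x) (t x))) :=
  (Pool.Agent.Lib.Pa7c826t.PolyN.divz ((PolyN.const 16).mul (poly_Lq q ha hb ht))
    (PolyN.const (min p (q - p)))).add (PolyN.const 1)

theorem Mq_le (p q L : ℕ) : Mq p q L ≤ 16 * L + 1 := by
  unfold Mq
  have := Nat.div_le_self (16 * L) (min p (q - p))
  omega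

theorem poly_two_mul (k q : ℕ) (ha : PolyN D ctx a) (hb : PolyN D ctx b)
    (ht : PolyN D ctx t) :
    PolyN D ctx (fun x => 2 ^ (k * (16 * Lq q (a x) (b x) (t x) + 1))) :=
  ((PolyN.pow (poly_two_Lq q ha hb ht) (16 * k)).mul (PolyN.const (2 ^ k))).congr
    (fun x _ => by
      rw [← pow_mul, ← pow_add]
      congr 1
      ring)

end SPolyAAux

open SPolyAAux

theorem poly_mS (q : ℕ) (ha : PolyN D ctx a) (hb : PolyN D ctx b) (ht : PolyN D ctx t) :
    PolyN D ctx (fun x => mS (Nq (Lq q (a x) (b x) (t x)))) := by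
  have hN := poly_Nq q ha hb ht
  have h4 := Pool.Agent.Lib.P8e91ed.PT.nU (n := fun x => Nq (Lq q (a x) (b x) (t x)))
    (PolyN.pow (poly_two_Lq q ha hb ht) 4)
  have hN' := Pool.Agent.Lib.P8e91ed.PT.nU (n := fun x => Nq (Lq q (a x) (b x) (t x))) hN
  have hk := Pool.Agent.Lib.P8e91ed.PT.nL (D := D) (ctx := ctx)
    (n := fun x => Nq (Lq q (a x) (b x) (t x)))
  have hp := Pool.Agent.Lib.P8e91ed.PT.n_pow (PolyN.const 2)
    (PolyN.sub (PolyN.sub hN' (PolyN.const 1)) hk)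
    ((Pool.Agent.Lib.P8e91ed.PT.Bdd.ofN h4).le fun x _ => by
      rw [← pow_mul]
      refine Nat.pow_le_pow_right (by norm_num) ?_
      unfold Nq
      omega)
  exact Pool.Agent.Lib.P8e91ed.PT.nSum hN
    (Pool.Agent.Lib.Pa7c826t.PolyN.divz (hN'.mul hp) (hk.add (PolyN.const 1)))

theorem poly_kq (hp : 0 < p) (hpq : p < q) (ha : PolyN D ctx a) (hb : PolyN D ctx b)
    (ht : PolyN D ctx t) : PolyN D ctx (fun x => kq p q (Lq q (a x) (b x) (t x))) :=
  PolyN.sub ((PolyN.const (q - p)).mul (poly_Mq p q ha hb ht)) (PolyN.const 2)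

theorem poly_two_kq (hp : 0 < p) (hpq : p < q) (ha : PolyN D ctx a) (hb : PolyN D ctx b)
    (ht : PolyN D ctx t) : PolyN D ctx (fun x => 2 ^ kq p q (Lq q (a x) (b x) (t x))) := by
  refine Pool.Agent.Lib.P8e91ed.PT.n_pow (PolyN.const 2) (poly_kq hp hpq ha hb ht)
    ((Pool.Agent.Lib.P8e91ed.PT.Bdd.ofN (poly_two_mul (q - p) q ha hb ht)).le fun x _ => ?_)
  refine Nat.pow_le_pow_right (by norm_num) ?_
  unfold kq
  exact (Nat.sub_le _ _).trans (Nat.mul_le_mul_left _ (Mq_le _ _ _))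

theorem poly_Dq (hp : 0 < p) (hpq : p < q) (ha : PolyN D ctx a) (hb : PolyN D ctx b)
    (ht : PolyN D ctx t) : PolyN D ctx (fun x => Dq p q (Lq q (a x) (b x) (t x))) := by
  refine Pool.Agent.Lib.P8e91ed.PT.n_pow (PolyN.const 2)
    ((PolyN.const p).mul (poly_Mq p q ha hb ht))
    ((Pool.Agent.Lib.P8e91ed.PT.Bdd.ofN (poly_two_mul p q ha hb ht)).le fun x _ => ?_)
  exact Nat.pow_le_pow_right (by norm_num) (Nat.mul_le_mul_left _ (Mq_le _ _ _))

theorem poly_gq (q : ℕ) (ha : PolyN D ctx a) (hb : PolyN D ctx b) (ht : PolyN D ctx t) :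
    PolyN D ctx (fun x => gq (Lq q (a x) (b x) (t x))) :=
  ((poly_mS q ha hb ht).add (PolyN.const 1)).mul (poly_two_Lq q ha hb ht)

theorem poly_cq (hp : 0 < p) (hpq : p < q) (ha : PolyN D ctx a) (hb : PolyN D ctx b)
    (ht : PolyN D ctx t) : PolyN D ctx (fun x => cq p q (Lq q (a x) (b x) (t x))) :=
  (PolyN.const 3).mul ((((poly_gq q ha hb ht).add (poly_kq hp hpq ha hb ht)).add
    ((PolyN.const 2).mul (poly_Lq q ha hb ht))).add (PolyN.const 20))

theorem poly_sq (hp : 0 < p) (hpq : p < q) (ha : PolyN D ctx a) (hb : PolyN D ctx b)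
    (ht : PolyN D ctx t) :
    PolyN D ctx (fun x => sq p q (a x) (b x) (Lq q (a x) (b x) (t x))) :=
  (((poly_kq hp hpq ha hb ht).mul (PolyN.const 2)).add ((poly_Nq q ha hb ht).add
    ((PolyN.const 1).add ((poly_mS q ha hb ht).add (ha.mul hb))))).mul
      ((poly_cq hp hpq ha hb ht).add (PolyN.const 1))

theorem poly_nq (hp : 0 < p) (hpq : p < q) (ha : PolyN D ctx a) (hb : PolyN D ctx b)
    (ht : PolyN D ctx t) : PolyN D ctx (fun x => nq p q (Lq q (a x) (b x) (t x))) :=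
  ((PolyN.const 2).mul (poly_two_kq hp hpq ha hb ht)).mul (poly_Dq hp hpq ha hb ht)

end Pool.Agent.Lib.Pa7c826q
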