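import Pool.Agent.Lib.Pa7c826q.Defs
import Pool.Agent.Lib.Pa7c826s.TPolyB
import Pool.Agent.Lib.P8e91ed.PolyBin

/-!
The adjacency is computable in polynomial time.

Adapt Lib/Pa7c826s/TPolyB.lean (`niteR`, `pow_div`, `poly_flipN`, `poly_ptN`, `poly_drN`,
`poly_F5g`, `poly_F5`), with `poly_F` (Lib/Pa7c826/NearHalf.lean) for the entries of the given
graph, `PolyN.divz`, `PolyN.modz` for divisions whose divisor may be `0`. The numbers `H = 2 ^ κ`
and `W` enter as functions that are computable in polynomial time.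
-/

namespace Pool.Agent.Lib.Pa7c826q

open Pool.Agent.Lib.PolyTime Pool.Agent.Lib.Pa7c826 Pool.Agent.Lib.Pa7c826t

variable {α : Type} {D : α → Prop} {ctx : List (α → List Bool)} {G : α → BGraph} {s : α → ℕ}

namespace SPolyBAux

theorem bite {φ ψ χ : α → Bool} (hφ : PolyB D ctx φ) (hψ : PolyB D ctx ψ) (hχ : PolyB D ctx χ) :
    PolyB D ctx (fun a => if φ a = true then ψ a else χ a) :=
  PolyB.ite hφ (PolyC.mono hψ fun _ h => h.1) (PolyC.mono hχ fun _ h => h.1)

theorem poly_ptN {κ W N m g l V : α → ℕ} (hw : PolyC D ctx (fun x => inCode (G x) (s x)))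
    (hκ : PolyN D ctx κ) (h2 : PolyN D ctx (fun x => 2 ^ κ x)) (hW : PolyN D ctx W)
    (hN : PolyN D ctx N) (hm : PolyN D ctx m) (hg : PolyN D ctx g)
    (hl : PolyN D ctx l) (hV : PolyN D ctx V) :
    PolyN D ctx (fun x => ptN (κ x) (2 ^ κ x) (W x) (N x) (m x) (g x) (G x).a (G x).b (G x).F
      (l x) (V x)) := by
  have hk2 := hκ.mul (PolyN.const (D := D) (ctx := ctx) 2)
  have hb1 := PolyB.lt hl hk2
  have c1 : PolyN D ctx (fun _ => 1) := PolyN.const 1
  have hVH := PolyB.lt hV h2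
  have ha := poly_a hw
  have hb := poly_b hw
  have e1 := hk2.add (hN.add c1)
  have e2 := hk2.add (hN.add (c1.add hm))
  have r1 := (PolyN.sub hl e1).add c1
  have r2 := PolyN.sub hl e2
  have q := PolyN.divz r2 hb
  have r := PolyN.modz r2 hb
  have hF := poly_F hw q r
  have hVsub := PolyN.sub hV h2
  refine Pool.Agent.Lib.Pa7c826s.TPolyBAux.niteR hb1 ?_ ?_
  · refine PolyN.ite (PolyC.mono hVH fun _ h => h.1) ?_ (PolyC.mono hV fun _ h => h.1)
    exact Pool.Agent.Lib.Pa7c826s.TPolyBAux.poly_flipN (PolyC.mono hl fun _ h => h.1)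
      (PolyC.mono hV fun _ h => h.1) (PolyC.mono h2 fun _ h => h.1)
      (fun x hx => by simpa using hx.2)
  · refine PolyC.mono (D := D) ?_ fun _ h => h.1
    exact PolyN.ite (PolyB.lt hl (hk2.add hN)) (PolyN.ite hVH (h2.add hV) hVsub)
      (PolyN.ite (PolyB.lt hl e1)
        (PolyN.ite hVH (PolyN.ite (PolyB.lt hV hg) hV (h2.add hV))
          (PolyN.ite (PolyB.lt hVsub hg) hV hVsub))
        (PolyN.ite (PolyB.lt hl e2)
          (PolyN.ite hVH hV
            (PolyN.ite (PolyB.lt hVsub hW) (hV.add (hW.mul r1))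
              (PolyN.ite (PolyB.natEq (PolyN.divz hVsub hW) r1) (PolyN.sub hV (hW.mul r1)) hV)))
          (PolyN.ite hF
            (PolyN.ite (PolyB.natEq hV (h2.add q)) (h2.add (ha.add r))
              (PolyN.ite (PolyB.natEq hV (h2.add (ha.add r))) (h2.add q) hV)) hV)))

theorem poly_drN {κ W N m l V : α → ℕ} (hw : PolyC D ctx (fun x => inCode (G x) (s x)))
    (hκ : PolyN D ctx κ) (h2 : PolyN D ctx (fun x => 2 ^ κ x)) (hW : PolyN D ctx W)
    (hN : PolyN D ctx N) (hm : PolyN D ctx m) (hl : PolyN D ctx l) (hV : PolyN D ctx V) :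
    PolyB D ctx (fun x => drN (κ x) (2 ^ κ x) (W x) (N x) (m x) (G x).b (l x) (V x)) := by
  have hk2 := hκ.mul (PolyN.const (D := D) (ctx := ctx) 2)
  have c1 : PolyN D ctx (fun _ => 1) := PolyN.const 1
  have hb := poly_b hw
  have e1 := hk2.add (hN.add c1)
  have e2 := hk2.add (hN.add (c1.add hm))
  have r2 := PolyN.sub hl e2
  have q := PolyN.divz r2 hb
  have hd := PolyN.divPow hV (PolyN.div hl (PolyN.const 2) (fun _ _ => by norm_num))
  have hdm := PolyN.mod hd (PolyN.const 2) (fun _ _ => by norm_num)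
  have hl2 := PolyN.mod hl (PolyN.const 2) (fun _ _ => by norm_num)
  exact bite (PolyB.lt hl hk2) (PolyB.natEq hdm hl2)
    (bite (PolyB.lt hl (hk2.add hN)) (PolyB.lt hV h2)
      (bite (PolyB.lt hl e1) (PolyB.lt hV h2).not
        (bite (PolyB.lt hl e2) (PolyB.lt hV (h2.add hW)).not (PolyB.natEq hV (h2.add q)))))

theorem poly_ctrN {κ N l : α → ℕ} (hκ : PolyN D ctx κ) (hN : PolyN D ctx N)
    (hl : PolyN D ctx l) : PolyN D ctx (fun x => ctrN (κ x) (N x) (l x)) := by
  have hk2 := hκ.mul (PolyN.const (D := D) (ctx := ctx) 2)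
  exact PolyN.ite (PolyB.lt hl (hk2.add (hN.add (PolyN.const 1)))) hl hk2

theorem poly_F6g {n P z U S V T : α → ℕ} {d : α → Bool} (hn : PolyN D ctx n)
    (hP : PolyN D ctx P) (hz : PolyN D ctx z) (hd : PolyB D ctx d) (hU : PolyN D ctx U)
    (hS : PolyN D ctx S) (hV : PolyN D ctx V) (hT : PolyN D ctx T) :
    PolyB D ctx (fun x => F6g (n x) (P x) (z x) (d x) (U x) (S x) (V x) (T x)) := by
  have hUV := PolyB.natEq hU hV
  have hUP := PolyB.natEq hU hP
  have hST := PolyB.natEq hS hT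
  have hSz := PolyB.natEq hS (hn.add hz)
  exact bite (PolyB.natEq hP hV) hUV
    (bite hd ((hUV.and hST.not).or (hUP.and hSz)) ((hUV.and hSz.not).or (hUP.and hST)))

end SPolyBAux

open SPolyBAux

theorem poly_F6 {κ W N m g c1 d n u v : α → ℕ} (hw : PolyC D ctx (fun x => inCode (G x) (s x)))
    (hκ : PolyN D ctx κ) (h2 : PolyN D ctx (fun x => 2 ^ κ x)) (hW : PolyN D ctx W)
    (hN : PolyN D ctx N) (hm : PolyN D ctx m) (hg : PolyN D ctx g) (hc : PolyN D ctx c1)
    (hd : PolyN D ctx d) (hn : PolyN D ctx n) (hu : PolyN D ctx u) (hv : PolyN D ctx v) :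
    PolyB D ctx (fun x => F6 (κ x) (2 ^ κ x) (W x) (N x) (m x) (g x) (G x).a (G x).b (c1 x)
      (d x) (n x) (G x).F (u x) (v x)) := by
  have hU := PolyN.divz hu hd
  have hS := PolyN.modz hu hd
  have hV := PolyN.divz hv hd
  have hT := PolyN.modz hv hd
  have hl := PolyN.divz hT hc
  exact bite (PolyB.lt hT hn)
    (poly_F6g hn (poly_ptN hw hκ h2 hW hN hm hg hl hV) (poly_ctrN hκ hN hl)
      (poly_drN hw hκ h2 hW hN hm hl hV) hU hS hV hT) (PolyB.natEq hU hV)

end Pool.Agent.Lib.Pa7c826q
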