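import Pool.Agent.Lib.Pa7c826q.Ln2

/-!
Sizes.

Write `L = Lq q a b t`. `a + b + 2 t + 30 < 2 ^ L` (`Nat.lt_pow_succ_log_self`), `q + 5 ≤ L` (as
`Nat.log 2 30 = 4`), so `7 ≤ L`. With `μ = min p (q - p) ≥ 1` and `M = 16 L / μ + 1`:
`16 L + 1 ≤ μ M ≤ 16 L + μ`, `M ≤ 16 L + 1`.
`kq = (q - p) M - 2`, `16 L - 1 ≤ kq ≤ q (16 L + 1) ≤ 17 L ^ 2 ≤ 2 ^ (L + 5)` (`L ≤ 2 ^ (L / 2)`
is false for small `L`; use `L ^ 2 ≤ 2 ^ L`, true for `L ≥ 4`, by induction).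
`mS (4 L) ≤ 4 L * 2 ^ (4 L) ≤ 2 ^ (5 L)` (`4 L ≤ 2 ^ L` for `L ≥ 4`),
`gq L ≤ (2 ^ (5 L) + 1) 2 ^ L ≤ 2 ^ (6 L + 1)`,
`cq + 1 ≤ 3 (2 ^ (6 L + 1) + 2 ^ (L + 5) + 2 L + 20) + 1 ≤ 2 ^ (6 L + 3)`,
`LL ≤ 2 * 2 ^ (L + 5) + 4 L + 1 + 2 ^ (5 L) + 2 ^ (2 L) ≤ 2 ^ (5 L + 1)`,
so `sq ≤ 2 ^ (11 L + 4)`, `GG ≤ 2 ^ (L + 7)`, while `Dq ≥ 2 ^ (16 L + 1)`.
-/

namespace Pool.Agent.Lib.Pa7c826q

variable {p q : ℕ}

/-- the base parameter -/
theorem size1 (q a b t : ℕ) : a + b + 2 * t + 30 ≤ 2 ^ Lq q a b t ∧ q + 5 ≤ Lq q a b t := by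
  unfold Lq
  constructor
  · have h1 : a + b + 2 * t + 30 < 2 ^ (Nat.log 2 (a + b + 2 * t + 30) + 1) :=
      Nat.lt_pow_succ_log_self (by norm_num) _
    have h2 : 2 ^ (Nat.log 2 (a + b + 2 * t + 30) + 1) ≤
        2 ^ (Nat.log 2 (a + b + 2 * t + 30) + 1 + q) :=
      Nat.pow_le_pow_right (by norm_num) (by omega)
    omega
  · have h1 : Nat.log 2 16 ≤ Nat.log 2 (a + b + 2 * t + 30) := Nat.log_mono_right (by omega)
    have h2 : Nat.log 2 16 = 4 := by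
      rw [show (16 : ℕ) = 2 ^ 4 by norm_num, Nat.log_pow (by norm_num)]
    omega

namespace SSizeAux

theorem muM (hp : 0 < p) (hpq : p < q) (L : ℕ) :
    16 * L + 1 ≤ min p (q - p) * Mq p q L ∧ min p (q - p) * Mq p q L ≤ 16 * L + min p (q - p) := by
  unfold Mq
  have hm : 0 < min p (q - p) := by
    apply lt_min hp
    omega
  set m := min p (q - p) with hmdef
  have h1 := Nat.div_add_mod (16 * L) m
  have h2 := Nat.mod_lt (16 * L) hm
  rw [Nat.mul_add, Nat.mul_one]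
  constructor
  · omega
  · omega

theorem Mq_le (p q L : ℕ) : Mq p q L ≤ 16 * L + 1 := by
  unfold Mq
  have := Nat.div_le_self (16 * L) (min p (q - p))
  omega

theorem pM (hp : 0 < p) (hpq : p < q) (L : ℕ) : 16 * L + 1 ≤ p * Mq p q L :=
  (muM hp hpq L).1.trans (Nat.mul_le_mul_right _ (min_le_left _ _))

theorem qM (hp : 0 < p) (hpq : p < q) (L : ℕ) : 16 * L + 1 ≤ (q - p) * Mq p q L :=
  (muM hp hpq L).1.trans (Nat.mul_le_mul_right _ (min_le_right _ _))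

theorem sq_le (L : ℕ) (hL : 4 ≤ L) : L * L ≤ 2 ^ L := by
  induction L, hL using Nat.le_induction with
  | base => norm_num
  | succ n hn ih =>
    rw [pow_succ]
    nlinarith

theorem kq_ge (hp : 0 < p) (hpq : p < q) (L : ℕ) : 16 * L - 1 ≤ kq p q L := by
  unfold kq
  have := qM hp hpq L
  omega

theorem kq_add (hp : 0 < p) (hpq : p < q) {L : ℕ} (hL : 1 ≤ L) :
    kq p q L + 2 = (q - p) * Mq p q L := by
  unfold kq
  have := qM hp hpq L
  omega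

theorem kq_le {L : ℕ} (hL : q + 5 ≤ L) : kq p q L ≤ 17 * 2 ^ L := by
  unfold kq
  have h1 : (q - p) * Mq p q L ≤ L * (16 * L + 1) :=
    Nat.mul_le_mul (by omega) (Mq_le p q L)
  have h2 := sq_le L (by omega)
  have h3 : L ≤ L * L := Nat.le_mul_self L
  have h4 : L * (16 * L + 1) = 16 * (L * L) + L := by ring
  omega

theorem four_le {L : ℕ} (hL : 4 ≤ L) : 4 * L ≤ 2 ^ L :=
  (Nat.mul_le_mul_right L hL).trans (sq_le L hL)

theorem mS_le' {L : ℕ} (hL : 4 ≤ L) : mS (4 * L) ≤ (2 ^ L) ^ 5 := by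
  have h1 := mS_le (4 * L)
  have h2 : 2 ^ (4 * L) = (2 ^ L) ^ 4 := by rw [← pow_mul, Nat.mul_comm]
  calc mS (4 * L) ≤ 4 * L * 2 ^ (4 * L) := h1
    _ ≤ 2 ^ L * (2 ^ L) ^ 4 := by
        rw [h2]
        exact Nat.mul_le_mul_right _ (four_le hL)
    _ = (2 ^ L) ^ 5 := by ring

theorem gq_le {L : ℕ} (hL : 4 ≤ L) : gq L ≤ 2 * (2 ^ L) ^ 6 := by
  unfold gq Nq
  have h1 := mS_le' hL
  have h2 : 1 ≤ (2 ^ L) ^ 5 := Nat.one_le_iff_ne_zero.2 (by positivity)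
  calc (mS (4 * L) + 1) * 2 ^ L ≤ ((2 ^ L) ^ 5 + (2 ^ L) ^ 5) * 2 ^ L :=
        Nat.mul_le_mul_right _ (by omega)
    _ = 2 * (2 ^ L) ^ 6 := by ring

end SSizeAux

open SSizeAux

theorem size2 (hp : 0 < p) (hpq : p < q) {L : ℕ} (hL : q + 5 ≤ L) :
    (mS (4 * L) + 1) * 2 ^ L + Rq p q L = 2 ^ kq p q L := by
  have h1 := gq_le (L := L) (by omega)
  have h2 := kq_ge hp hpq L
  have h3 : 2 * (2 ^ L) ^ 6 ≤ 2 ^ kq p q L := by
    have h4 : 2 * (2 ^ L) ^ 6 = 2 ^ (6 * L + 1) := by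
      rw [show 6 * L + 1 = L * 6 + 1 by ring, pow_add 2 (L * 6) 1, pow_mul]
      ring
    rw [h4]
    exact Nat.pow_le_pow_right (by norm_num) (by omega)
  unfold Rq
  have h5 : (mS (4 * L) + 1) * 2 ^ L = gq L := rfl
  rw [h5]
  omega

/-- label slots and centre slots take a small part of a block -/
theorem size3 (hp : 0 < p) (hpq : p < q) {L a b t : ℕ} (hL : q + 5 ≤ L)
    (hab : a + b + 2 * t + 30 ≤ 2 ^ L) :
    8 * (sq p q a b L + GG (kq p q L) (Nq L) + kq p q L + 2 * t + Nq L + 10) ≤ Dq p q L := by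
  have hk := kq_le (p := p) hL
  have hm := mS_le' (L := L) (by omega)
  have hg := gq_le (L := L) (by omega)
  have h4 := four_le (L := L) (by omega)
  have hD : 2 * (2 ^ L) ^ 16 ≤ Dq p q L := by
    have h5 : 2 * (2 ^ L) ^ 16 = 2 ^ (16 * L + 1) := by
      rw [show 16 * L + 1 = L * 16 + 1 by ring, pow_add 2 (L * 16) 1, pow_mul]
      ring
    rw [h5]
    exact Nat.pow_le_pow_right (by norm_num) (pM hp hpq L)
  have hX : 128 ≤ 2 ^ L := by
    calc 128 = 2 ^ 7 := by norm_num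
      _ ≤ 2 ^ L := Nat.pow_le_pow_right (by norm_num) (by omega)
  have hLX : L ≤ 2 ^ L := by omega
  unfold sq
  simp only [Nq]
  set X := 2 ^ L with hXdef
  have hab' : a * b ≤ X ^ 2 := by
    rw [pow_two]
    exact Nat.mul_le_mul (by omega) (by omega)
  have p2 : 128 * X ≤ X ^ 2 := by
    rw [pow_two]
    exact Nat.mul_le_mul_right _ hX
  have p5 : 128 * X ^ 2 ≤ X ^ 5 := by
    have h6 : 128 ≤ X ^ 3 := hX.trans (Nat.le_self_pow (by norm_num) X)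
    calc 128 * X ^ 2 ≤ X ^ 3 * X ^ 2 := Nat.mul_le_mul_right _ h6
      _ = X ^ 5 := by ring
  have p6 : X ^ 5 ≤ X ^ 6 := Nat.pow_le_pow_right (by omega) (by norm_num)
  have hLL : LL (kq p q L) (4 * L) (mS (4 * L)) a b ≤ 2 * X ^ 5 := by
    unfold LL
    omega
  have hc : cq p q L + 1 ≤ 8 * X ^ 6 := by
    unfold cq
    omega
  have hs : LL (kq p q L) (4 * L) (mS (4 * L)) a b * (cq p q L + 1) ≤ 16 * X ^ 11 := by
    calc LL (kq p q L) (4 * L) (mS (4 * L)) a b * (cq p q L + 1)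
        ≤ (2 * X ^ 5) * (8 * X ^ 6) := Nat.mul_le_mul hLL hc
      _ = 16 * X ^ 11 := by ring
  have hGG : GG (kq p q L) (4 * L) ≤ 36 * X := by
    unfold GG
    omega
  have p11 : 128 * X ≤ X ^ 11 := by
    calc 128 * X ≤ X ^ 2 := p2
      _ ≤ X ^ 11 := Nat.pow_le_pow_right (by omega) (by norm_num)
  have p12 : 128 * X ^ 11 ≤ X ^ 16 := by
    calc 128 * X ^ 11 ≤ X * X ^ 11 := Nat.mul_le_mul_right _ hX
      _ = X ^ 12 := by ring
      _ ≤ X ^ 16 := Nat.pow_le_pow_right (by omega) (by norm_num)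
  omega

theorem size4 (hp : 0 < p) (hpq : p < q) {L a b t : ℕ} (hL : q + 5 ≤ L)
    (hab : a + b + 2 * t + 30 ≤ 2 ^ L) :
    sq p q a b L + (GG (kq p q L) (Nq L) + fq p q a b L) = Dq p q L := by
  have h := size3 hp hpq hL hab
  unfold fq
  omega

/-- the degree and the number of vertices -/
theorem size5 (hp : 0 < p) (hpq : p < q) {L : ℕ} (hL : q + 5 ≤ L) :
    Dq p q L ^ q = (nq p q L + nq p q L) ^ p := by
  have h1 : nq p q L + nq p q L = 2 ^ (q * Mq p q L) := by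
    have h2 : q * Mq p q L = (q - p) * Mq p q L + p * Mq p q L := by
      rw [← Nat.add_mul]
      congr 1
      omega
    rw [h2, ← kq_add hp hpq (L := L) (by omega)]
    unfold nq Dq
    rw [pow_add, pow_add]
    ring
  rw [h1]
  unfold Dq
  rw [← pow_mul, ← pow_mul]
  congr 1
  ring

theorem size6 (hp : 0 < p) (hpq : p < q) {L : ℕ} (hL : q + 5 ≤ L) :
    min (Nat.log 2 (Dq p q L)) (Nat.log 2 ((nq p q L + nq p q L) / Dq p q L)) ≤ 17 * L := by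
  have h1 : Nat.log 2 (Dq p q L) = p * Mq p q L := by
    unfold Dq
    rw [Nat.log_pow (by norm_num)]
  have h2 : (nq p q L + nq p q L) / Dq p q L = 2 ^ ((q - p) * Mq p q L) := by
    have hD : 0 < Dq p q L := by
      unfold Dq
      positivity
    apply Nat.div_eq_of_eq_mul_left hD
    rw [← kq_add hp hpq (L := L) (by omega)]
    unfold nq
    rw [pow_add]
    ring
  rw [h1, h2, Nat.log_pow (by norm_num)]
  have h3 := (muM hp hpq L).2
  have h4 : min p (q - p) ≤ L := (min_le_left _ _).trans (by omega)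
  rcases le_total p (q - p) with h | h
  · rw [min_eq_left h] at h3 h4
    exact (min_le_left _ _).trans (by omega)
  · rw [min_eq_right h] at h3 h4
    exact (min_le_right _ _).trans (by omega)

end Pool.Agent.Lib.Pa7c826q
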