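import Pool.Agent.Lib.Pa7c826q.XExpL

/-!
Expansion of sets of right vertices.

Adapt Lib/Pa7c826s/XExpR.lean. Let `D = |Λ| (c + 1) + (|Γ| + f)`, `S` a set of right vertices, `N`
its neighbourhood (left vertices), `s x` the number of elements of `S` in the block `x`, heavy
blocks `D < 2 s x`, light blocks `0 < s x`, `2 s x ≤ D`, `n x` the number of elements of `N` in the
block `x`. A left vertex in a label slot misses at most one right vertex of its block, in a free
slot none, in the centre slot `γ` it misses only right vertices `(x, (l, j))` with `ctr l = γ`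
(at most `|Λ| (c + 1)`).
(a) If `s x ≥ 1` then `n x ≥ D - |Γ| - 1`; so for light blocks
`n x - s x ≥ |Λ| (c + 1) + K`, by `hK`. (Check: `D - |Γ| - 1 - s x ≥ D / 2 - |Γ| - 1`, and
`2 (|Λ| (c + 1) + K) + 2 |Γ| + 2 ≤ D`.)
(b) If `x` is heavy then `s x > |Λ| (c + 1)` and `s x ≥ 2`, so `n x = D`.
(c) Let `x` be heavy, `y = pt l x ≠ x` with `s y = 0`. If `dr l x = false` (`x` is the target,
`y` the source) then for every `j` either `(x, (l, j)) ∉ S` or the left vertex
`(y, (l, j)) ∈ N`: `miss l x + gain l y ≥ c + 1 ≥ w l x`. If `dr l x = true` (`x` is the source)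
then either all `(x, (l, j)) ∉ S`, or the left vertex `(y, ctr l) ∈ N`:
`miss l x + gainC (ctr l) y ≥ 1 ≥ w l x`, where `gainC γ y ∈ {0, 1}` says whether `(y, γ) ∈ N`.
By `hw2`, for given `y` and `γ` at most one label `l` with `ctr l = γ`, `dr l y = false` has
`w l (pt l y) > 0`, so the sum over `l` of the gained centres is at most `∑ γ, gainC γ y`.
(d) `D - s x ≥ ∑ l, miss l x` for heavy `x`; `n y ≥ ∑ l, gain l y + ∑ γ, gainC γ y` for empty
`y`; the links from heavy to light blocks: at most `|Λ|` per light block, weight at most `c + 1`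
each, so `|Λ| (c + 1)` per light block. Sum up.
-/

namespace Pool.Agent.Lib.Pa7c826q

open Pool.Agent.Lib.Pa7c826
open Pool.Agent.Lib.Pa7c826s (Pairing cutX)

variable {Λ Γ Blk : Type} [Fintype Λ] [Fintype Γ] [Fintype Blk] [DecidableEq Blk]
  {pt : Λ → Blk → Blk} {dr : Λ → Blk → Bool} {ctr : Λ → Γ} {c f : ℕ}

namespace XExpRAux

open XExpLAux

theorem cnt_full {S N : Finset (Vx Λ Γ Blk c f)}
    (hN : ∀ u, u ∈ N ↔ ∃ v ∈ S, XRel pt dr ctr c f u v) {x : Blk}
    (h : Fintype.card Λ * (c + 1) + 1 ≤ cnt S x) :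
    cnt N x = Fintype.card Λ * (c + 1) + (Fintype.card Γ + f) := by
  classical
  have hex : ∃ t' : Γ ⊕ Fin f, ((x, Sum.inr t') : Vx Λ Γ Blk c f) ∈ S := by
    by_contra hcon
    push Not at hcon
    have h1 : cnt S x ≤ Fintype.card Λ * (c + 1) := by
      unfold XExpLAux.cnt
      rw [Fintype.sum_sum_type,
        Finset.sum_eq_zero fun (t' : Γ ⊕ Fin f) _ => if_neg (hcon t'), add_zero]
      calc _ ≤ ∑ _t : Λ × Fin (c + 1), 1 :=
            Finset.sum_le_sum fun t _ => by split_ifs <;> norm_num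
        _ = Fintype.card Λ * (c + 1) := by simp
    omega
  obtain ⟨t', ht'⟩ := hex
  refine cnt_all fun t => ?_
  rw [hN]
  exact ⟨_, ht', adj_inr⟩

theorem cnt_one {S N : Finset (Vx Λ Γ Blk c f)}
    (hN : ∀ u, u ∈ N ↔ ∃ v ∈ S, XRel pt dr ctr c f u v) {x : Blk} (h : 1 ≤ cnt S x) :
    Fintype.card Λ * (c + 1) + (Fintype.card Γ + f) ≤ cnt N x + 1 := by
  classical
  rw [← card_block] at h
  obtain ⟨v, hv⟩ := Finset.card_pos.mp h
  obtain ⟨h1, h2⟩ := Finset.mem_filter.mp hv
  obtain ⟨e, he⟩ := exists_excl (pt := pt) (dr := dr) (ctr := ctr) v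
  rw [h2] at he
  have h3 : ∀ t : Slt Λ Γ c f, 1 ≤ (if (x, t) ∈ N then 1 else 0) + (if t = e then 1 else 0) := by
    intro t
    by_cases ht : t = e
    · rw [if_pos ht]
      omega
    · have : (x, t) ∈ N := by
        rw [hN]
        exact ⟨v, h1, he t ht⟩
      rw [if_pos this]
      omega
  calc Fintype.card Λ * (c + 1) + (Fintype.card Γ + f) = ∑ _t : Slt Λ Γ c f, 1 := by
        rw [Finset.sum_const, Finset.card_univ, card_slt, smul_eq_mul, mul_one]
    _ ≤ ∑ t : Slt Λ Γ c f, ((if (x, t) ∈ N then 1 else 0) + (if t = e then 1 else 0)) :=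
        Finset.sum_le_sum fun t _ => h3 t
    _ = cnt N x + 1 := by
        rw [Finset.sum_add_distrib, Finset.sum_ite_eq' Finset.univ e fun _ => 1,
          if_pos (Finset.mem_univ _)]
        rfl

open Classical in
/-- the gained slots that belong to a label -/
noncomputable def gainT (pt : Λ → Blk → Blk) (dr : Λ → Blk → Bool) (ctr : Λ → Γ)
    (w : Λ → Blk → ℕ) (N : Finset (Vx Λ Γ Blk c f)) (l : Λ) (y : Blk) : ℕ :=
  if dr l y = true then gain N l y else if 0 < w l (pt l y) then gainC N (ctr l) y else 0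

theorem sum_gainT {w : Λ → Blk → ℕ}
    (hw2 : ∀ y l l', dr l y = false → dr l' y = false → ctr l = ctr l' → 0 < w l (pt l y) →
      0 < w l' (pt l' y) → l = l') (N : Finset (Vx Λ Γ Blk c f)) (y : Blk) :
    ∑ l, gainT pt dr ctr w N l y ≤ ∑ l, gain N l y + ∑ γ, gainC N γ y := by
  classical
  have h1 : ∀ l, gainT pt dr ctr w N l y ≤ gain N l y +
      (if (dr l y = false ∧ 0 < w l (pt l y)) then gainC N (ctr l) y else 0) := by
    intro l
    unfold gainT
    by_cases h : dr l y = true
    · rw [if_pos h]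
      exact Nat.le_add_right _ _
    · rw [if_neg h]
      rw [Bool.not_eq_true] at h
      by_cases h2 : 0 < w l (pt l y)
      · rw [if_pos h2, if_pos ⟨h, h2⟩]
        exact Nat.le_add_left _ _
      · rw [if_neg h2]
        exact Nat.zero_le _
  refine (Finset.sum_le_sum fun l _ => h1 l).trans ?_
  rw [Finset.sum_add_distrib]
  refine Nat.add_le_add_left ?_ _
  exact sum_ctr (fun γ => gainC N γ y) (fun l => dr l y = false ∧ 0 < w l (pt l y))
    fun l l' h h' h'' => hw2 y l l' h.1 h'.1 h'' h.2 h'.2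

/-- links to blocks without elements of `S` -/
theorem link_gain (hp : Pairing pt dr) {w : Λ → Blk → ℕ}
    (hw1 : ∀ l x, w l x ≤ bif dr l x then 1 else c + 1) {S N : Finset (Vx Λ Γ Blk c f)}
    (hN : ∀ u, u ∈ N ↔ ∃ v ∈ S, XRel pt dr ctr c f u v) (l : Λ) (x : Blk) (hx : pt l x ≠ x) :
    w l x ≤ miss S l x + gainT pt dr ctr w N l (pt l x) := by
  classical
  have hxx : pt l (pt l x) = x := hp.inv l x
  have hdir := hp.dir l x hx
  have hwx := hw1 l x
  unfold gainT
  rw [hxx]
  by_cases h2 : dr l x = true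
  · rw [h2, cond_true] at hwx
    rw [h2, Bool.not_true] at hdir
    rw [hdir, if_neg (by simp)]
    by_cases hw0 : 0 < w l x
    · rw [if_pos hw0]
      by_cases hj : ((x, Sum.inl (l, 0)) : Vx Λ Γ Blk c f) ∈ S
      · have h3 : ((pt l x, Sum.inr (Sum.inl (ctr l))) : Vx Λ Γ Blk c f) ∈ N := by
          rw [hN]
          exact ⟨_, hj, Or.inr (Or.inl ⟨hx, h2, Or.inr ⟨rfl, rfl⟩⟩)⟩
        have h4 : gainC N (ctr l) (pt l x) = 1 := by
          unfold gainC
          rw [if_pos h3]
        omega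
      · have h4 : 1 ≤ miss S l x := by
          unfold miss
          calc 1 = if ((x, Sum.inl (l, 0)) : Vx Λ Γ Blk c f) ∈ S then 0 else 1 := by
                rw [if_neg hj]
            _ ≤ _ := Finset.single_le_sum (f := fun j : Fin (c + 1) =>
                if ((x, Sum.inl (l, j)) : Vx Λ Γ Blk c f) ∈ S then 0 else 1)
                (fun _ _ => Nat.zero_le _) (Finset.mem_univ 0)
        omega
    · omega
  · rw [Bool.not_eq_true] at h2
    rw [h2, cond_false] at hwx
    rw [h2, Bool.not_false] at hdir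
    rw [if_pos hdir]
    refine hwx.trans ?_
    unfold miss gain
    rw [← Finset.sum_add_distrib]
    calc c + 1 = ∑ _j : Fin (c + 1), 1 := by simp
      _ ≤ _ := Finset.sum_le_sum fun j _ => ?_
    by_cases hj : ((x, Sum.inl (l, j)) : Vx Λ Γ Blk c f) ∈ S
    · have h3 : ((pt l x, Sum.inl (l, j)) : Vx Λ Γ Blk c f) ∈ N := by
        rw [hN]
        exact ⟨_, hj, Or.inr (Or.inr ⟨hx, h2, Or.inr ⟨rfl, rfl⟩⟩)⟩
      rw [if_pos h3]
      omega
    · rw [if_neg hj]
      omega

end XExpRAux

open XExpLAux XExpRAux in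
theorem gain_right (hp : Pairing pt dr) {D K : ℕ}
    (hD : D = Fintype.card Λ * (c + 1) + (Fintype.card Γ + f))
    (hK : 2 * (Fintype.card Λ * (c + 1)) + 2 * Fintype.card Γ + 2 * K + 2 ≤ D)
    {w : Λ → Blk → ℕ} (hw1 : ∀ l x, w l x ≤ bif dr l x then 1 else c + 1)
    (hw2 : ∀ y l l', dr l y = false → dr l' y = false → ctr l = ctr l' → 0 < w l (pt l y) →
      0 < w l' (pt l' y) → l = l')
    (S N : Finset (Vx Λ Γ Blk c f)) (hN : ∀ u, u ∈ N ↔ ∃ v ∈ S, XRel pt dr ctr c f u v)
    (s : Blk → ℕ) (hs : ∀ x, s x = (S.filter fun u => u.1 = x).card) :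
    S.card + cutX pt w (Finset.univ.filter fun x => D < 2 * s x) +
      K * (Finset.univ.filter fun x => 0 < s x ∧ 2 * s x ≤ D).card ≤ N.card := by
  classical
  have hsc : ∀ x, s x = cnt S x := fun x => by rw [hs, card_block]
  have hS1 : S.card = ∑ x, s x := by
    rw [card_eq S]
    exact Finset.sum_congr rfl fun x _ => (hsc x).symm
  rw [hS1, card_eq N]
  refine final (c := c) hp.inv s (cnt N) w (miss S) (gainT pt dr ctr w N) (fun l x => ?_) (fun x => ?_)
    (XExpRAux.link_gain hp hw1 hN)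
  · refine (hw1 l x).trans ?_
    cases dr l x <;> simp
  · by_cases h1 : D < 2 * s x
    · have h2 : Fintype.card Λ * (c + 1) + 1 ≤ cnt S x := by rw [← hsc]; omega
      have h3 := cnt_full hN h2
      have h4 := cnt_miss S x
      rw [if_pos h1, if_neg (by omega), if_neg (by omega), h3, hsc x]
      omega
    · rw [if_neg h1]
      by_cases h5 : s x = 0
      · rw [if_pos h5, if_neg (by omega), h5]
        have h6 := cnt_eq N x
        have h7 := sum_gainT hw2 N x
        omega
      · rw [if_neg h5, if_pos (by omega)]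
        have h7 : 1 ≤ cnt S x := by rw [← hsc]; omega
        have h8 := XExpRAux.cnt_one hN h7
        omega

open XExpLAux XExpRAux in
/-- heavy blocks have all left vertices as neighbours -/
theorem full_right (hp : Pairing pt dr) {D K : ℕ}
    (hD : D = Fintype.card Λ * (c + 1) + (Fintype.card Γ + f))
    (hK : 2 * (Fintype.card Λ * (c + 1)) + 2 * Fintype.card Γ + 2 * K + 2 ≤ D)
    (S N : Finset (Vx Λ Γ Blk c f)) (hN : ∀ u, u ∈ N ↔ ∃ v ∈ S, XRel pt dr ctr c f u v)
    (s : Blk → ℕ) (hs : ∀ x, s x = (S.filter fun u => u.1 = x).card) :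
    D * (Finset.univ.filter fun x => D < 2 * s x).card ≤ N.card := by
  classical
  have hsc : ∀ x, s x = cnt S x := fun x => by rw [hs, card_block]
  rw [card_eq N]
  calc D * (Finset.univ.filter fun x => D < 2 * s x).card
      = ∑ x ∈ Finset.univ.filter (fun x => D < 2 * s x), D := by
        rw [Finset.sum_const, smul_eq_mul, mul_comm]
    _ ≤ ∑ x ∈ Finset.univ.filter (fun x => D < 2 * s x), cnt N x := by
        refine Finset.sum_le_sum fun x hx => ?_
        have h1 := (Finset.mem_filter.mp hx).2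
        have h2 : Fintype.card Λ * (c + 1) + 1 ≤ cnt S x := by rw [← hsc]; omega
        rw [cnt_full hN h2, hD]
    _ ≤ ∑ x, cnt N x :=
        Finset.sum_le_sum_of_subset (Finset.filter_subset _ _)

end Pool.Agent.Lib.Pa7c826q
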