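import Pool.Agent.Lib.Pa7c826q.XExpL
import Pool.Agent.Lib.Pa7c826q.XExpR

/-!
Expansion of the block graph.

Adapt Lib/Pa7c826s/XExp.lean (`exp_aux`, `exp_left`, `exp_right`).
`exp_arith`: let `Δ = n - s ≥ cut + K b`. If `a ≤ nb - a` then `T a ≤ 2 Δ`, `D b ≤ 8 K b ≤ 8 Δ` and
`2 T s ≤ 2 D (T a) + T (D b) ≤ 4 D Δ + 8 T Δ ≤ 12 D Δ`. Otherwise `T (nb - a) ≤ 2 Δ`,
`D a ≤ s + Δ`, `2 s ≤ D (nb - a) + D a ≤ D (nb - a) + s + Δ`, so `T s ≤ 2 D Δ + T Δ ≤ 3 D Δ`.
-/

namespace Pool.Agent.Lib.Pa7c826q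

open Pool.Agent.Lib.Pa7c826
open Pool.Agent.Lib.Pa7c826s (Pairing cutX)

theorem exp_arith {D K T nb s n a b cut : ℕ} (hT : T ≤ D) (hK : D ≤ 8 * K)
    (h1 : s + cut + K * b ≤ n) (h2 : D * a ≤ n) (h3 : 2 * s ≤ 2 * (D * a) + D * b)
    (h4 : 2 * s ≤ nb * D) (h5 : T * min a (nb - a) ≤ 2 * cut) (ha : a ≤ nb) :
    (6 * D + T) * s ≤ 6 * D * n := by
  obtain ⟨Δ, rfl⟩ : ∃ Δ, n = s + Δ := ⟨n - s, by omega⟩
  have hΔ : cut + K * b ≤ Δ := by omega
  have hTD : T * Δ ≤ D * Δ := Nat.mul_le_mul_right _ hT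
  have key : T * s ≤ 6 * (D * Δ) := by
    rcases le_total a (nb - a) with h | h
    · rw [min_eq_left h] at h5
      have e1 : D * (T * a) ≤ D * (2 * Δ) := Nat.mul_le_mul_left _ (h5.trans (by omega))
      have e2 : D * b ≤ 8 * Δ := by
        have e3 : D * b ≤ 8 * K * b := Nat.mul_le_mul_right _ hK
        have e4 : 8 * K * b = 8 * (K * b) := by ring
        omega
      have e5 : T * (D * b) ≤ T * (8 * Δ) := Nat.mul_le_mul_left _ e2
      have e6 : T * (2 * s) ≤ T * (2 * (D * a) + D * b) := Nat.mul_le_mul_left _ h3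
      have e7 : T * (2 * (D * a) + D * b) = 2 * (D * (T * a)) + T * (D * b) := by ring
      have e8 : T * (2 * s) = 2 * (T * s) := by ring
      have e9 : D * (2 * Δ) = 2 * (D * Δ) := by ring
      have e10 : T * (8 * Δ) = 8 * (T * Δ) := by ring
      omega
    · rw [min_eq_right h] at h5
      have e1 : D * (T * (nb - a)) ≤ D * (2 * Δ) := Nat.mul_le_mul_left _ (h5.trans (by omega))
      have e3 : nb * D = D * (nb - a) + D * a := by
        rw [← Nat.mul_add, Nat.sub_add_cancel ha, mul_comm]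
      have e4 : s ≤ D * (nb - a) + Δ := by omega
      have e5 : T * s ≤ T * (D * (nb - a) + Δ) := Nat.mul_le_mul_left _ e4
      have e6 : T * (D * (nb - a) + Δ) = D * (T * (nb - a)) + T * Δ := by ring
      have e9 : D * (2 * Δ) = 2 * (D * Δ) := by ring
      omega
  have e5 : (6 * D + T) * s = 6 * D * s + T * s := by ring
  have e6 : 6 * D * (s + Δ) = 6 * D * s + 6 * (D * Δ) := by ring
  omega

variable {Λ Γ Blk : Type} [Fintype Λ] [Fintype Γ] [Fintype Blk] [DecidableEq Blk]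
  {pt : Λ → Blk → Blk} {dr : Λ → Blk → Bool} {ctr : Λ → Γ} {c f : ℕ}

theorem exp_aux {D : ℕ} (hD : D = Fintype.card Λ * (c + 1) + (Fintype.card Γ + f))
    (S : Finset (Vx Λ Γ Blk c f)) (s : Blk → ℕ)
    (hs : ∀ x, s x = (S.filter fun u => u.1 = x).card) :
    2 * S.card ≤ 2 * (D * (Finset.univ.filter fun x => D < 2 * s x).card) +
      D * (Finset.univ.filter fun x => 0 < s x ∧ 2 * s x ≤ D).card := by
  classical
  have h1 : S.card = ∑ x, s x := by
    rw [Finset.card_eq_sum_card_fiberwise (f := fun u : Vx Λ Γ Blk c f => u.1) (t := Finset.univ)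
      (fun _ _ => Finset.mem_univ _)]
    exact Finset.sum_congr rfl fun x _ => (hs x).symm
  have h2 : ∀ x, s x ≤ D := by
    intro x
    rw [hs]
    have h3 : (S.filter fun u => u.1 = x).card ≤ (Finset.univ : Finset (Slt Λ Γ c f)).card := by
      refine Finset.card_le_card_of_injOn (fun u => u.2) (fun _ _ => Finset.mem_univ _) ?_
      intro u hu v hv h
      have hu' := (Finset.mem_filter.1 (Finset.mem_coe.1 hu)).2
      have hv' := (Finset.mem_filter.1 (Finset.mem_coe.1 hv)).2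
      exact Prod.ext (hu'.trans hv'.symm) h
    refine h3.trans (le_of_eq ?_)
    rw [Finset.card_univ, Fintype.card_sum, Fintype.card_prod, Fintype.card_sum, Fintype.card_fin,
      Fintype.card_fin, hD]
  rw [h1, Finset.mul_sum, Finset.card_filter, Finset.card_filter, Finset.mul_sum, Finset.mul_sum,
    Finset.mul_sum, ← Finset.sum_add_distrib]
  refine Finset.sum_le_sum fun x _ => ?_
  have := h2 x
  split_ifs <;> omega

theorem exp_left (hp : Pairing pt dr) {D K T : ℕ}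
    (hD : D = Fintype.card Λ * (c + 1) + (Fintype.card Γ + f))
    (hK : 2 * (Fintype.card Λ * (c + 1)) + 2 * Fintype.card Γ + 2 * K + 2 ≤ D)
    (hK8 : D ≤ 8 * K) (hT : T ≤ D)
    {w : Λ → Blk → ℕ} (hw1 : ∀ l x, w l x ≤ bif dr l x then c + 1 else 1)
    (hw2 : ∀ x l l', dr l x = false → dr l' x = false → ctr l = ctr l' → 0 < w l x →
      0 < w l' x → l = l')
    (hcut : ∀ A : Finset Blk, T * min A.card (Fintype.card Blk - A.card) ≤ 2 * cutX pt w A)
    (S N : Finset (Vx Λ Γ Blk c f)) (hN : ∀ v, v ∈ N ↔ ∃ u ∈ S, XRel pt dr ctr c f u v)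
    (hS : 2 * S.card ≤ Fintype.card Blk * D) :
    (6 * D + T) * S.card ≤ 6 * D * N.card := by
  obtain ⟨s, hs⟩ : ∃ s : Blk → ℕ, ∀ x, s x = (S.filter fun u => u.1 = x).card := ⟨_, fun _ => rfl⟩
  have h1 := gain_left hp hD hK hw1 hw2 S N hN s hs
  have h2 := full_left hp hD hK S N hN s hs
  have h3 := exp_aux hD S s hs
  have h5 := hcut (Finset.univ.filter fun x => D < 2 * s x)
  have h6 := Finset.card_le_univ (Finset.univ.filter fun x => D < 2 * s x)
  exact exp_arith hT hK8 h1 h2 h3 hS h5 h6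

theorem exp_right (hp : Pairing pt dr) {D K T : ℕ}
    (hD : D = Fintype.card Λ * (c + 1) + (Fintype.card Γ + f))
    (hK : 2 * (Fintype.card Λ * (c + 1)) + 2 * Fintype.card Γ + 2 * K + 2 ≤ D)
    (hK8 : D ≤ 8 * K) (hT : T ≤ D)
    {w : Λ → Blk → ℕ} (hw1 : ∀ l x, w l x ≤ bif dr l x then 1 else c + 1)
    (hw2 : ∀ y l l', dr l y = false → dr l' y = false → ctr l = ctr l' → 0 < w l (pt l y) →
      0 < w l' (pt l' y) → l = l')
    (hcut : ∀ A : Finset Blk, T * min A.card (Fintype.card Blk - A.card) ≤ 2 * cutX pt w A)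
    (S N : Finset (Vx Λ Γ Blk c f)) (hN : ∀ u, u ∈ N ↔ ∃ v ∈ S, XRel pt dr ctr c f u v)
    (hS : 2 * S.card ≤ Fintype.card Blk * D) :
    (6 * D + T) * S.card ≤ 6 * D * N.card := by
  obtain ⟨s, hs⟩ : ∃ s : Blk → ℕ, ∀ x, s x = (S.filter fun u => u.1 = x).card := ⟨_, fun _ => rfl⟩
  have h1 := gain_right hp hD hK hw1 hw2 S N hN s hs
  have h2 := full_right hp hD hK S N hN s hs
  have h3 := exp_aux hD S s hs
  have h5 := hcut (Finset.univ.filter fun x => D < 2 * s x)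
  have h6 := Finset.card_le_univ (Finset.univ.filter fun x => D < 2 * s x)
  exact exp_arith hT hK8 h1 h2 h3 hS h5 h6

end Pool.Agent.Lib.Pa7c826q
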