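import Pool.Agent.Lib.Pa7c826q.Defs

/-!
From the abstract relation to the graph with numbered vertices: expansion.

Adapt Lib/Pa7c826s/XIso.lean (there `T = 1` and `4` instead of `6`).
-/

namespace Pool.Agent.Lib.Pa7c826q

open Pool.Agent.Lib.Pa7c826

private theorem xi_real {D T s N : ℕ} (hD : 0 < D) (h : (6 * D + T) * s ≤ 6 * D * N) :
    (1 + (T : ℝ) / (6 * (D : ℝ))) * (s : ℝ) ≤ N := by
  have hD0 : (0 : ℝ) < D := by exact_mod_cast hD
  have h1 : (6 * (D : ℝ) + T) * s ≤ 6 * D * N := by exact_mod_cast h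
  have h2 : (1 + (T : ℝ) / (6 * (D : ℝ))) * (s : ℝ) = ((6 * (D : ℝ) + T) * s) / (6 * D) := by
    field_simp
  rw [h2, div_le_iff₀ (by positivity)]
  linarith

private theorem xi_mem_nbR (G : BGraph) (S : Finset (Fin G.a)) (j : Fin G.b) :
    j ∈ Pool.Agent.Lib.Pa7c826x.nbR G S ↔ ∃ i ∈ S, G.E i j = true := by
  unfold Pool.Agent.Lib.Pa7c826x.nbR
  simp

private theorem xi_mem_nbL (G : BGraph) (S : Finset (Fin G.b)) (j : Fin G.a) :
    j ∈ Pool.Agent.Lib.Pa7c826x.nbL G S ↔ ∃ i ∈ S, G.E j i = true := by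
  unfold Pool.Agent.Lib.Pa7c826x.nbL
  simp

theorem isExpander_mkGraph {V : Type} {n D T : ℕ} {F : ℕ → ℕ → Bool} {E : V → V → Prop}
    (e : V ≃ Fin n) (h : ∀ x y, E x y ↔ F (e x) (e y) = true) (hD : 0 < D)
    (hl : ∀ S N : Finset V, (∀ v, v ∈ N ↔ ∃ u ∈ S, E u v) → 2 * S.card ≤ n →
      (6 * D + T) * S.card ≤ 6 * D * N.card)
    (hr : ∀ S N : Finset V, (∀ u, u ∈ N ↔ ∃ v ∈ S, E u v) → 2 * S.card ≤ n →
      (6 * D + T) * S.card ≤ 6 * D * N.card) :
    Pool.Agent.Lib.Pa7c826x.IsExpander ((T : ℕ) / (6 * (D : ℕ)) : ℝ) (mkGraph n n F) := by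
  constructor
  · intro S hS
    change Finset (Fin n) at S
    set N : Finset (Fin n) := Pool.Agent.Lib.Pa7c826x.nbR (mkGraph n n F) S with hN
    have h1 := hl (S.map e.symm.toEmbedding) (N.map e.symm.toEmbedding) (fun v => by
      have hv : v ∈ N.map e.symm.toEmbedding ↔ e v ∈ N := by
        rw [Finset.mem_map_equiv, Equiv.symm_symm]
      have hm : e v ∈ N ↔ ∃ i : Fin n, i ∈ S ∧ F i (e v) = true :=
        xi_mem_nbR (mkGraph n n F) S (e v)
      rw [hv, hm]
      constructor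
      · rintro ⟨i, hi, hi'⟩
        refine ⟨e.symm i, ?_, ?_⟩
        · rw [Finset.mem_map_equiv, Equiv.symm_symm, Equiv.apply_symm_apply]
          exact hi
        · rw [h, Equiv.apply_symm_apply]
          exact hi'
      · rintro ⟨u, hu, hu'⟩
        rw [Finset.mem_map_equiv, Equiv.symm_symm] at hu
        exact ⟨e u, hu, (h u v).1 hu'⟩) (by
      rw [Finset.card_map]
      exact hS)
    rw [Finset.card_map, Finset.card_map] at h1
    exact xi_real hD h1
  · intro S hS
    change Finset (Fin n) at S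
    set N : Finset (Fin n) := Pool.Agent.Lib.Pa7c826x.nbL (mkGraph n n F) S with hN
    have h1 := hr (S.map e.symm.toEmbedding) (N.map e.symm.toEmbedding) (fun v => by
      have hv : v ∈ N.map e.symm.toEmbedding ↔ e v ∈ N := by
        rw [Finset.mem_map_equiv, Equiv.symm_symm]
      have hm : e v ∈ N ↔ ∃ i : Fin n, i ∈ S ∧ F (e v) i = true :=
        xi_mem_nbL (mkGraph n n F) S (e v)
      rw [hv, hm]
      constructor
      · rintro ⟨i, hi, hi'⟩
        refine ⟨e.symm i, ?_, ?_⟩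
        · rw [Finset.mem_map_equiv, Equiv.symm_symm, Equiv.apply_symm_apply]
          exact hi
        · rw [h, Equiv.apply_symm_apply]
          exact hi'
      · rintro ⟨u, hu, hu'⟩
        rw [Finset.mem_map_equiv, Equiv.symm_symm] at hu
        exact ⟨e u, hu, (h v u).1 hu'⟩) (by
      rw [Finset.card_map]
      exact hS)
    rw [Finset.card_map, Finset.card_map] at h1
    exact xi_real hD h1

end Pool.Agent.Lib.Pa7c826q
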