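import Pool.Agent.Lib.Pa7c826q.XDeg
import Pool.Agent.Lib.Pa7c826q.XExp
import Pool.Agent.Lib.Pa7c826q.XIso
import Pool.Agent.Lib.Pa7c826q.SCut
import Pool.Agent.Lib.Pa7c826q.NumFin
import Pool.Agent.Lib.Pa7c826q.SIdx
import Pool.Agent.Lib.Pa7c826q.SSize
import Pool.Agent.Lib.Pa7c826q.SPolyA
import Pool.Agent.Lib.Pa7c826q.SPolyB
import Pool.Agent.Lib.Pa7c826.Transfer2
import Pool.Agent.Lib.Pa7c826t.FTransfer
import Pool.Agent.Lib.Pa7c826t.FMono

/-!
The reduction to regular expanders of expansion about `log d / d`.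
-/

namespace Pool.Agent.Lib.Pa7c826q

open Pool.Agent.Lib.PolyTime Pool.Agent.Lib.Pa7c826
open Pool.Agent.Lib.Pa7c826t (HasFPTAS.transfer2 HasFPTAS.mono)

section

variable {p q : ℕ}

theorem hab_of (G : BGraph) (t : ℕ) : G.a + G.b ≤ 2 ^ Lq q G.a G.b t := by
  have := (size1 q G.a G.b t).1
  omega

/-- the abstract relation of the reduction -/
abbrev relQ (hp : 0 < p) (hpq : p < q) (G : BGraph) (t : ℕ) :=
  XRel (spt (κ := kq p q (Lq q G.a G.b t)) (T := 4 * Lq q G.a G.b t - 1)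
      (R := Rq p q (Lq q G.a G.b t)) (size2 hp hpq (size1 q G.a G.b t).2) (hab_of G t) G.E)
    (sdr (hab_of G t)) sctr (cq p q (Lq q G.a G.b t)) (fq p q G.a G.b (Lq q G.a G.b t))

theorem T1 (q a b t : ℕ) : 4 * Lq q a b t - 1 + 1 = Nq (Lq q a b t) := by
  have := (size1 q a b t).2
  unfold Nq
  omega

/-- numbering of the vertices of one side -/
noncomputable def eQ (hp : 0 < p) (hpq : p < q) (G : BGraph) (t : ℕ) :
    Vx (SL (kq p q (Lq q G.a G.b t)) (4 * Lq q G.a G.b t - 1) (mS (4 * Lq q G.a G.b t)) G.a G.b)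
      (SG (kq p q (Lq q G.a G.b t)) (4 * Lq q G.a G.b t - 1))
      (SB (kq p q (Lq q G.a G.b t)) (Lq q G.a G.b t) (mS (4 * Lq q G.a G.b t))
        (Rq p q (Lq q G.a G.b t)))
      (cq p q (Lq q G.a G.b t)) (fq p q G.a G.b (Lq q G.a G.b t)) ≃
    Fin (nq p q (Lq q G.a G.b t)) :=
  (eSV (kq p q (Lq q G.a G.b t)) (Lq q G.a G.b t) (4 * Lq q G.a G.b t - 1)
    (mS (4 * Lq q G.a G.b t)) (Rq p q (Lq q G.a G.b t)) G.a G.b (cq p q (Lq q G.a G.b t))
    (fq p q G.a G.b (Lq q G.a G.b t))).trans (finCongr (by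
      have h1 := size4 (a := G.a) (b := G.b) (t := t) hp hpq (size1 q G.a G.b t).2
        (size1 q G.a G.b t).1
      have h2 := size2 hp hpq (size1 q G.a G.b t).2
      rw [T1, h2]
      unfold sq at h1
      unfold nq
      have e : Nq (Lq q G.a G.b t) = 4 * Lq q G.a G.b t := rfl
      rw [e] at h1 ⊢
      rw [h1]
      ring))

theorem slots_eq (hp : 0 < p) (hpq : p < q) (G : BGraph) (t : ℕ) :
    LL (kq p q (Lq q G.a G.b t)) (4 * Lq q G.a G.b t - 1 + 1) (mS (4 * Lq q G.a G.b t)) G.a G.b *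
      (cq p q (Lq q G.a G.b t) + 1) + (GG (kq p q (Lq q G.a G.b t)) (4 * Lq q G.a G.b t - 1 + 1) +
        fq p q G.a G.b (Lq q G.a G.b t)) = Dq p q (Lq q G.a G.b t) := by
  rw [T1]
  exact size4 (a := G.a) (b := G.b) (t := t) hp hpq (size1 q G.a G.b t).2 (size1 q G.a G.b t).1

theorem relQ_iff (hp : 0 < p) (hpq : p < q) (G : BGraph) (t : ℕ) (x y) :
    relQ hp hpq G t x y ↔
      F6 (kq p q (Lq q G.a G.b t)) (2 ^ kq p q (Lq q G.a G.b t)) (2 ^ Lq q G.a G.b t)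
      (Nq (Lq q G.a G.b t)) (mS (Nq (Lq q G.a G.b t))) (gq (Lq q G.a G.b t)) G.a G.b
      (cq p q (Lq q G.a G.b t) + 1) (Dq p q (Lq q G.a G.b t))
      (sq p q G.a G.b (Lq q G.a G.b t)) G.F (eQ hp hpq G t x) (eQ hp hpq G t y) = true := by
  have h := F6_iff (T := 4 * Lq q G.a G.b t - 1) (c := cq p q (Lq q G.a G.b t))
    (f := fq p q G.a G.b (Lq q G.a G.b t))
    (size2 hp hpq (size1 q G.a G.b t).2) (hab_of G t) G.E G.F (fun x y => G.F_eq x y) x y
  have hx : ∀ z, ((eSV (kq p q (Lq q G.a G.b t)) (Lq q G.a G.b t) (4 * Lq q G.a G.b t - 1)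
    (mS (4 * Lq q G.a G.b t)) (Rq p q (Lq q G.a G.b t)) G.a G.b (cq p q (Lq q G.a G.b t))
    (fq p q G.a G.b (Lq q G.a G.b t)) z : Fin _) : ℕ) = (eQ hp hpq G t z : ℕ) := fun z => rfl
  rw [hx x, hx y, slots_eq hp hpq, T1] at h
  exact h

theorem numIndep_redQ (hp : 0 < p) (hpq : p < q) (G : BGraph) (t : ℕ) :
    numIndep (redQ p q G t).graph = cnt (relQ hp hpq G t) :=
  numIndep_mkGraph (eQ hp hpq G t) (eQ hp hpq G t) (relQ_iff hp hpq G t)

theorem cnt_edges (G : BGraph) : cnt (fun x y => G.E x y = true) = numIndep G.graph := by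
  unfold BGraph.graph
  rw [numIndep_bip]

theorem redQ_estimate (hp : 0 < p) (hpq : p < q) (G : BGraph) (t : ℕ) :
    |(numIndep (redQ p q G t).graph : ℚ) / 2 ^ KQ p q G t - numIndep G.graph| ≤
      numIndep G.graph / (2 * t + 1) := by
  obtain ⟨hL1, hL2⟩ := size1 q G.a G.b t
  have hT : 4 * Lq q G.a G.b t - 1 + 1 = 4 * Lq q G.a G.b t := by omega
  have hf := size3 (a := G.a) (b := G.b) (t := t) hp hpq hL2 hL1
  have h4 := size4 (a := G.a) (b := G.b) (t := t) hp hpq hL2 hL1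
  have h1 := sfinal (κ := kq p q (Lq q G.a G.b t)) (L := Lq q G.a G.b t)
    (T := 4 * Lq q G.a G.b t - 1) (m := mS (4 * Lq q G.a G.b t)) (R := Rq p q (Lq q G.a G.b t))
    (t := t) (c := cq p q (Lq q G.a G.b t)) (f := fq p q G.a G.b (Lq q G.a G.b t))
    (size2 hp hpq hL2) (hab_of G t) G.E (by omega) hT rfl rfl hL1
    (by rw [cnt_edges]; exact one_le_numIndep G) (by
      rw [T1]
      unfold sq at hf h4
      have e : Nq (Lq q G.a G.b t) = 4 * Lq q G.a G.b t := rfl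
      rw [e] at hf h4 ⊢
      omega)
  rw [cnt_edges, slots_eq hp hpq] at h1
  rw [numIndep_redQ hp hpq]
  exact h1

theorem redQ_class (hp : 0 < p) (hpq : p < q) (G : BGraph) (t : ℕ) :
    LogExpander p q (redQ p q G t) := by
  obtain ⟨hL1, hL2⟩ := size1 q G.a G.b t
  have hsl := slots_eq hp hpq G t
  have h3 := size3 (a := G.a) (b := G.b) (t := t) hp hpq hL2 hL1
  have h6 := size6 hp hpq hL2
  have hR := size2 hp hpq hL2
  have hpair := spair (T := 4 * Lq q G.a G.b t - 1) hR (hab_of G t) G.E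
  have hcard : Dq p q (Lq q G.a G.b t) =
      Fintype.card (SL (kq p q (Lq q G.a G.b t)) (4 * Lq q G.a G.b t - 1)
        (mS (4 * Lq q G.a G.b t)) G.a G.b) * (cq p q (Lq q G.a G.b t) + 1) +
      (Fintype.card (SG (kq p q (Lq q G.a G.b t)) (4 * Lq q G.a G.b t - 1)) +
        fq p q G.a G.b (Lq q G.a G.b t)) := by
    rw [card_SL, card_SG, hsl]
  have hDpos : 0 < Dq p q (Lq q G.a G.b t) := by
    unfold Dq
    positivity
  have hsq : LL (kq p q (Lq q G.a G.b t)) (4 * Lq q G.a G.b t - 1 + 1)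
      (mS (4 * Lq q G.a G.b t)) G.a G.b * (cq p q (Lq q G.a G.b t) + 1) =
      sq p q G.a G.b (Lq q G.a G.b t) := by
    rw [T1]
    rfl
  have hGG : GG (kq p q (Lq q G.a G.b t)) (4 * Lq q G.a G.b t - 1 + 1) =
      GG (kq p q (Lq q G.a G.b t)) (Nq (Lq q G.a G.b t)) := by
    rw [T1]
  have hK : 2 * (Fintype.card (SL (kq p q (Lq q G.a G.b t)) (4 * Lq q G.a G.b t - 1)
        (mS (4 * Lq q G.a G.b t)) G.a G.b) * (cq p q (Lq q G.a G.b t) + 1)) +
      2 * Fintype.card (SG (kq p q (Lq q G.a G.b t)) (4 * Lq q G.a G.b t - 1)) +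
      2 * (Dq p q (Lq q G.a G.b t) / 8 + 1) + 2 ≤ Dq p q (Lq q G.a G.b t) := by
    rw [card_SL, card_SG, hsq, hGG]
    omega
  have hK8 : Dq p q (Lq q G.a G.b t) ≤ 8 * (Dq p q (Lq q G.a G.b t) / 8 + 1) := by omega
  have hT : Nq (Lq q G.a G.b t) ≤ Dq p q (Lq q G.a G.b t) := by omega
  have hTc : 4 * Lq q G.a G.b t - 1 ≤ cq p q (Lq q G.a G.b t) := by
    unfold cq gq
    have h7 : Lq q G.a G.b t < 2 ^ Lq q G.a G.b t := Nat.lt_two_pow_self
    have h8 : 2 ^ Lq q G.a G.b t ≤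
        (mS (Nq (Lq q G.a G.b t)) + 1) * 2 ^ Lq q G.a G.b t :=
      Nat.le_mul_of_pos_left _ (Nat.succ_pos _)
    omega
  refine ⟨Dq p q (Lq q G.a G.b t),
    ((Nq (Lq q G.a G.b t) : ℕ) : ℝ) / (6 * ((Dq p q (Lq q G.a G.b t) : ℕ) : ℝ)),
    ?_, ?_, ?_, ?_, ?_⟩
  · intro i
    obtain ⟨x, hx⟩ := (eQ hp hpq G t).surjective i
    have h1 := rowDeg_mkGraph (eQ hp hpq G t) (eQ hp hpq G t) (relQ_iff hp hpq G t) x
    have h2 : (redQ p q G t).rowDeg i = {y | relQ hp hpq G t x y}.ncard := by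
      rw [← hx]; exact h1
    rw [h2, ldeg_x hpair x, hcard]
  · intro i
    obtain ⟨x, hx⟩ := (eQ hp hpq G t).surjective i
    have h1 := colDeg_mkGraph (eQ hp hpq G t) (eQ hp hpq G t) (relQ_iff hp hpq G t) x
    have h2 : (redQ p q G t).colDeg i = {y | relQ hp hpq G t y x}.ncard := by
      rw [← hx]; exact h1
    rw [h2, rdeg_x hpair x, hcard]
  · exact size5 hp hpq hL2
  · have hn : nq p q (Lq q G.a G.b t) =
        Fintype.card (SB (kq p q (Lq q G.a G.b t)) (Lq q G.a G.b t)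
          (mS (4 * Lq q G.a G.b t)) (Rq p q (Lq q G.a G.b t))) * Dq p q (Lq q G.a G.b t) := by
      rw [card_SB hR]
      rfl
    have hTT : Nq (Lq q G.a G.b t) = 4 * Lq q G.a G.b t - 1 + 1 := (T1 q G.a G.b t).symm
    refine isExpander_mkGraph (eQ hp hpq G t) (relQ_iff hp hpq G t) hDpos
      (fun S N hN hS => ?_) (fun S N hN hS => ?_)
    · refine exp_left hpair hcard hK hK8 hT (wL1 (hab_of G t) _) (wL2 (hab_of G t) _)
        (fun A => ?_) S N hN (by rw [← hn]; exact hS)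
      rw [hTT]
      exact scutL hR (hab_of G t) G.E hTc A
    · refine exp_right hpair hcard hK hK8 hT (wR1 (hab_of G t) _)
        (wR2 hR (hab_of G t) G.E _) (fun A => ?_) S N hN (by rw [← hn]; exact hS)
      rw [hTT]
      exact scutR hR (hab_of G t) G.E hTc A
  · have hD0 : (0 : ℝ) < (Dq p q (Lq q G.a G.b t) : ℕ) := by exact_mod_cast hDpos
    have e1 : ((Nq (Lq q G.a G.b t) : ℕ) : ℝ) / (6 * ((Dq p q (Lq q G.a G.b t) : ℕ) : ℝ)) *
        ((Dq p q (Lq q G.a G.b t) : ℕ) : ℝ) = (Nq (Lq q G.a G.b t) : ℝ) / 6 := by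
      field_simp
    rw [e1]
    have h7 : ((min (Nat.log 2 (Dq p q (Lq q G.a G.b t))) (Nat.log 2
        ((nq p q (Lq q G.a G.b t) + nq p q (Lq q G.a G.b t)) /
          Dq p q (Lq q G.a G.b t))) : ℕ) : ℝ) ≤ 17 * (Lq q G.a G.b t : ℝ) := by
      exact_mod_cast h6
    have e2 : ((Nq (Lq q G.a G.b t) : ℕ) : ℝ) = 4 * (Lq q G.a G.b t : ℝ) := by
      unfold Nq
      push_cast
      ring
    rw [e2]
    refine h7.trans ?_
    have h8 : (0 : ℝ) ≤ (Lq q G.a G.b t : ℝ) := Nat.cast_nonneg _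
    linarith

theorem poly_redQ (hp : 0 < p) (hpq : p < q) (D : BGraph × ℕ → Prop) :
    PolyC D [fun x => inCode x.1 x.2] (fun x => inCode (redQ p q x.1 x.2) (2 * x.2)) := by
  have hw : PolyC D [fun x => inCode x.1 x.2] (fun x => inCode x.1 x.2) := PolyC.var (by simp)
  have ha := poly_a hw
  have hb := poly_b hw
  have ht := poly_s hw
  have hn := poly_nq hp hpq ha hb ht
  refine poly_inCode hn hn ((PolyN.const 2).mul ht) ?_
  let n1 : BGraph × ℕ → ℕ := fun x => nq p q (Lq q x.1.a x.1.b x.2)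
  have W2 := up (n := fun y : (BGraph × ℕ) × ℕ => n1 y.1) (up (n := n1) hw)
  have I2 := upN (n := fun y : (BGraph × ℕ) × ℕ => n1 y.1)
    (last (D := D) (ctx := [fun x => inCode x.1 x.2]) (n := n1))
  have J2 := last (D := fun y : (BGraph × ℕ) × ℕ => D y.1 ∧ y.2 < n1 y.1)
    (ctx := PolyTime.lift [fun x : BGraph × ℕ => inCode x.1 x.2] ++
      [fun p : (BGraph × ℕ) × ℕ => un p.2]) (n := fun y : (BGraph × ℕ) × ℕ => n1 y.1)
  have a2 := poly_a W2
  have b2 := poly_b W2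
  have t2 := poly_s W2
  exact poly_F6 W2 (poly_kq hp hpq a2 b2 t2) (poly_two_kq hp hpq a2 b2 t2)
    (poly_two_Lq q a2 b2 t2) ((PolyN.const 4).mul (poly_Lq q a2 b2 t2)) (poly_mS q a2 b2 t2)
    (poly_gq q a2 b2 t2) ((poly_cq hp hpq a2 b2 t2).add (PolyN.const 1))
    (poly_Dq hp hpq a2 b2 t2) (poly_sq hp hpq a2 b2 t2) I2 J2

theorem poly_KQ (hp : 0 < p) (hpq : p < q) (D : BGraph × ℕ → Prop) :
    PolyN D [fun x => inCode x.1 x.2] (fun x => KQ p q x.1 x.2) := by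
  have hw : PolyC D [fun x => inCode x.1 x.2] (fun x => inCode x.1 x.2) := PolyC.var (by simp)
  have ha := poly_a hw
  have hb := poly_b hw
  have ht := poly_s hw
  exact (poly_nq hp hpq ha hb ht).add (PolyN.sub (poly_two_Lq q ha hb ht) (ha.add hb))

theorem logExpander_iff (hp : 0 < p) (hpq : p < q) :
    (HasFPRAS (LogExpander p q) ↔ HasFPRAS (fun _ => True)) ∧
    (HasFPTAS (LogExpander p q) ↔ HasFPTAS (fun _ => True)) := by
  refine ⟨⟨fun h => ?_, HasFPRAS.mono (fun _ _ => trivial)⟩,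
    fun h => ?_, HasFPTAS.mono (fun _ _ => trivial)⟩
  · exact HasFPRAS.transfer2 (redQ p q) (KQ p q) (poly_redQ hp hpq _) (poly_KQ hp hpq _)
      (fun G t _ _ => redQ_class hp hpq G t) (fun G t _ _ => redQ_estimate hp hpq G t) h
  · exact HasFPTAS.transfer2 (redQ p q) (KQ p q) (poly_redQ hp hpq _) (poly_KQ hp hpq _)
      (fun G t _ _ => redQ_class hp hpq G t) (fun G t _ _ => redQ_estimate hp hpq G t) h

end

end Pool.Agent.Lib.Pa7c826q
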