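import Pool.Agent.Lib.Pa7c826q.WUp

/-!
The sum over the states of the hubs.

Proof. With `A = {τ | h τ = true}` one has `cutE h = ∑ i, ∑ τ ∈ A, (0 or 1)`, so
`min |A| (2 ^ κ - |A|) ≤ cutE h` by `cube` (Lib/Pa7c826s/Cube.lean) and
`q ^ cutE h ≤ q ^ |A| + q ^ (2 ^ κ - |A|)`. The sum of `q ^ |A|` over all `A` is `(1 + q) ^ 2 ^ κ`
(`Finset.sum_pow_mul_eq_add_pow` or a product of sums), and the sets `A = ∅`, `A = univ` are
excluded.
-/

namespace Pool.Agent.Lib.Pa7c826q

open Pool.Agent.Lib.Pa7c826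
open Pool.Agent.Lib.Pa7c826s (flip cube)

theorem min_le_cutE {κ : ℕ} (h : Fin (2 ^ κ) → Bool) :
    min (Finset.univ.filter fun τ => h τ = true).card
      (2 ^ κ - (Finset.univ.filter fun τ => h τ = true).card) ≤ cutE h := by
  refine (cube (Finset.univ.filter fun τ => h τ = true)).trans (le_of_eq ?_)
  unfold cutE
  rw [Finset.card_filter, Fintype.sum_prod_type]
  refine Finset.sum_congr rfl fun i _ => ?_
  rw [Finset.sum_filter]
  refine Finset.sum_congr rfl fun τ _ => ?_
  by_cases h1 : h τ = true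
  · by_cases h2 : h (flip i τ) = true
    · simp [h1, h2]
    · rw [Bool.not_eq_true] at h2
      simp [h1, h2]
  · simp [h1]

namespace SumHAux

/-- number of hubs in the state `b` -/
def cnt {κ : ℕ} (b : Bool) (h : Fin (2 ^ κ) → Bool) : ℕ :=
  (Finset.univ.filter fun τ => h τ = b).card

theorem sum_cnt {κ : ℕ} (q : ℚ) (b : Bool) :
    ∑ h : Fin (2 ^ κ) → Bool, q ^ cnt b h = (1 + q) ^ 2 ^ κ := by
  have h1 : ∀ h : Fin (2 ^ κ) → Bool, q ^ cnt b h = ∏ τ, if h τ = b then q else 1 := by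
    intro h
    rw [Finset.prod_ite, Finset.prod_const, Finset.prod_const_one, mul_one]
    rfl
  rw [Finset.sum_congr rfl fun h _ => h1 h]
  have h2 := Finset.prod_univ_sum (fun _ : Fin (2 ^ κ) => (Finset.univ : Finset Bool))
    (fun _ e => if e = b then q else (1 : ℚ))
  rw [Fintype.piFinset_univ] at h2
  rw [← h2]
  have h3 : ∑ e : Bool, (if e = b then q else (1 : ℚ)) = 1 + q := by
    cases b <;> simp [add_comm]
  rw [Finset.prod_const, h3, Finset.card_univ, Fintype.card_fin]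

theorem cnt_true_add {κ : ℕ} (h : Fin (2 ^ κ) → Bool) : cnt true h + cnt false h = 2 ^ κ := by
  have h1 := Finset.card_filter_add_card_filter_not (s := (Finset.univ : Finset (Fin (2 ^ κ))))
    (fun τ => h τ = true)
  rw [Finset.card_univ, Fintype.card_fin] at h1
  unfold cnt
  refine Eq.trans ?_ h1
  congr 2
  ext τ
  simp

theorem cnt_const {κ : ℕ} (b : Bool) : cnt (!b) (fun _ : Fin (2 ^ κ) => b) = 0 := by
  unfold cnt
  rw [Finset.card_eq_zero, Finset.filter_eq_empty_iff]
  intro τ _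
  cases b <;> simp

theorem sum_part {κ : ℕ} {q : ℚ} (h0 : 0 ≤ q) (b : Bool)
    (S : Finset (Fin (2 ^ κ) → Bool)) (hS : (fun _ => b) ∉ S) :
    ∑ h ∈ S, q ^ cnt (!b) h ≤ (1 + q) ^ 2 ^ κ - 1 := by
  have h1 : ∑ h ∈ insert (fun _ => b) S, q ^ cnt (!b) h ≤
      ∑ h : Fin (2 ^ κ) → Bool, q ^ cnt (!b) h :=
    Finset.sum_le_sum_of_subset_of_nonneg (Finset.subset_univ _) fun _ _ _ => pow_nonneg h0 _
  rw [Finset.sum_insert hS, cnt_const, pow_zero, sum_cnt] at h1
  linarith

end SumHAux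

open SumHAux in
theorem sum_hub {κ : ℕ} {q : ℚ} (h0 : 0 ≤ q) (h1 : q ≤ 1) :
    ∑ h ∈ (Finset.univ.erase (fun _ : Fin (2 ^ κ) => true)).erase (fun _ => false),
      q ^ cutE h ≤ 2 * ((1 + q) ^ 2 ^ κ - 1) := by
  have key : ∀ h : Fin (2 ^ κ) → Bool, q ^ cutE h ≤ q ^ cnt true h + q ^ cnt false h := by
    intro h
    have hm := min_le_cutE h
    have hc := cnt_true_add h
    have e : 2 ^ κ - (Finset.univ.filter fun τ => h τ = true).card = cnt false h := by
      change 2 ^ κ - cnt true h = cnt false h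
      omega
    rw [e] at hm
    change min (cnt true h) (cnt false h) ≤ cutE h at hm
    have p1 : 0 ≤ q ^ cnt true h := pow_nonneg h0 _
    have p2 : 0 ≤ q ^ cnt false h := pow_nonneg h0 _
    rcases le_total (cnt true h) (cnt false h) with hl | hl
    · rw [min_eq_left hl] at hm
      have := pow_le_pow_of_le_one h0 h1 hm
      linarith
    · rw [min_eq_right hl] at hm
      have := pow_le_pow_of_le_one h0 h1 hm
      linarith
  refine (Finset.sum_le_sum fun h _ => key h).trans ?_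
  rw [Finset.sum_add_distrib]
  have a1 := sum_part (κ := κ) h0 false
    ((Finset.univ.erase (fun _ : Fin (2 ^ κ) => true)).erase (fun _ => false)) (by simp)
  have a2 := sum_part (κ := κ) h0 true
    ((Finset.univ.erase (fun _ : Fin (2 ^ κ) => true)).erase (fun _ => false)) (by simp)
  simp only [Bool.not_false, Bool.not_true] at a1 a2
  linarith

end Pool.Agent.Lib.Pa7c826q
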