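import Pool.Agent.Lib.Pa7c826q.SumG
import Pool.Agent.Lib.Pa7c826q.SumH

/-!
Upper and lower bound of the sum over all states.

Proof. `mkSt` is a bijection from the triples `(h, u, w)` onto the states. For the constant
functions `h` use `wup_true` and `wup_false`; for the other `h` use `wup` and `sum_hub`, bounding
the number of the `u` by `2 ^ ((m + 1) * 2 ^ L)`. The sum over `w` of
`∏ r, if h (eP hR (.inr r)) = w r then 1 else q` is `(1 + q) ^ R`; in the case `h = true` the sum
over `u` and `w` is `(1 + q) ^ ((m + 1) * 2 ^ L) * (1 + q) ^ R = (1 + q) ^ 2 ^ κ`.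
The lower bound: `wlow` for the good `u`, `wgt_nonneg` for the rest.
-/

namespace Pool.Agent.Lib.Pa7c826q

open Pool.Agent.Lib.Pa7c826
open Pool.Agent.Lib.Pa7c826s (Pairing cutX)

variable {κ L T m R a b : ℕ}

namespace STotAux

theorem sumB {ι : Type} [Fintype ι] [DecidableEq ι] (g : ι → Bool → ℚ) :
    ∑ u : ι → Bool, ∏ z, g z (u z) = ∏ z, (g z true + g z false) := by
  have h := Finset.prod_univ_sum (fun _ : ι => (Finset.univ : Finset Bool)) g
  rw [Fintype.piFinset_univ] at h
  rw [← h]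
  apply Finset.prod_congr rfl
  intro z _
  rw [Fintype.sum_bool]

/-- all states from the triples -/
def eSt (κ L m R : ℕ) : ((Fin (2 ^ κ) → Bool) × ((Fin (m + 1) × Fin (2 ^ L) → Bool) ×
    (Fin R → Bool))) ≃ (SB κ L m R → Bool) where
  toFun := fun p => mkSt p.1 p.2.1 p.2.2
  invFun := fun σ => (fun τ => σ (.inl τ), fun z => σ (.inr (.inl z)), fun r => σ (.inr (.inr r)))
  left_inv := fun _ => rfl
  right_inv := fun σ => by
    funext x
    rcases x with τ | z | r <;> rfl

theorem sum_st (F : (SB κ L m R → Bool) → ℚ) :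
    ∑ σ, F σ = ∑ h : Fin (2 ^ κ) → Bool, ∑ u : Fin (m + 1) × Fin (2 ^ L) → Bool,
      ∑ w : Fin R → Bool, F (mkSt h u w) := by
  rw [← Equiv.sum_comp (eSt κ L m R) F, Fintype.sum_prod_type]
  apply Finset.sum_congr rfl
  intro h _
  rw [Fintype.sum_prod_type]
  rfl

end STotAux

theorem tot_upper (hR : (m + 1) * 2 ^ L + R = 2 ^ κ) (hab : a + b ≤ 2 ^ L)
    (E : Fin a → Fin b → Bool) (c : ℕ) :
    ∑ σ : SB κ L m R → Bool, wgt (spt (T := T) hR hab E) (sdr hab) sctr c σ ≤
      (1 + hh c) ^ R * (∑ u, Phi (m := m) T c hab E u) + (1 + hh c) ^ 2 ^ κ +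
        (1 + hh c) ^ R * (2 ^ ((m + 1) * 2 ^ L) * (2 * ((1 + hh c) ^ 2 ^ κ - 1))) := by
  classical
  have hq0 : 0 ≤ hh c := (hh_pos c).le
  have hq1 : hh c ≤ 1 := hh_le_one c
  rw [STotAux.sum_st]
  have hne : (fun _ : Fin (2 ^ κ) => false) ≠ (fun _ => true) := by
    intro h
    have h1 := congrFun h ⟨0, by positivity⟩
    exact absurd h1 (by simp)
  rw [← Finset.add_sum_erase Finset.univ _ (Finset.mem_univ (fun _ : Fin (2 ^ κ) => true)),
    ← Finset.add_sum_erase (Finset.univ.erase (fun _ : Fin (2 ^ κ) => true)) _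
      (Finset.mem_erase.2 ⟨hne, Finset.mem_univ _⟩)]
  have hA : (∑ u : Fin (m + 1) × Fin (2 ^ L) → Bool, ∑ w : Fin R → Bool,
      wgt (spt (T := T) hR hab E) (sdr hab) sctr c (mkSt (fun _ => true) u w)) ≤
      (1 + hh c) ^ 2 ^ κ := by
    calc (∑ u : Fin (m + 1) × Fin (2 ^ L) → Bool, ∑ w : Fin R → Bool,
        wgt (spt (T := T) hR hab E) (sdr hab) sctr c (mkSt (fun _ => true) u w))
        ≤ ∑ u : Fin (m + 1) × Fin (2 ^ L) → Bool, ∑ w : Fin R → Bool,
          (∏ z, if u z = true then 1 else hh c) * ∏ r, if w r = true then 1 else hh c :=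
          Finset.sum_le_sum fun u _ => Finset.sum_le_sum fun w _ => wup_true hR hab E c u w
      _ = (∑ u : Fin (m + 1) × Fin (2 ^ L) → Bool, ∏ z, if u z = true then 1 else hh c) *
          ∑ w : Fin R → Bool, ∏ r, if w r = true then 1 else hh c := by
          rw [Finset.sum_mul_sum]
      _ = (1 + hh c) ^ 2 ^ κ := by
          rw [STotAux.sumB (fun _ b => if b = true then 1 else hh c),
            STotAux.sumB (fun _ b => if b = true then 1 else hh c)]
          simp only [if_true, Bool.false_eq_true, if_false, Finset.prod_const, Finset.card_univ,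
            Fintype.card_prod, Fintype.card_fin]
          rw [← pow_add, hR]
  have hB : (∑ u : Fin (m + 1) × Fin (2 ^ L) → Bool, ∑ w : Fin R → Bool,
      wgt (spt (T := T) hR hab E) (sdr hab) sctr c (mkSt (fun _ => false) u w)) ≤
      (1 + hh c) ^ R * (∑ u, Phi (m := m) T c hab E u) := by
    calc (∑ u : Fin (m + 1) × Fin (2 ^ L) → Bool, ∑ w : Fin R → Bool,
        wgt (spt (T := T) hR hab E) (sdr hab) sctr c (mkSt (fun _ => false) u w))
        ≤ ∑ u : Fin (m + 1) × Fin (2 ^ L) → Bool, ∑ w : Fin R → Bool,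
          Phi T c hab E u * ∏ r, if w r = true then hh c else 1 :=
          Finset.sum_le_sum fun u _ => Finset.sum_le_sum fun w _ => wup_false hR hab E c u w
      _ = (∑ u : Fin (m + 1) × Fin (2 ^ L) → Bool, Phi T c hab E u) *
          ∑ w : Fin R → Bool, ∏ r, if w r = true then hh c else 1 := by
          rw [Finset.sum_mul_sum]
      _ = (1 + hh c) ^ R * (∑ u, Phi (m := m) T c hab E u) := by
          rw [STotAux.sumB (fun _ b => if b = true then hh c else 1)]
          simp only [if_true, Bool.false_eq_true, if_false, Finset.prod_const, Finset.card_univ,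
            Fintype.card_fin]
          rw [mul_comm, add_comm (hh c) 1]
  have hC : (∑ h ∈ (Finset.univ.erase (fun _ : Fin (2 ^ κ) => true)).erase (fun _ => false),
      ∑ u : Fin (m + 1) × Fin (2 ^ L) → Bool, ∑ w : Fin R → Bool,
      wgt (spt (T := T) hR hab E) (sdr hab) sctr c (mkSt h u w)) ≤
      (1 + hh c) ^ R * (2 ^ ((m + 1) * 2 ^ L) * (2 * ((1 + hh c) ^ 2 ^ κ - 1))) := by
    have h1 : ∀ h : Fin (2 ^ κ) → Bool, (∑ u : Fin (m + 1) × Fin (2 ^ L) → Bool,
        ∑ w : Fin R → Bool, wgt (spt (T := T) hR hab E) (sdr hab) sctr c (mkSt h u w)) ≤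
        ((1 + hh c) ^ R * 2 ^ ((m + 1) * 2 ^ L)) * hh c ^ cutE h := by
      intro h
      calc (∑ u : Fin (m + 1) × Fin (2 ^ L) → Bool, ∑ w : Fin R → Bool,
          wgt (spt (T := T) hR hab E) (sdr hab) sctr c (mkSt h u w))
          ≤ ∑ _u : Fin (m + 1) × Fin (2 ^ L) → Bool, ∑ w : Fin R → Bool,
            hh c ^ cutE h * ∏ r, if h (eP hR (.inr r)) = w r then 1 else hh c :=
            Finset.sum_le_sum fun u _ => Finset.sum_le_sum fun w _ => wup hR hab E c h u w
        _ = ((1 + hh c) ^ R * 2 ^ ((m + 1) * 2 ^ L)) * hh c ^ cutE h := by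
            rw [← Finset.mul_sum,
              STotAux.sumB (fun r b => if h (eP hR (.inr r)) = b then 1 else hh c)]
            have h2 : ∀ r : Fin R, ((if h (eP hR (.inr r)) = true then 1 else hh c) +
                (if h (eP hR (.inr r)) = false then 1 else hh c)) = 1 + hh c := by
              intro r
              rcases h (eP hR (.inr r)) with _ | _
              · simp [add_comm]
              · simp
            rw [Finset.prod_congr rfl (fun r _ => h2 r)]
            simp only [Finset.prod_const, Finset.sum_const, Finset.card_univ, Fintype.card_pi,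
              Fintype.card_bool, Fintype.card_prod, Fintype.card_fin, nsmul_eq_mul]
            push_cast
            ring
    calc (∑ h ∈ (Finset.univ.erase (fun _ : Fin (2 ^ κ) => true)).erase (fun _ => false),
        ∑ u : Fin (m + 1) × Fin (2 ^ L) → Bool, ∑ w : Fin R → Bool,
        wgt (spt (T := T) hR hab E) (sdr hab) sctr c (mkSt h u w))
        ≤ ∑ h ∈ (Finset.univ.erase (fun _ : Fin (2 ^ κ) => true)).erase (fun _ => false),
          ((1 + hh c) ^ R * 2 ^ ((m + 1) * 2 ^ L)) * hh c ^ cutE h :=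
          Finset.sum_le_sum fun h _ => h1 h
      _ = ((1 + hh c) ^ R * 2 ^ ((m + 1) * 2 ^ L)) *
          ∑ h ∈ (Finset.univ.erase (fun _ : Fin (2 ^ κ) => true)).erase (fun _ => false),
            hh c ^ cutE h := by rw [Finset.mul_sum]
      _ ≤ ((1 + hh c) ^ R * 2 ^ ((m + 1) * 2 ^ L)) * (2 * ((1 + hh c) ^ 2 ^ κ - 1)) := by
          apply mul_le_mul_of_nonneg_left _ (by positivity)
          have h3 := sum_hub (κ := κ) hq0 hq1
          convert h3
      _ = (1 + hh c) ^ R * (2 ^ ((m + 1) * 2 ^ L) * (2 * ((1 + hh c) ^ 2 ^ κ - 1))) := by ring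
  linarith

open Classical in
theorem tot_lower (hR : (m + 1) * 2 ^ L + R = 2 ^ κ) (hab : a + b ≤ 2 ^ L)
    (E : Fin a → Fin b → Bool) (c : ℕ) :
    ∑ u ∈ Finset.univ.filter (fun u : Fin (m + 1) × Fin (2 ^ L) → Bool => GoodU hab E u),
      (∏ z, if u z = true then (1 / 2 : ℚ) ^ (T + 1) else 1) ≤
    ∑ σ : SB κ L m R → Bool, wgt (spt (T := T) hR hab E) (sdr hab) sctr c σ := by
  have hinj : Function.Injective (fun u : Fin (m + 1) × Fin (2 ^ L) → Bool =>
      (mkSt (fun _ => false) u (fun _ => false) : SB κ L m R → Bool)) := by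
    intro u u' h
    funext z
    exact congrFun h (.inr (.inl z))
  calc (∑ u ∈ Finset.univ.filter (fun u : Fin (m + 1) × Fin (2 ^ L) → Bool => GoodU hab E u),
      (∏ z, if u z = true then (1 / 2 : ℚ) ^ (T + 1) else 1))
      ≤ ∑ u ∈ Finset.univ.filter (fun u : Fin (m + 1) × Fin (2 ^ L) → Bool => GoodU hab E u),
        wgt (spt (T := T) hR hab E) (sdr hab) sctr c
          (mkSt (fun _ => false) u (fun _ => false)) :=
        Finset.sum_le_sum fun u hu => wlow hR hab E c u (Finset.mem_filter.1 hu).2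
    _ = ∑ σ ∈ (Finset.univ.filter (fun u : Fin (m + 1) × Fin (2 ^ L) → Bool =>
          GoodU hab E u)).image (fun u => (mkSt (fun _ => false) u (fun _ => false) :
            SB κ L m R → Bool)), wgt (spt (T := T) hR hab E) (sdr hab) sctr c σ := by
        rw [Finset.sum_image (fun u _ u' _ h => hinj h)]
    _ ≤ ∑ σ : SB κ L m R → Bool, wgt (spt (T := T) hR hab E) (sdr hab) sctr c σ :=
        Finset.sum_le_sum_of_subset_of_nonneg (Finset.subset_univ _)
          (fun σ _ _ => wgt_nonneg hR hab E c σ)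

end Pool.Agent.Lib.Pa7c826q
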