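import Pool.Agent.Lib.Pa7c826q.SGood

/-!
The sum over the states of the gadget pendants.

`sum_phi`: write `u` as the state `s i = u (0, i)` of the spins and the states `u (j.succ, i)` of
the satellites (`Fin.consEquiv`, or `Fin (m + 1) ≃ Fin 1 ⊕ Fin m`; `Fin.prod_univ_succ`). For given
`s` the sum over the satellites factorises (`Finset.prod_univ_sum`): the spin `i` and its
satellites contribute `G (1 + G) ^ m` if `s i = true` and `(1 + G hh) ^ m` if `s i = false`,
`G = gg c ^ (T + 1)`; both are at most `1 + η`. The rest is `1` for good `s` and at most `hh c` for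
the other `s`, which number at most `2 ^ 2 ^ L`. The number of the good `s` is `card_good`.

`sum_low`: for good `s` the sum over the satellites (free when `s i = true`, all `false` when
`s i = false`) is the product over the `i` with `s i = true` of `w = x (1 + x) ^ m`,
`x = (1 / 2) ^ (T + 1)`, which is at least `w ^ 2 ^ L` since `0 ≤ w ≤ 1`.
-/

namespace Pool.Agent.Lib.Pa7c826q

open Pool.Agent.Lib.Pa7c826

variable {L T m a b : ℕ}

private theorem sum_fac {I : Type} [Fintype I] [DecidableEq I] {m : ℕ} (τ : (I → Bool) → ℚ)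
    (α : Bool → ℚ) (β : Bool → Bool → ℚ) :
    ∑ u : Fin (m + 1) × I → Bool, τ (fun i => u (0, i)) *
      ∏ i, (α (u (0, i)) * ∏ j : Fin m, β (u (0, i)) (u (j.succ, i))) =
    ∑ s : I → Bool, τ s * ∏ i, (α (s i) * (β (s i) true + β (s i) false) ^ m) := by
  let e : ((I → Bool) × (I → Fin m → Bool)) ≃ (Fin (m + 1) × I → Bool) :=
    { toFun := fun p z => Fin.cases (motive := fun _ => Bool) (p.1 z.2) (fun j => p.2 z.2 j) z.1
      invFun := fun u => (fun i => u (0, i), fun i j => u (j.succ, i))
      left_inv := fun p => rfl
      right_inv := fun u => by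
        funext z
        obtain ⟨k, i⟩ := z
        refine Fin.cases ?_ (fun j => ?_) k <;> rfl }
  rw [← e.sum_comp, Fintype.sum_prod_type]
  refine Finset.sum_congr rfl fun s _ => ?_
  have h1 : ∀ v : I → Fin m → Bool, (τ (fun i => e (s, v) (0, i)) *
      ∏ i, (α (e (s, v) (0, i)) * ∏ j : Fin m, β (e (s, v) (0, i)) (e (s, v) (j.succ, i)))) =
      τ s * ∏ i, (α (s i) * ∏ j : Fin m, β (s i) (v i j)) := fun v => rfl
  rw [Finset.sum_congr rfl fun v _ => h1 v, ← Finset.mul_sum]
  congr 1
  have h2 := Finset.prod_univ_sum (fun _ : I => (Finset.univ : Finset (Fin m → Bool)))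
    (fun i w => α (s i) * ∏ j : Fin m, β (s i) (w j))
  rw [Fintype.piFinset_univ] at h2
  rw [← h2]
  refine Finset.prod_congr rfl fun i _ => ?_
  rw [← Finset.mul_sum]
  congr 1
  have h3 := Finset.prod_univ_sum (fun _ : Fin m => (Finset.univ : Finset Bool))
    (fun _ b => β (s i) b)
  rw [Fintype.piFinset_univ] at h3
  rw [← h3, Finset.prod_const, Finset.card_univ, Fintype.card_fin, Fintype.sum_bool]

private theorem prod_split {I : Type} [Fintype I] {m : ℕ} (f : Bool → ℚ)
    (u : Fin (m + 1) × I → Bool) :
    ∏ z, f (u z) = ∏ i, (f (u (0, i)) * ∏ j : Fin m, f (u (j.succ, i))) := by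
  rw [Fintype.prod_prod_type, Fin.prod_univ_succ, Finset.prod_mul_distrib]
  congr 1
  exact Finset.prod_comm

private theorem gg_pos' (c : ℕ) : 0 < gg c := by unfold gg; positivity

private theorem hh_le' (c : ℕ) : hh c ≤ 1 := by
  unfold hh
  exact pow_le_one₀ (by norm_num) (by norm_num)

theorem sum_phi (hab : a + b ≤ 2 ^ L) (E : Fin a → Fin b → Bool) (c : ℕ) {η : ℚ} (hη : 0 ≤ η)
    (h1 : gg c ^ (T + 1) * (1 + gg c ^ (T + 1)) ^ m ≤ 1 + η)
    (h2 : (1 + gg c ^ (T + 1) * hh c) ^ m ≤ 1 + η) :
    ∑ u : Fin (m + 1) × Fin (2 ^ L) → Bool, Phi T c hab E u ≤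
      (1 + η) ^ 2 ^ L * (cnt (fun x y => E x y = true) * 2 ^ (2 ^ L - (a + b)) +
        2 ^ 2 ^ L * hh c) := by
  classical
  set G : ℚ := gg c ^ (T + 1) with hG
  have hG0 : 0 < G := pow_pos (gg_pos' c) _
  have hh0 : 0 < hh c := hh_pos c
  have hh1 : hh c ≤ 1 := hh_le' c
  let τ : (Fin (2 ^ L) → Bool) → ℚ := fun s => ∏ x : Fin a, ∏ y : Fin b,
    if E x y = true ∧ s (vL hab x) = true ∧ s (vR hab y) = false then hh c else 1
  let α : Bool → ℚ := fun b => if b = true then G else 1
  let β : Bool → Bool → ℚ := fun a b => (if b = true then G else 1) *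
    (if b = true ∧ a = false then hh c else 1)
  have hphi : ∀ u : Fin (m + 1) × Fin (2 ^ L) → Bool, Phi T c hab E u =
      τ (fun i => u (0, i)) * ∏ i, (α (u (0, i)) * ∏ j : Fin m, β (u (0, i)) (u (j.succ, i))) := by
    intro u
    have e1 := prod_split (m := m) (I := Fin (2 ^ L)) (fun b => if b = true then G else 1) u
    have e2 : (∏ j : Fin m, ∏ i, if u (j.succ, i) = true ∧ u (0, i) = false then hh c else 1) =
        ∏ i, ∏ j : Fin m, (if u (j.succ, i) = true ∧ u (0, i) = false then hh c else 1) :=
      Finset.prod_comm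
    unfold Phi
    rw [← hG, e1, e2, mul_comm, ← Finset.prod_mul_distrib]
    congr 1
    refine Finset.prod_congr rfl fun i _ => ?_
    rw [mul_assoc, ← Finset.prod_mul_distrib]
  rw [Finset.sum_congr rfl fun u _ => hphi u, sum_fac]
  have hτ0 : ∀ s, 0 ≤ τ s := by
    intro s
    refine Finset.prod_nonneg fun x _ => Finset.prod_nonneg fun y _ => ?_
    split_ifs
    · exact hh0.le
    · exact zero_le_one
  have hfac : ∀ s : Fin (2 ^ L) → Bool,
      ∏ i, (α (s i) * (β (s i) true + β (s i) false) ^ m) ≤ (1 + η) ^ 2 ^ L := by
    intro s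
    have h3 : ∀ i ∈ (Finset.univ : Finset (Fin (2 ^ L))),
        α (s i) * (β (s i) true + β (s i) false) ^ m ≤ 1 + η := by
      intro i _
      cases s i with
      | true =>
        have : α true * (β true true + β true false) ^ m = G * (1 + G) ^ m := by
          simp only [α, β]
          simp
          left
          rw [add_comm]
        rw [this]
        exact h1
      | false =>
        have : α false * (β false true + β false false) ^ m = (1 + G * hh c) ^ m := by
          simp only [α, β]
          simp
          rw [add_comm]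
        rw [this]
        exact h2
    have h4 : ∀ i ∈ (Finset.univ : Finset (Fin (2 ^ L))),
        0 ≤ α (s i) * (β (s i) true + β (s i) false) ^ m := by
      intro i _
      have hα : 0 ≤ α (s i) := by
        simp only [α]
        split_ifs
        · exact hG0.le
        · exact zero_le_one
      have hβ : ∀ p q, 0 ≤ β p q := by
        intro p q
        simp only [β]
        refine mul_nonneg ?_ ?_
        · split_ifs
          · exact hG0.le
          · exact zero_le_one
        · split_ifs
          · exact hh0.le
          · exact zero_le_one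
      exact mul_nonneg hα (pow_nonneg (add_nonneg (hβ _ _) (hβ _ _)) _)
    have h5 := Finset.prod_le_prod h4 h3
    rwa [Finset.prod_const, Finset.card_univ, Fintype.card_fin] at h5
  have hτ1 : ∀ s, τ s ≤ if GoodS hab E s then 1 else hh c := by
    intro s
    have hb : ∀ x y, (if E x y = true ∧ s (vL hab x) = true ∧ s (vR hab y) = false
        then hh c else 1) ≤ 1 := by
      intro x y
      split_ifs
      · exact hh1
      · exact le_rfl
    have hb0 : ∀ x y, 0 ≤ (if E x y = true ∧ s (vL hab x) = true ∧ s (vR hab y) = false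
        then hh c else 1) := by
      intro x y
      split_ifs
      · exact hh0.le
      · exact zero_le_one
    by_cases hg : GoodS hab E s
    · rw [if_pos hg]
      refine Finset.prod_le_one (fun x _ => Finset.prod_nonneg fun y _ => hb0 x y)
        (fun x _ => Finset.prod_le_one (fun y _ => hb0 x y) fun y _ => hb x y)
    · rw [if_neg hg]
      unfold GoodS at hg
      push Not at hg
      obtain ⟨x, y, hE, hx, hy⟩ := hg
      have hy' : s (vR hab y) = false := by simpa using hy
      have hin : ∀ x', (∏ y' : Fin b, (if E x' y' = true ∧ s (vL hab x') = true ∧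
          s (vR hab y') = false then hh c else 1)) ≤ 1 := fun x' =>
        Finset.prod_le_one (fun y' _ => hb0 x' y') fun y' _ => hb x' y'
      have hin0 : ∀ x', 0 ≤ (∏ y' : Fin b, (if E x' y' = true ∧ s (vL hab x') = true ∧
          s (vR hab y') = false then hh c else 1)) := fun x' =>
        Finset.prod_nonneg fun y' _ => hb0 x' y'
      have q1 : τ s = (∏ y' : Fin b, (if E x y' = true ∧ s (vL hab x) = true ∧
          s (vR hab y') = false then hh c else 1)) * ∏ x' ∈ Finset.univ.erase x,
          (∏ y' : Fin b, (if E x' y' = true ∧ s (vL hab x') = true ∧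
          s (vR hab y') = false then hh c else 1)) :=
        (Finset.mul_prod_erase Finset.univ _ (Finset.mem_univ x)).symm
      have q2 : (∏ y' : Fin b, (if E x y' = true ∧ s (vL hab x) = true ∧
          s (vR hab y') = false then hh c else 1)) = (if E x y = true ∧ s (vL hab x) = true ∧
          s (vR hab y) = false then hh c else 1) * ∏ y' ∈ Finset.univ.erase y,
          (if E x y' = true ∧ s (vL hab x) = true ∧ s (vR hab y') = false then hh c else 1) :=
        (Finset.mul_prod_erase Finset.univ _ (Finset.mem_univ y)).symm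
      have q3 : (∏ y' : Fin b, (if E x y' = true ∧ s (vL hab x) = true ∧
          s (vR hab y') = false then hh c else 1)) ≤ hh c := by
        rw [q2, if_pos ⟨hE, hx, hy'⟩]
        have : ∏ y' ∈ Finset.univ.erase y,
          (if E x y' = true ∧ s (vL hab x) = true ∧ s (vR hab y') = false then hh c else 1) ≤ 1 :=
          Finset.prod_le_one (fun y' _ => hb0 x y') fun y' _ => hb x y'
        calc _ ≤ hh c * 1 := mul_le_mul_of_nonneg_left this hh0.le
          _ = hh c := mul_one _
      rw [q1]
      have q4 : ∏ x' ∈ Finset.univ.erase x,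
          (∏ y' : Fin b, (if E x' y' = true ∧ s (vL hab x') = true ∧
          s (vR hab y') = false then hh c else 1)) ≤ 1 :=
        Finset.prod_le_one (fun x' _ => hin0 x') fun x' _ => hin x'
      have q5 : 0 ≤ ∏ x' ∈ Finset.univ.erase x,
          (∏ y' : Fin b, (if E x' y' = true ∧ s (vL hab x') = true ∧
          s (vR hab y') = false then hh c else 1)) :=
        Finset.prod_nonneg fun x' _ => hin0 x'
      calc _ ≤ hh c * 1 := mul_le_mul q3 q4 q5 hh0.le
        _ = hh c := mul_one _
  have hpow : (0 : ℚ) ≤ (1 + η) ^ 2 ^ L := by positivity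
  calc ∑ s, τ s * ∏ i, (α (s i) * (β (s i) true + β (s i) false) ^ m)
      ≤ ∑ s, (if GoodS hab E s then 1 else hh c) * (1 + η) ^ 2 ^ L := by
        refine Finset.sum_le_sum fun s _ => ?_
        refine (mul_le_mul_of_nonneg_left (hfac s) (hτ0 s)).trans ?_
        exact mul_le_mul_of_nonneg_right (hτ1 s) hpow
    _ = (1 + η) ^ 2 ^ L * ∑ s : Fin (2 ^ L) → Bool, (if GoodS hab E s then 1 else hh c) := by
        rw [Finset.mul_sum]
        refine Finset.sum_congr rfl fun s _ => mul_comm _ _
    _ ≤ _ := by
        refine mul_le_mul_of_nonneg_left ?_ hpow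
        have r1 : ∑ s : Fin (2 ^ L) → Bool, (if GoodS hab E s then (1 : ℚ) else hh c) ≤
            ∑ s : Fin (2 ^ L) → Bool, ((if GoodS hab E s then (1 : ℚ) else 0) + hh c) := by
          refine Finset.sum_le_sum fun s _ => ?_
          split_ifs
          · linarith
          · linarith
        refine r1.trans (le_of_eq ?_)
        rw [Finset.sum_add_distrib, Finset.sum_const, Finset.card_univ]
        congr 1
        · rw [← Finset.sum_filter, Finset.sum_const, nsmul_eq_mul, mul_one]
          have r2 : (Finset.univ.filter fun s : Fin (2 ^ L) → Bool => GoodS hab E s).card =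
              Nat.card {s // GoodS hab E s} := by
            rw [Nat.card_eq_fintype_card, Fintype.card_subtype]
          rw [r2, card_good]
          push_cast
          rfl
        · rw [nsmul_eq_mul]
          congr 1
          rw [Fintype.card_fun, Fintype.card_fin, Fintype.card_bool]
          push_cast
          rfl

open Classical in
theorem sum_low (hab : a + b ≤ 2 ^ L) (E : Fin a → Fin b → Bool)
    (h1 : (1 / 2 : ℚ) ^ (T + 1) * (1 + (1 / 2) ^ (T + 1)) ^ m ≤ 1) :
    (cnt (fun x y => E x y = true) * 2 ^ (2 ^ L - (a + b)) *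
      ((1 / 2 : ℚ) ^ (T + 1) * (1 + (1 / 2) ^ (T + 1)) ^ m) ^ 2 ^ L) ≤
    ∑ u ∈ Finset.univ.filter (fun u : Fin (m + 1) × Fin (2 ^ L) → Bool => GoodU hab E u),
      ∏ z, if u z = true then (1 / 2 : ℚ) ^ (T + 1) else 1 := by
  set x : ℚ := (1 / 2 : ℚ) ^ (T + 1) with hx
  have hx0 : 0 < x := by positivity
  set w : ℚ := x * (1 + x) ^ m with hw
  have hw0 : 0 ≤ w := by positivity
  let τ : (Fin (2 ^ L) → Bool) → ℚ := fun s => if GoodS hab E s then 1 else 0
  let α : Bool → ℚ := fun b => if b = true then x else 1
  let β : Bool → Bool → ℚ := fun a b => if b = true ∧ a = false then 0 else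
    (if b = true then x else 1)
  have hterm : ∀ u : Fin (m + 1) × Fin (2 ^ L) → Bool,
      (if GoodU hab E u then (∏ z, if u z = true then x else 1) else 0) =
      τ (fun i => u (0, i)) * ∏ i, (α (u (0, i)) * ∏ j : Fin m, β (u (0, i)) (u (j.succ, i))) := by
    intro u
    by_cases hg : GoodU hab E u
    · rw [if_pos hg, prod_split (m := m) (I := Fin (2 ^ L)) (fun b => if b = true then x else 1) u]
      have t1 : τ (fun i => u (0, i)) = 1 := if_pos hg.1
      rw [t1, one_mul]
      refine Finset.prod_congr rfl fun i _ => ?_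
      congr 1
      refine Finset.prod_congr rfl fun j _ => ?_
      have : ¬ (u (j.succ, i) = true ∧ u (0, i) = false) := by
        rintro ⟨p, q⟩
        rw [hg.2 j i p] at q
        exact absurd q (by decide)
      simp only [β]
      rw [if_neg this]
    · rw [if_neg hg]
      by_cases hs : GoodS hab E (fun i => u (0, i))
      · have hne : ∃ (j : Fin m) (i : Fin (2 ^ L)), u (j.succ, i) = true ∧ u (0, i) = false := by
          by_contra hcon
          push Not at hcon
          exact hg ⟨hs, fun j i hji => by simpa using hcon j i hji⟩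
        obtain ⟨j, i, hji⟩ := hne
        have z1 : ∏ j : Fin m, β (u (0, i)) (u (j.succ, i)) = 0 := by
          refine Finset.prod_eq_zero (Finset.mem_univ j) ?_
          simp only [β]
          rw [if_pos hji]
        have z2 : ∏ i, (α (u (0, i)) * ∏ j : Fin m, β (u (0, i)) (u (j.succ, i))) = 0 := by
          refine Finset.prod_eq_zero (Finset.mem_univ i) ?_
          rw [z1, mul_zero]
        rw [z2, mul_zero]
      · have t1 : τ (fun i => u (0, i)) = 0 := if_neg hs
        rw [t1, zero_mul]
  rw [Finset.sum_filter, Finset.sum_congr rfl fun u _ => hterm u, sum_fac]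
  have hval : ∀ s : Fin (2 ^ L) → Bool, w ^ 2 ^ L ≤
      ∏ i, (α (s i) * (β (s i) true + β (s i) false) ^ m) := by
    intro s
    have h3 : ∀ i ∈ (Finset.univ : Finset (Fin (2 ^ L))),
        w ≤ α (s i) * (β (s i) true + β (s i) false) ^ m := by
      intro i _
      cases s i with
      | true =>
        have : α true * (β true true + β true false) ^ m = w := by
          simp only [α, β, hw]
          simp
          left
          rw [add_comm]
        rw [this]
      | false =>
        have : α false * (β false true + β false false) ^ m = 1 := by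
          simp only [α, β]
          simp
        rw [this]
        exact h1
    have h5 := Finset.prod_le_prod (fun i _ => hw0) h3
    rwa [Finset.prod_const, Finset.card_univ, Fintype.card_fin] at h5
  have hcard : (∑ s : Fin (2 ^ L) → Bool, τ s) =
      cnt (fun x y => E x y = true) * 2 ^ (2 ^ L - (a + b)) := by
    simp only [τ]
    rw [← Finset.sum_filter, Finset.sum_const, nsmul_eq_mul, mul_one]
    have r2 : (Finset.univ.filter fun s : Fin (2 ^ L) → Bool => GoodS hab E s).card =
        Nat.card {s // GoodS hab E s} := by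
      rw [Nat.card_eq_fintype_card, Fintype.card_subtype]
    rw [r2, card_good]
    push_cast
    rfl
  rw [← hcard, Finset.sum_mul]
  refine Finset.sum_le_sum fun s _ => ?_
  refine mul_le_mul_of_nonneg_left (hval s) ?_
  simp only [τ]
  split_ifs
  · exact zero_le_one
  · exact le_rfl

end Pool.Agent.Lib.Pa7c826q
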