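import Pool.Agent.Lib.Pa7c826q.WUp

/-!
Lower bound for the weight of the good states.

In the state `mkSt (fun _ => false) u (fun _ => false)` with good `u` no source is in the state
`true` while its target is in the state `false` (first product of `wgt` equal to `1`), and for
blocks `y` and classes `γ` the factor `(1 + (1 / 2) ^ ((c + 1) * nF …)) / 2` is at least `1 / 2`,
and it is `1` unless `y = .inr (.inl z)` with `u z = true` and `γ = .inr (.inl k)`: in all other
cases `nF = 0` (if `σ y = false`, `nF = 0`; a pendant `y` in the state `true` is no target of the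
labels `.inl _` (it is its own partner) and of the label `.inr (.inr (.inl _))`, and the labels
`.inr (.inr (.inr _))` are in the class `.inr (.inl 0)`).
-/

namespace Pool.Agent.Lib.Pa7c826q

open Pool.Agent.Lib.Pa7c826
open Pool.Agent.Lib.Pa7c826s (Pairing cutX flip flipN flip_flip flip_digit flip_ne)

variable {κ L T m R a b : ℕ}

/-- good states of the spins -/
def GoodS (hab : a + b ≤ 2 ^ L) (E : Fin a → Fin b → Bool) (s : Fin (2 ^ L) → Bool) : Prop :=
  ∀ x y, E x y = true → s (vL hab x) = true → s (vR hab y) = true

/-- good states of the gadget pendants -/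
def GoodU (hab : a + b ≤ 2 ^ L) (E : Fin a → Fin b → Bool)
    (u : Fin (m + 1) × Fin (2 ^ L) → Bool) : Prop :=
  GoodS hab E (fun i => u (0, i)) ∧ ∀ (j : Fin m) i, u (j.succ, i) = true → u (0, i) = true

namespace WLowAux

theorem fac_ge (n : ℕ) : (1 / 2 : ℚ) ≤ (1 + (1 / 2) ^ n) / 2 := by
  have : (0 : ℚ) < (1 / 2) ^ n := by positivity
  linarith

theorem fac_zero {n : ℕ} (h : n = 0) (c : ℕ) :
    (1 + (1 / 2 : ℚ) ^ ((c + 1) * n)) / 2 = 1 := by
  rw [h, mul_zero, pow_zero]
  norm_num

end WLowAux

open WLowAux

theorem wgt_nonneg (hR : (m + 1) * 2 ^ L + R = 2 ^ κ) (hab : a + b ≤ 2 ^ L)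
    (E : Fin a → Fin b → Bool) (c : ℕ) (σ : SB κ L m R → Bool) :
    0 ≤ wgt (spt (T := T) hR hab E) (sdr hab) sctr c σ := by
  unfold wgt
  refine mul_nonneg (Finset.prod_nonneg fun l _ => Finset.prod_nonneg fun x _ => ?_)
    (Finset.prod_nonneg fun y _ => Finset.prod_nonneg fun γ _ => ?_)
  · split_ifs
    · exact (hh_pos c).le
    · exact zero_le_one
  · exact le_trans (by norm_num) (fac_ge _)

theorem wlow (hR : (m + 1) * 2 ^ L + R = 2 ^ κ) (hab : a + b ≤ 2 ^ L)
    (E : Fin a → Fin b → Bool) (c : ℕ) (u : Fin (m + 1) × Fin (2 ^ L) → Bool)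
    (hu : GoodU hab E u) :
    (∏ z, if u z = true then (1 / 2 : ℚ) ^ (T + 1) else 1) ≤
      wgt (spt (T := T) hR hab E) (sdr hab) sctr c (mkSt (fun _ => false) u (fun _ => false)) := by
  set σ : SB κ L m R → Bool := mkSt (fun _ => false) u (fun _ => false) with hσ
  have s1 : ∀ τ, σ (.inl τ) = false := fun τ => rfl
  have s2 : ∀ z, σ (.inr (.inl z)) = u z := fun z => rfl
  have s3 : ∀ r, σ (.inr (.inr r)) = false := fun r => rfl
  -- the first product is one
  have first : ∀ (l : SL κ T m a b) (x : SB κ L m R),
      ¬ (sdr hab l x = true ∧ σ x = true ∧ σ (spt (T := T) hR hab E l x) = false) := by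
    rintro l x ⟨h1, h2, h3⟩
    rcases x with τ | z | r
    · rw [s1] at h2
      exact absurd h2 (by simp)
    · rw [s2] at h2
      rcases l with ie | k | o | j | ⟨x', y'⟩
      · simp [sdr] at h1
      · simp [sdr] at h1
      · change σ (.inr (.inl z)) = false at h3
        rw [s2, h2] at h3
        exact absurd h3 (by simp)
      · obtain ⟨k, i⟩ := z
        change decide (k ≠ 0) = true at h1
        change σ (.inr (.inl (Equiv.swap 0 j.succ k, i))) = false at h3
        rw [s2] at h3
        have hk : k ≠ 0 := by simpa using h1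
        by_cases hkj : k = j.succ
        · subst hkj
          rw [Equiv.swap_apply_right, hu.2 j i h2] at h3
          exact absurd h3 (by simp)
        · rw [Equiv.swap_apply_of_ne_of_ne hk hkj, h2] at h3
          exact absurd h3 (by simp)
      · change decide (_ = spin (vL hab x')) = true at h1
        have h1' : (Sum.inr (Sum.inl z) : SB κ L m R) = spin (vL hab x') := by
          simpa using h1
        change σ (if E x' y' = true then
          Equiv.swap (spin (vL hab x')) (spin (vR hab y')) (Sum.inr (Sum.inl z))
            else Sum.inr (Sum.inl z)) = false at h3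
        by_cases hE : E x' y' = true
        · rw [if_pos hE, h1', Equiv.swap_apply_left] at h3
          have h4 : z = (0, vL hab x') := by
            unfold spin at h1'
            exact Sum.inl.inj (Sum.inr.inj h1')
          rw [h4] at h2
          have h5 := hu.1 x' y' hE h2
          change σ (.inr (.inl (0, vR hab y'))) = false at h3
          rw [s2] at h3
          simp only at h5
          rw [h5] at h3
          exact absurd h3 (by simp)
        · rw [if_neg hE, s2, h2] at h3
          exact absurd h3 (by simp)
    · rw [s3] at h2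
      exact absurd h2 (by simp)
  unfold wgt
  have hfirst : (∏ l : SL κ T m a b, ∏ x : SB κ L m R,
      if sdr hab l x = true ∧ σ x = true ∧ σ (spt (T := T) hR hab E l x) = false
        then hh c else 1) = 1 := by
    refine Finset.prod_eq_one fun l _ => Finset.prod_eq_one fun x _ => ?_
    rw [if_neg (first l x)]
  rw [hfirst, one_mul]
  -- blocks in the state false
  have nf0 : ∀ (y : SB κ L m R) (γ : SG κ T), σ y = false →
      nF (spt (T := T) hR hab E) (sdr hab) sctr σ y γ = 0 := by
    intro y γ hy
    unfold nF
    rw [Finset.card_eq_zero, Finset.filter_eq_empty_iff]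
    rintro l - ⟨-, -, h, -⟩
    rw [hy] at h
    exact absurd h (by simp)
  have one_of : ∀ y : SB κ L m R, σ y = false → (∏ γ : SG κ T,
      (1 + (1 / 2 : ℚ) ^ ((c + 1) * nF (spt (T := T) hR hab E) (sdr hab) sctr σ y γ)) / 2) = 1 := by
    intro y hy
    exact Finset.prod_eq_one fun γ _ => fac_zero (nf0 y γ hy) c
  have pend : ∀ z : Fin (m + 1) × Fin (2 ^ L), (if u z = true then (1 / 2 : ℚ) ^ (T + 1) else 1) ≤
      ∏ γ : SG κ T, (1 + (1 / 2 : ℚ) ^ ((c + 1) *
        nF (spt (T := T) hR hab E) (sdr hab) sctr σ (.inr (.inl z)) γ)) / 2 := by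
    intro z
    by_cases hz : u z = true
    · rw [if_pos hz, Fintype.prod_sum_type, Fintype.prod_sum_type]
      have e1 : (∏ x : Fin κ × Fin 2, (1 + (1 / 2 : ℚ) ^ ((c + 1) *
          nF (spt (T := T) hR hab E) (sdr hab) sctr σ (.inr (.inl z)) (.inl x))) / 2) = 1 := by
        refine Finset.prod_eq_one fun x _ => fac_zero ?_ c
        unfold nF
        rw [Finset.card_eq_zero, Finset.filter_eq_empty_iff]
        rintro l - ⟨h1, -, -, h4⟩
        rcases l with ie | k | o | j | xy
        · change σ (.inr (.inl z)) = false at h4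
          rw [s2, hz] at h4
          exact absurd h4 (by simp)
        · simp [sctr] at h1
        · simp [sctr] at h1
        · simp [sctr] at h1
        · simp [sctr] at h1
      have e3 : (∏ x : Fin 1, (1 + (1 / 2 : ℚ) ^ ((c + 1) *
          nF (spt (T := T) hR hab E) (sdr hab) sctr σ (.inr (.inl z)) (.inr (.inr x)))) / 2)
            = 1 := by
        refine Finset.prod_eq_one fun x _ => fac_zero ?_ c
        unfold nF
        rw [Finset.card_eq_zero, Finset.filter_eq_empty_iff]
        rintro l - ⟨h1, h2, -, -⟩
        rcases l with ie | k | o | j | xy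
        · simp [sctr] at h1
        · simp [sctr] at h1
        · simp [sdr] at h2
        · simp [sctr] at h1
        · simp [sctr] at h1
      rw [e1, e3, one_mul, mul_one]
      have e2 : (1 / 2 : ℚ) ^ (T + 1) = ∏ _k : Fin (T + 1), (1 / 2 : ℚ) := by
        rw [Finset.prod_const, Finset.card_univ, Fintype.card_fin]
      rw [e2]
      exact Finset.prod_le_prod (fun k _ => by norm_num) (fun k _ => fac_ge _)
    · have hz' : u z = false := by simpa using hz
      rw [if_neg hz, one_of _ (by rw [s2]; exact hz')]
  rw [Fintype.prod_sum_type, Fintype.prod_sum_type]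
  rw [Finset.prod_eq_one (fun τ _ => one_of (.inl τ) (s1 τ)),
    Finset.prod_eq_one (fun r _ => one_of (.inr (.inr r)) (s3 r)), one_mul, mul_one]
  refine Finset.prod_le_prod (fun z _ => ?_) (fun z _ => pend z)
  split_ifs
  · positivity
  · exact zero_le_one

end Pool.Agent.Lib.Pa7c826q
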