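import Pool.Agent.Lib.Pa7c826q.Defs

/-!
Upper bounds for the weight of a state of the blocks.

All factors of `wgt` are in `(0, 1]` (`hh_pos`, `hh_le_one`; `(1 + (1 / 2) ^ n) / 2`), so `wgt` is
at most the product of any set of its factors (`Finset.prod_le_prod`, or a product over a subset of
the index set; with the state `σ = mkSt h u w`).
-/

namespace Pool.Agent.Lib.Pa7c826q

open Pool.Agent.Lib.Pa7c826
open Pool.Agent.Lib.Pa7c826s (Pairing cutX flip flipN flip_flip flip_digit flip_ne)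

variable {κ L T m R a b : ℕ}

/-- a state of the blocks from the states of the hubs, of the gadget pendants and of the
followers -/
def mkSt (h : Fin (2 ^ κ) → Bool) (u : Fin (m + 1) × Fin (2 ^ L) → Bool) (w : Fin R → Bool) :
    SB κ L m R → Bool
  | .inl τ => h τ
  | .inr (.inl z) => u z
  | .inr (.inr r) => w r

/-- number of the directed edges of the hypercube from the state `true` to the state `false` -/
def cutE (h : Fin (2 ^ κ) → Bool) : ℕ :=
  (Finset.univ.filter fun p : Fin κ × Fin (2 ^ κ) => h p.2 = true ∧ h (flip p.1 p.2) = false).card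

/-- the weight of the states of the gadget pendants when the hubs are in the state `false` -/
def Phi (T c : ℕ) (hab : a + b ≤ 2 ^ L) (E : Fin a → Fin b → Bool)
    (u : Fin (m + 1) × Fin (2 ^ L) → Bool) : ℚ :=
  (∏ z, if u z = true then gg c ^ (T + 1) else 1) *
  (∏ j : Fin m, ∏ i, if u (j.succ, i) = true ∧ u (0, i) = false then hh c else 1) *
  ∏ x : Fin a, ∏ y : Fin b,
    if E x y = true ∧ u (0, vL hab x) = true ∧ u (0, vR hab y) = false then hh c else 1

namespace WUpAux

theorem prod_le_single {ι : Type} [Fintype ι] (f : ι → ℚ) (h0 : ∀ i, 0 ≤ f i)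
    (h1 : ∀ i, f i ≤ 1) (i0 : ι) : ∏ i, f i ≤ f i0 := by
  classical
  rw [← Finset.mul_prod_erase Finset.univ f (Finset.mem_univ i0)]
  exact mul_le_of_le_one_right (h0 _) (Finset.prod_le_one (fun i _ => h0 i) (fun i _ => h1 i))

theorem prod_le_inj {ι α : Type} [Fintype ι] [Fintype α] (f : ι → ℚ) (h0 : ∀ i, 0 ≤ f i)
    (h1 : ∀ i, f i ≤ 1) (g : α → ι) (hg : Function.Injective g) : ∏ i, f i ≤ ∏ x, f (g x) := by
  classical
  have e : ∏ x, f (g x) = ∏ i ∈ Finset.univ.image g, f i :=
    (Finset.prod_image (fun x _ y _ h => hg h)).symm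
  rw [e, ← Finset.prod_mul_prod_compl (Finset.univ.image g) f]
  exact mul_le_of_le_one_right (Finset.prod_nonneg fun i _ => h0 i)
    (Finset.prod_le_one (fun i _ => h0 i) (fun i _ => h1 i))

theorem prodSL (F : SL κ T m a b → ℚ) (h0 : ∀ l, 0 ≤ F l) (h1 : ∀ l, F l ≤ 1) :
    ∏ l, F l ≤ (∏ p, F (.inl p)) * (F (.inr (.inl 0)) * (F (.inr (.inr (.inl 0))) *
      ((∏ j, F (.inr (.inr (.inr (.inl j))))) * ∏ q, F (.inr (.inr (.inr (.inr q))))))) := by
  have hp : ∀ {ι : Type} [Fintype ι] (g : ι → SL κ T m a b), 0 ≤ ∏ i, F (g i) :=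
    fun g => Finset.prod_nonneg fun i _ => h0 _
  rw [Fintype.prod_sum_type, Fintype.prod_sum_type, Fintype.prod_sum_type, Fintype.prod_sum_type]
  refine mul_le_mul_of_nonneg_left ?_ (hp _)
  refine mul_le_mul (prod_le_single (fun k : Fin (T + 1) => F (.inr (.inl k))) (fun _ => h0 _)
    (fun _ => h1 _) 0) ?_ ?_ (h0 _)
  · refine mul_le_mul (prod_le_single (fun k : Fin 1 => F (.inr (.inr (.inl k)))) (fun _ => h0 _)
      (fun _ => h1 _) 0) le_rfl ?_ (h0 _)
    exact mul_nonneg (hp _) (hp _)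
  · exact mul_nonneg (hp _) (mul_nonneg (hp _) (hp _))

section

variable (hR : (m + 1) * 2 ^ L + R = 2 ^ κ) (hab : a + b ≤ 2 ^ L) (E : Fin a → Fin b → Bool)
  (c : ℕ) (σ : SB κ L m R → Bool)

/-- factor of a label at a block -/
def fl (l : SL κ T m a b) (x : SB κ L m R) : ℚ :=
  if sdr hab l x = true ∧ σ x = true ∧ σ (spt hR hab E l x) = false then hh c else 1

/-- factor of a class at a block -/
def fc (y : SB κ L m R) (γ : SG κ T) : ℚ :=
  (1 + (1 / 2) ^ ((c + 1) * nF (spt (T := T) hR hab E) (sdr hab) sctr σ y γ)) / 2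

theorem fl0 (l : SL κ T m a b) (x : SB κ L m R) : 0 ≤ fl hR hab E c σ l x := by
  unfold fl
  split_ifs
  · exact (hh_pos c).le
  · exact zero_le_one

theorem fl1 (l : SL κ T m a b) (x : SB κ L m R) : fl hR hab E c σ l x ≤ 1 := by
  unfold fl
  split_ifs
  · exact hh_le_one c
  · exact le_rfl

theorem fc0 (y : SB κ L m R) (γ : SG κ T) : 0 ≤ fc hR hab E c σ y γ := by
  unfold fc; positivity

theorem fc1 (y : SB κ L m R) (γ : SG κ T) : fc hR hab E c σ y γ ≤ 1 := by
  unfold fc
  have : ((1 : ℚ) / 2) ^ ((c + 1) * nF (spt (T := T) hR hab E) (sdr hab) sctr σ y γ) ≤ 1 :=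
    pow_le_one₀ (by norm_num) (by norm_num)
  linarith

theorem wgt_eq : wgt (spt (T := T) hR hab E) (sdr hab) sctr c σ =
    (∏ l, ∏ x, fl (T := T) hR hab E c σ l x) * ∏ y, ∏ γ, fc (T := T) hR hab E c σ y γ := rfl

/-- factor of a label -/
def FL (l : SL κ T m a b) : ℚ := ∏ x, fl hR hab E c σ l x

theorem FL0 (l : SL κ T m a b) : 0 ≤ FL hR hab E c σ l :=
  Finset.prod_nonneg fun x _ => fl0 hR hab E c σ l x

theorem FL1 (l : SL κ T m a b) : FL hR hab E c σ l ≤ 1 :=
  Finset.prod_le_one (fun x _ => fl0 hR hab E c σ l x) (fun x _ => fl1 hR hab E c σ l x)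

theorem FL_inj {α : Type} [Fintype α] (l : SL κ T m a b) (g : α → SB κ L m R)
    (hg : Function.Injective g) : FL hR hab E c σ l ≤ ∏ x, fl hR hab E c σ l (g x) :=
  prod_le_inj _ (fl0 hR hab E c σ l) (fl1 hR hab E c σ l) g hg

theorem P2_le : ∏ y, ∏ γ, fc (T := T) hR hab E c σ y γ ≤ 1 :=
  Finset.prod_le_one (fun y _ => Finset.prod_nonneg fun γ _ => fc0 hR hab E c σ y γ)
    (fun y _ => Finset.prod_le_one (fun γ _ => fc0 hR hab E c σ y γ)
      (fun γ _ => fc1 hR hab E c σ y γ))

theorem P1_le : ∏ l, ∏ x, fl (T := T) hR hab E c σ l x ≤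
    (∏ p, FL (T := T) hR hab E c σ (.inl p)) * (FL hR hab E c σ (.inr (.inl (0 : Fin (T + 1)))) *
      (FL (T := T) hR hab E c σ (.inr (.inr (.inl 0))) *
      ((∏ j, FL (T := T) hR hab E c σ (.inr (.inr (.inr (.inl j))))) *
        ∏ q, FL (T := T) hR hab E c σ (.inr (.inr (.inr (.inr q))))))) :=
  prodSL (FL hR hab E c σ) (FL0 hR hab E c σ) (FL1 hR hab E c σ)

end

section states

variable (hR : (m + 1) * 2 ^ L + R = 2 ^ κ) (hab : a + b ≤ 2 ^ L) (E : Fin a → Fin b → Bool)
  (c : ℕ) (h : Fin (2 ^ κ) → Bool) (u : Fin (m + 1) × Fin (2 ^ L) → Bool) (w : Fin R → Bool)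

/-- the labels from the hubs to the pendants -/
theorem FLb : FL hR hab E c (mkSt h u w) (.inr (.inl (0 : Fin (T + 1)))) ≤
    (∏ z, if h (eP hR (.inl z)) = true ∧ u z = false then hh c else 1) *
      ∏ r, if h (eP hR (.inr r)) = true ∧ w r = false then hh c else 1 := by
  refine (FL_inj hR hab E c (mkSt h u w) _ (fun π : PB L m R => (.inl (eP hR π) : SB κ L m R))
    (fun x y hxy => (eP hR).injective (Sum.inl_injective hxy))).trans (le_of_eq ?_)
  rw [Fintype.prod_sum_type]
  congr 1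
  · refine Finset.prod_congr rfl fun z _ => ?_
    simp [fl, sdr, spt, mkSt]
  · refine Finset.prod_congr rfl fun r _ => ?_
    simp [fl, sdr, spt, mkSt]

/-- the labels from the followers to the hubs -/
theorem FLc : FL (T := T) hR hab E c (mkSt h u w) (.inr (.inr (.inl 0))) ≤
    ∏ r, if h (eP hR (.inr r)) = false ∧ w r = true then hh c else 1 := by
  refine (FL_inj hR hab E c (mkSt h u w) _ (fun r : Fin R => (.inr (.inr r) : SB κ L m R))
    (fun x y hxy => Sum.inr_injective (Sum.inr_injective hxy))).trans (le_of_eq ?_)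
  refine Finset.prod_congr rfl fun r _ => ?_
  simp [fl, sdr, spt, mkSt, and_comm]

theorem FLa : ∏ p, FL (T := T) hR hab E c (mkSt h u w) (.inl p) ≤ hh c ^ cutE h := by
  have h1 : ∀ p : Fin κ × Fin 2, FL (T := T) hR hab E c (mkSt h u w) (.inl p) ≤
      ∏ τ : Fin (2 ^ κ), if (τ : ℕ) / 2 ^ (p.1 : ℕ) % 2 = (p.2 : ℕ) ∧ h τ = true ∧
        h (flip p.1 τ) = false then hh c else 1 := by
    rintro ⟨i, e⟩
    refine (FL_inj hR hab E c (mkSt h u w) _ (fun τ => (.inl τ : SB κ L m R))
      Sum.inl_injective).trans (le_of_eq ?_)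
    refine Finset.prod_congr rfl fun τ _ => ?_
    simp [fl, sdr, spt, mkSt]
  refine (Finset.prod_le_prod (fun p _ => FL0 hR hab E c _ _) (fun p _ => h1 p)).trans
    (le_of_eq ?_)
  unfold cutE
  rw [← Finset.prod_const, Finset.prod_filter, Fintype.prod_prod_type, Fintype.prod_prod_type]
  refine Finset.prod_congr rfl fun i _ => ?_
  rw [Finset.prod_comm]
  refine Finset.prod_congr rfl fun τ _ => ?_
  rw [Fin.prod_univ_two]
  rcases Nat.mod_two_eq_zero_or_one ((τ : ℕ) / 2 ^ (i : ℕ)) with h2 | h2 <;> simp [h2]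

end states

theorem mul5 {A B C D F A' B' C' D' F' : ℚ} (hA : A ≤ A') (hB : B ≤ B') (hC : C ≤ C')
    (hD : D ≤ D') (hF : F ≤ F') (h1 : 0 ≤ A) (h2 : 0 ≤ B) (h3 : 0 ≤ C) (h4 : 0 ≤ D)
    (h5 : 0 ≤ F) : A * (B * (C * (D * F))) ≤ A' * (B' * (C' * (D' * F'))) := by
  have a1 := mul_le_mul hD hF h5 (h4.trans hD)
  have a2 := mul_le_mul hC a1 (mul_nonneg h4 h5) (h3.trans hC)
  have a3 := mul_le_mul hB a2 (mul_nonneg h3 (mul_nonneg h4 h5)) (h2.trans hB)
  exact mul_le_mul hA a3 (mul_nonneg h2 (mul_nonneg h3 (mul_nonneg h4 h5))) (h1.trans hA)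

end WUpAux

open WUpAux

/-- General bound. The factors of the labels `.inl (i, e)` with `(τ : ℕ) / 2 ^ i % 2 = e` at the
hubs `τ` counted by `cutE`; for a follower `r` with hub `τ = eP hR (.inr r)`: if `h τ = true`,
`w r = false` the factor of the label `.inr (.inl 0)` at the block `.inl τ`; if `h τ = false`,
`w r = true` the factor of the label `.inr (.inr (.inl 0))` at the block `.inr (.inr r)`. -/
theorem wup (hR : (m + 1) * 2 ^ L + R = 2 ^ κ) (hab : a + b ≤ 2 ^ L)
    (E : Fin a → Fin b → Bool) (c : ℕ) (h : Fin (2 ^ κ) → Bool)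
    (u : Fin (m + 1) × Fin (2 ^ L) → Bool) (w : Fin R → Bool) :
    wgt (spt (T := T) hR hab E) (sdr hab) sctr c (mkSt h u w) ≤
      hh c ^ cutE h * ∏ r, if h (eP hR (.inr r)) = w r then 1 else hh c := by
  have n1 : 0 ≤ ∏ l, ∏ x, fl (T := T) hR hab E c (mkSt h u w) l x :=
    Finset.prod_nonneg fun l _ => FL0 hR hab E c (mkSt h u w) l
  rw [wgt_eq]
  refine (mul_le_of_le_one_right n1 (P2_le hR hab E c _)).trans ?_
  refine (P1_le hR hab E c _).trans ?_
  have hz : (∏ z, if h (eP hR (.inl z)) = true ∧ u z = false then hh c else 1) ≤ (1 : ℚ) := by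
    refine Finset.prod_le_one (fun z _ => ?_) (fun z _ => ?_)
    · split_ifs
      · exact (hh_pos c).le
      · exact zero_le_one
    · split_ifs
      · exact hh_le_one c
      · exact le_rfl
  have hr0 : (0 : ℚ) ≤ ∏ r, if h (eP hR (.inr r)) = true ∧ w r = false then hh c else 1 := by
    refine Finset.prod_nonneg fun z _ => ?_
    split_ifs
    · exact (hh_pos c).le
    · exact zero_le_one
  have hB : FL hR hab E c (mkSt h u w) (.inr (.inl (0 : Fin (T + 1)))) ≤
      ∏ r, if h (eP hR (.inr r)) = true ∧ w r = false then hh c else 1 :=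
    (FLb hR hab E c h u w).trans (mul_le_of_le_one_left hr0 hz)
  have hD : (∏ j, FL (T := T) hR hab E c (mkSt h u w) (.inr (.inr (.inr (.inl j))))) ≤ 1 :=
    Finset.prod_le_one (fun _ _ => FL0 hR hab E c _ _) (fun _ _ => FL1 hR hab E c _ _)
  have hF : (∏ q, FL (T := T) hR hab E c (mkSt h u w) (.inr (.inr (.inr (.inr q))))) ≤ 1 :=
    Finset.prod_le_one (fun _ _ => FL0 hR hab E c _ _) (fun _ _ => FL1 hR hab E c _ _)
  refine (mul5 (FLa hR hab E c h u w) hB (FLc hR hab E c h u w) hD hF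
    (Finset.prod_nonneg fun _ _ => FL0 hR hab E c _ _) (FL0 hR hab E c _ _)
    (FL0 hR hab E c _ _) (Finset.prod_nonneg fun _ _ => FL0 hR hab E c _ _)
    (Finset.prod_nonneg fun _ _ => FL0 hR hab E c _ _)).trans (le_of_eq ?_)
  rw [mul_one, mul_one, ← Finset.prod_mul_distrib]
  congr 1
  refine Finset.prod_congr rfl fun r _ => ?_
  cases h (eP hR (.inr r)) <;> cases w r <;> simp

/-- All hubs `true`: the factors of the label `.inr (.inl 0)` at the hubs. -/
theorem wup_true (hR : (m + 1) * 2 ^ L + R = 2 ^ κ) (hab : a + b ≤ 2 ^ L)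
    (E : Fin a → Fin b → Bool) (c : ℕ)
    (u : Fin (m + 1) × Fin (2 ^ L) → Bool) (w : Fin R → Bool) :
    wgt (spt (T := T) hR hab E) (sdr hab) sctr c (mkSt (fun _ => true) u w) ≤
      (∏ z, if u z = true then 1 else hh c) * ∏ r, if w r = true then 1 else hh c := by
  have n1 : 0 ≤ ∏ l, ∏ x, fl (T := T) hR hab E c (mkSt (fun _ => true) u w) l x :=
    Finset.prod_nonneg fun l _ => FL0 hR hab E c (mkSt (fun _ => true) u w) l
  rw [wgt_eq]
  refine (mul_le_of_le_one_right n1 (P2_le hR hab E c _)).trans ?_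
  refine (prod_le_single (FL (T := T) hR hab E c (mkSt (fun _ => true) u w)) (FL0 hR hab E c _)
    (FL1 hR hab E c _) (.inr (.inl 0))).trans ?_
  refine (FLb hR hab E c (fun _ => true) u w).trans (le_of_eq ?_)
  congr 1
  · refine Finset.prod_congr rfl fun z _ => ?_
    cases u z <;> simp
  · refine Finset.prod_congr rfl fun r _ => ?_
    cases w r <;> simp

/-- All hubs `false`. The followers: the label `.inr (.inr (.inl 0))` at the block
`.inr (.inr r)`. The first product of `Phi`: for a pendant `y = .inr (.inl z)` in the state `true`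
and every class `.inr (.inl k)`, `k : Fin (T + 1)`, the label `.inr (.inl k)` is counted by `nF`, so
the factor is at most `gg c`. The second product: the label of the satellite at the block of the
satellite. The third product: the label of `(x, y)` at the block `spin (vL hab x)` (note that
`vL hab x ≠ vR hab y`). -/
theorem wup_false (hR : (m + 1) * 2 ^ L + R = 2 ^ κ) (hab : a + b ≤ 2 ^ L)
    (E : Fin a → Fin b → Bool) (c : ℕ)
    (u : Fin (m + 1) × Fin (2 ^ L) → Bool) (w : Fin R → Bool) :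
    wgt (spt (T := T) hR hab E) (sdr hab) sctr c (mkSt (fun _ => false) u w) ≤
      Phi T c hab E u * ∏ r, if w r = true then hh c else 1 := by
  set σ : SB κ L m R → Bool := mkSt (fun _ => false) u w with hσ
  rw [wgt_eq]
  -- the centre classes
  have h2 : ∏ y, ∏ γ, fc (T := T) hR hab E c σ y γ ≤
      ∏ z, if u z = true then gg c ^ (T + 1) else 1 := by
    refine (prod_le_inj (fun y => ∏ γ, fc (T := T) hR hab E c σ y γ)
      (fun y => Finset.prod_nonneg fun γ _ => fc0 hR hab E c σ y γ)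
      (fun y => Finset.prod_le_one (fun γ _ => fc0 hR hab E c σ y γ)
        (fun γ _ => fc1 hR hab E c σ y γ))
      (fun z => (.inr (.inl z) : SB κ L m R))
      (fun x y hxy => Sum.inl_injective (Sum.inr_injective hxy))).trans ?_
    refine Finset.prod_le_prod
      (fun z _ => Finset.prod_nonneg fun γ _ => fc0 hR hab E c σ _ γ) (fun z _ => ?_)
    split_ifs with hu
    · refine (prod_le_inj (fun γ => fc (T := T) hR hab E c σ (.inr (.inl z)) γ)
        (fun γ => fc0 hR hab E c σ _ γ) (fun γ => fc1 hR hab E c σ _ γ)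
        (fun k : Fin (T + 1) => (.inr (.inl k) : SG κ T))
        (fun x y hxy => Sum.inl_injective (Sum.inr_injective hxy))).trans ?_
      have h3 : ∀ k : Fin (T + 1), fc (T := T) hR hab E c σ (.inr (.inl z)) (.inr (.inl k)) ≤
          gg c := by
        intro k
        have h4 : 1 ≤ nF (spt (T := T) hR hab E) (sdr hab) sctr σ (.inr (.inl z))
            (.inr (.inl k)) := by
          refine Finset.card_pos.2 ⟨.inr (.inl k), ?_⟩
          rw [Finset.mem_filter]
          refine ⟨Finset.mem_univ _, rfl, rfl, hu, rfl⟩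
        unfold fc gg
        have h5 : ((1 : ℚ) / 2) ^ ((c + 1) * nF (spt (T := T) hR hab E) (sdr hab) sctr σ
            (.inr (.inl z)) (.inr (.inl k))) ≤ (1 / 2) ^ (c + 1) :=
          pow_le_pow_of_le_one (by norm_num) (by norm_num) (Nat.le_mul_of_pos_right _ h4)
        linarith
      refine (Finset.prod_le_prod (fun k _ => fc0 hR hab E c σ _ _) (fun k _ => h3 k)).trans
        (le_of_eq ?_)
      rw [Finset.prod_const, Finset.card_univ, Fintype.card_fin]
    · exact Finset.prod_le_one (fun γ _ => fc0 hR hab E c σ _ γ)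
        (fun γ _ => fc1 hR hab E c σ _ γ)
  -- the labels
  have hA : ∏ p, FL (T := T) hR hab E c σ (.inl p) ≤ 1 :=
    Finset.prod_le_one (fun _ _ => FL0 hR hab E c _ _) (fun _ _ => FL1 hR hab E c _ _)
  have hB : FL hR hab E c σ (.inr (.inl (0 : Fin (T + 1)))) ≤ 1 := FL1 hR hab E c _ _
  have hC : FL (T := T) hR hab E c σ (.inr (.inr (.inl 0))) ≤
      ∏ r, if w r = true then hh c else 1 := by
    refine (FLc hR hab E c (fun _ => false) u w).trans (le_of_eq ?_)
    refine Finset.prod_congr rfl fun r _ => ?_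
    cases w r <;> simp
  have hD : (∏ j, FL (T := T) hR hab E c σ (.inr (.inr (.inr (.inl j))))) ≤
      ∏ j : Fin m, ∏ i, if u (j.succ, i) = true ∧ u (0, i) = false then hh c else 1 := by
    refine Finset.prod_le_prod (fun _ _ => FL0 hR hab E c _ _) (fun j _ => ?_)
    refine (FL_inj hR hab E c σ _ (fun i => (.inr (.inl (j.succ, i)) : SB κ L m R))
      (fun x y hxy => by simpa using hxy)).trans (le_of_eq ?_)
    refine Finset.prod_congr rfl fun i _ => ?_
    simp [fl, sdr, spt, hσ, mkSt, Fin.succ_ne_zero]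
  have hF : (∏ q, FL (T := T) hR hab E c σ (.inr (.inr (.inr (.inr q))))) ≤
      ∏ x : Fin a, ∏ y : Fin b,
        if E x y = true ∧ u (0, vL hab x) = true ∧ u (0, vR hab y) = false then hh c else 1 := by
    rw [Fintype.prod_prod_type]
    refine Finset.prod_le_prod
      (fun x _ => Finset.prod_nonneg fun y _ => FL0 hR hab E c _ _) (fun x _ => ?_)
    refine Finset.prod_le_prod (fun y _ => FL0 hR hab E c _ _) (fun y _ => ?_)
    refine (prod_le_single _ (fl0 hR hab E c σ _) (fl1 hR hab E c σ _)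
      (spin (vL hab x))).trans ?_
    split_ifs with hE
    · obtain ⟨hE1, hE2, hE3⟩ := hE
      have h4 : sdr (κ := κ) (R := R) hab (.inr (.inr (.inr (.inr (x, y)))) : SL κ T m a b)
          (spin (vL hab x)) = true := decide_eq_true rfl
      have h5 : spt (T := T) hR hab E (.inr (.inr (.inr (.inr (x, y))))) (spin (vL hab x)) =
          spin (vR hab y) := by
        show (if E x y = true then Equiv.swap (spin (vL hab x)) (spin (vR hab y))
          (spin (vL hab x)) else spin (vL hab x)) = _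
        rw [if_pos hE1, Equiv.swap_apply_left]
      unfold fl
      rw [if_pos]
      refine ⟨h4, hE2, ?_⟩
      rw [h5]
      exact hE3
    · exact fl1 hR hab E c σ _ _
  have h1 : ∏ l, ∏ x, fl (T := T) hR hab E c σ l x ≤
      1 * (1 * ((∏ r, if w r = true then hh c else 1) *
        ((∏ j : Fin m, ∏ i, if u (j.succ, i) = true ∧ u (0, i) = false then hh c else 1) *
          ∏ x : Fin a, ∏ y : Fin b,
            if E x y = true ∧ u (0, vL hab x) = true ∧ u (0, vR hab y) = false
              then hh c else 1))) :=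
    (P1_le hR hab E c σ).trans (mul5 hA hB hC hD hF
      (Finset.prod_nonneg fun _ _ => FL0 hR hab E c _ _) (FL0 hR hab E c _ _)
      (FL0 hR hab E c _ _) (Finset.prod_nonneg fun _ _ => FL0 hR hab E c _ _)
      (Finset.prod_nonneg fun _ _ => FL0 hR hab E c _ _))
  have n2 : 0 ≤ ∏ y, ∏ γ, fc (T := T) hR hab E c σ y γ :=
    Finset.prod_nonneg fun y _ => Finset.prod_nonneg fun γ _ => fc0 hR hab E c σ y γ
  have n1 : 0 ≤ ∏ l, ∏ x, fl (T := T) hR hab E c σ l x :=
    Finset.prod_nonneg fun l _ => FL0 hR hab E c σ l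
  refine (mul_le_mul h1 h2 n2 (n1.trans h1)).trans (le_of_eq ?_)
  unfold Phi
  ring

end Pool.Agent.Lib.Pa7c826q
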