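import Pool.Agent.Lib.Pa7c826q.Defs

/-!
Expansion of sets of left vertices.

Adapt Lib/Pa7c826s/XExpL.lean. Let `D = |Λ| (c + 1) + (|Γ| + f)`, `S` a set of left vertices, `N`
its neighbourhood, `s x` the number of elements of `S` in the block `x`, heavy blocks `D < 2 s x`,
light blocks `0 < s x`, `2 s x ≤ D`, `n x` the number of elements of `N` in the block `x`.
(a) If `s x ≥ 2` then `n x = D` (every right vertex of the block `x` misses at most one left vertex
of the block `x`).
(b) If `s x = 1` then `n x ≥ D - |Λ| (c + 1)` (all centre slots and free slots of `x` are in `N`).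
So for light blocks `n x - s x ≥ |Λ| (c + 1) + K`, by `hK`.
(c) Let `x` be heavy, `y = pt l x ≠ x` with `s y = 0`. If `dr l x = true` then for every `j`
either `(x, (l, j)) ∉ S` or `(y, (l, j)) ∈ N`: `miss l x + gain l y ≥ c + 1 ≥ w l x`. If
`dr l x = false` then `(x, ctr l) ∉ S` or all `(y, (l, j)) ∈ N`:
`missC (ctr l) x + gain l y ≥ 1 ≥ w l x`, where `missC γ x ∈ {0, 1}` says whether the centre
slot `(x, γ)` is missing in `S`. By `hw2`, for given `x` and `γ` at most one label `l` with
`ctr l = γ`, `dr l x = false` has `w l x > 0`, so the sum over `l` of the missing centres is at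
most `∑ γ, missC γ x`.
(d) `D - s x ≥ ∑ l, miss l x + ∑ γ, missC γ x` for heavy `x`; `n y ≥ ∑ l, gain l y` for empty
`y`; the links from heavy to light blocks: at most `|Λ|` per light block, weight at most `c + 1`
each, so `|Λ| (c + 1)` per light block. Sum up.
-/

namespace Pool.Agent.Lib.Pa7c826q

open Pool.Agent.Lib.Pa7c826
open Pool.Agent.Lib.Pa7c826s (Pairing cutX)

variable {Λ Γ Blk : Type} [Fintype Λ] [Fintype Γ] [Fintype Blk] [DecidableEq Blk]
  {pt : Λ → Blk → Blk} {dr : Λ → Blk → Bool} {ctr : Λ → Γ} {c f : ℕ}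

namespace XExpLAux

open Classical in
/-- number of elements in a block -/
noncomputable def cnt (T : Finset (Vx Λ Γ Blk c f)) (x : Blk) : ℕ :=
  ∑ t : Slt Λ Γ c f, if (x, t) ∈ T then 1 else 0

open Classical in
/-- number of slots of a label in a set -/
noncomputable def gain (N : Finset (Vx Λ Γ Blk c f)) (l : Λ) (x : Blk) : ℕ :=
  ∑ j : Fin (c + 1), if ((x, Sum.inl (l, j)) : Vx Λ Γ Blk c f) ∈ N then 1 else 0

open Classical in
/-- number of slots of a label missing in a set -/
noncomputable def miss (S : Finset (Vx Λ Γ Blk c f)) (l : Λ) (x : Blk) : ℕ :=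
  ∑ j : Fin (c + 1), if ((x, Sum.inl (l, j)) : Vx Λ Γ Blk c f) ∈ S then 0 else 1

open Classical in
/-- is a centre slot in a set -/
noncomputable def gainC (N : Finset (Vx Λ Γ Blk c f)) (γ : Γ) (x : Blk) : ℕ :=
  if ((x, Sum.inr (Sum.inl γ)) : Vx Λ Γ Blk c f) ∈ N then 1 else 0

open Classical in
/-- is a centre slot missing in a set -/
noncomputable def missC (S : Finset (Vx Λ Γ Blk c f)) (γ : Γ) (x : Blk) : ℕ :=
  if ((x, Sum.inr (Sum.inl γ)) : Vx Λ Γ Blk c f) ∈ S then 0 else 1

theorem card_block (T : Finset (Vx Λ Γ Blk c f)) (x : Blk) :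
    (T.filter fun u => u.1 = x).card = cnt T x := by
  classical
  unfold cnt
  rw [← Finset.card_filter]
  refine Finset.card_bij (fun u _ => u.2) ?_ ?_ ?_
  · intro u hu
    obtain ⟨h1, h2⟩ := Finset.mem_filter.mp hu
    refine Finset.mem_filter.mpr ⟨Finset.mem_univ _, ?_⟩
    rw [← h2]
    exact h1
  · intro u hu v hv h
    obtain ⟨_, h2⟩ := Finset.mem_filter.mp hu
    obtain ⟨_, h4⟩ := Finset.mem_filter.mp hv
    exact Prod.ext (h2.trans h4.symm) h
  · intro t ht
    exact ⟨(x, t), Finset.mem_filter.mpr ⟨(Finset.mem_filter.mp ht).2, rfl⟩, rfl⟩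

theorem card_eq (T : Finset (Vx Λ Γ Blk c f)) : T.card = ∑ x, cnt T x := by
  rw [Finset.card_eq_sum_card_fiberwise (f := Prod.fst) (t := Finset.univ)
    (fun _ _ => Finset.mem_coe.mpr (Finset.mem_univ _))]
  exact Finset.sum_congr rfl fun x _ => card_block T x

theorem card_slt : Fintype.card (Slt Λ Γ c f) =
    Fintype.card Λ * (c + 1) + (Fintype.card Γ + f) := by
  simp [Slt]

theorem cnt_all {T : Finset (Vx Λ Γ Blk c f)} {x : Blk} (h : ∀ t, (x, t) ∈ T) :
    cnt T x = Fintype.card Λ * (c + 1) + (Fintype.card Γ + f) := by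
  classical
  unfold cnt
  rw [Finset.sum_congr rfl fun t _ => if_pos (h t)]
  rw [Finset.sum_const, Finset.card_univ, card_slt, smul_eq_mul, mul_one]

theorem cnt_eq (T : Finset (Vx Λ Γ Blk c f)) (x : Blk) :
    ∑ l, gain T l x + ∑ γ, gainC T γ x ≤ cnt T x := by
  classical
  unfold cnt gain gainC
  rw [Fintype.sum_sum_type, Fintype.sum_prod_type, Fintype.sum_sum_type]
  omega

theorem cnt_miss (T : Finset (Vx Λ Γ Blk c f)) (x : Blk) :
    cnt T x + (∑ l, miss T l x + ∑ γ, missC T γ x) ≤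
      Fintype.card Λ * (c + 1) + (Fintype.card Γ + f) := by
  classical
  unfold cnt miss missC
  rw [Fintype.sum_sum_type, Fintype.sum_prod_type, Fintype.sum_sum_type]
  have h1 : ∀ l : Λ,
      (∑ j : Fin (c + 1), if ((x, Sum.inl (l, j)) : Vx Λ Γ Blk c f) ∈ T then 1 else 0) +
      (∑ j : Fin (c + 1), if ((x, Sum.inl (l, j)) : Vx Λ Γ Blk c f) ∈ T then 0 else 1) =
        c + 1 := by
    intro l
    rw [← Finset.sum_add_distrib]
    calc _ = ∑ _j : Fin (c + 1), 1 := Finset.sum_congr rfl fun j _ => by split_ifs <;> rfl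
      _ = c + 1 := by simp
  have h2 : (∑ j : Fin f, if ((x, Sum.inr (Sum.inr j)) : Vx Λ Γ Blk c f) ∈ T then 1 else 0) ≤
      f := by
    calc _ ≤ ∑ _j : Fin f, 1 := Finset.sum_le_sum fun j _ => by split_ifs <;> norm_num
      _ = f := by simp
  have h3 : ∑ l : Λ,
      ((∑ j : Fin (c + 1), if ((x, Sum.inl (l, j)) : Vx Λ Γ Blk c f) ∈ T then 1 else 0) +
      (∑ j : Fin (c + 1), if ((x, Sum.inl (l, j)) : Vx Λ Γ Blk c f) ∈ T then 0 else 1)) =
      Fintype.card Λ * (c + 1) := by
    rw [Finset.sum_congr rfl fun l _ => h1 l]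
    simp
  have h4 : (∑ γ : Γ, if ((x, Sum.inr (Sum.inl γ)) : Vx Λ Γ Blk c f) ∈ T then 1 else 0) +
      (∑ γ : Γ, if ((x, Sum.inr (Sum.inl γ)) : Vx Λ Γ Blk c f) ∈ T then 0 else 1) =
        Fintype.card Γ := by
    rw [← Finset.sum_add_distrib]
    calc _ = ∑ _γ : Γ, 1 := Finset.sum_congr rfl fun j _ => by split_ifs <;> rfl
      _ = Fintype.card Γ := by simp
  rw [Finset.sum_add_distrib] at h3
  omega

/-- the excluded slot -/
theorem exists_excl (v : Vx Λ Γ Blk c f) :
    ∃ e : Slt Λ Γ c f, ∀ t, t ≠ e → XRel pt dr ctr c f (v.1, t) v := by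
  obtain ⟨x, v2⟩ := v
  rcases v2 with g | j
  · by_cases h1 : pt g.1 x = x
    · exact ⟨Sum.inl g, fun t _ => Or.inl ⟨h1, rfl⟩⟩
    · by_cases h2 : dr g.1 x = true
      · exact ⟨Sum.inl g, fun t ht => Or.inr (Or.inl ⟨h1, h2, Or.inl ⟨rfl, ht⟩⟩)⟩
      · rw [Bool.not_eq_true] at h2
        exact ⟨Sum.inr (Sum.inl (ctr g.1)),
          fun t ht => Or.inr (Or.inr ⟨h1, h2, Or.inl ⟨rfl, ht⟩⟩)⟩
  · exact ⟨Sum.inr j, fun t _ => rfl⟩

theorem adj_inr {x : Blk} {t : Slt Λ Γ c f} {t' : Γ ⊕ Fin f} :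
    XRel pt dr ctr c f (x, t) (x, Sum.inr t') := rfl

theorem cnt_two {S N : Finset (Vx Λ Γ Blk c f)}
    (hN : ∀ v, v ∈ N ↔ ∃ u ∈ S, XRel pt dr ctr c f u v) {x : Blk} (h : 2 ≤ cnt S x) :
    cnt N x = Fintype.card Λ * (c + 1) + (Fintype.card Γ + f) := by
  classical
  refine cnt_all fun t => ?_
  obtain ⟨e, he⟩ := exists_excl (pt := pt) (dr := dr) (ctr := ctr) (x, t)
  rw [← card_block] at h
  obtain ⟨u, hu, u', hu', hne⟩ := Finset.one_lt_card.mp h
  obtain ⟨h1, h2⟩ := Finset.mem_filter.mp hu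
  obtain ⟨h3, h4⟩ := Finset.mem_filter.mp hu'
  rw [hN]
  by_cases hc : u.2 = e
  · have hc' : u'.2 ≠ e := by
      intro h5
      exact hne (Prod.ext (h2.trans h4.symm) (hc.trans h5.symm))
    refine ⟨u', h3, ?_⟩
    have := he u'.2 hc'
    have e1 : ((x, t) : Vx Λ Γ Blk c f).1 = u'.1 := h4.symm
    rw [e1] at this
    exact this
  · refine ⟨u, h1, ?_⟩
    have := he u.2 hc
    have e1 : ((x, t) : Vx Λ Γ Blk c f).1 = u.1 := h2.symm
    rw [e1] at this
    exact this

theorem cnt_one {S N : Finset (Vx Λ Γ Blk c f)}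
    (hN : ∀ v, v ∈ N ↔ ∃ u ∈ S, XRel pt dr ctr c f u v) {x : Blk} (h : 1 ≤ cnt S x) :
    Fintype.card Γ + f ≤ cnt N x := by
  classical
  rw [← card_block] at h
  obtain ⟨u, hu⟩ := Finset.card_pos.mp h
  obtain ⟨h1, h2⟩ := Finset.mem_filter.mp hu
  obtain ⟨u1, t⟩ := u
  simp only at h2
  subst h2
  have hmem : ∀ t' : Γ ⊕ Fin f, ((u1, Sum.inr t') : Vx Λ Γ Blk c f) ∈ N := by
    intro t'
    rw [hN]
    exact ⟨_, h1, adj_inr⟩
  unfold cnt
  rw [Fintype.sum_sum_type, Finset.sum_congr rfl fun (t' : Γ ⊕ Fin f) _ => if_pos (hmem t'),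
    Finset.sum_const, Finset.card_univ, Fintype.card_sum, Fintype.card_fin, smul_eq_mul, mul_one]
  exact Nat.le_add_left _ _

/-- at most one label of every centre class counts -/
theorem sum_ctr (g : Γ → ℕ) (P : Λ → Prop) [DecidablePred P]
    (hP : ∀ l l', P l → P l' → ctr l = ctr l' → l = l') :
    ∑ l, (if P l then g (ctr l) else 0) ≤ ∑ γ, g γ := by
  classical
  rw [← Finset.sum_filter]
  have hinj : Set.InjOn ctr (Finset.univ.filter P : Finset Λ) := by
    intro l hl l' hl' h
    exact hP l l' (Finset.mem_filter.mp (Finset.mem_coe.mp hl)).2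
      (Finset.mem_filter.mp (Finset.mem_coe.mp hl')).2 h
  rw [← Finset.sum_image (f := g) hinj]
  exact Finset.sum_le_sum_of_subset (Finset.subset_univ _)

/-- the summation -/
theorem final (hinv : ∀ l x, pt l (pt l x) = x) {D K : ℕ} (s n : Blk → ℕ)
    (w M G : Λ → Blk → ℕ) (hw : ∀ l x, w l x ≤ c + 1)
    (hpt : ∀ x, s x + (if D < 2 * s x then ∑ l, M l x else 0) +
      (if s x = 0 then ∑ l, G l x else 0) +
      (if 0 < s x ∧ 2 * s x ≤ D then Fintype.card Λ * (c + 1) + K else 0) ≤ n x)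
    (hlink : ∀ l x, pt l x ≠ x → w l x ≤ M l x + G l (pt l x)) :
    ∑ x, s x + cutX pt w (Finset.univ.filter fun x => D < 2 * s x) +
      K * (Finset.univ.filter fun x => 0 < s x ∧ 2 * s x ≤ D).card ≤ ∑ x, n x := by
  classical
  -- cut links
  have hcut : ∀ l, (∑ x ∈ Finset.univ.filter fun x => D < 2 * s x,
      if pt l x ∈ Finset.univ.filter fun x => D < 2 * s x then 0 else w l x) ≤
      (∑ x, if D < 2 * s x then M l x else 0) +
      (∑ y, if s y = 0 then G l y else 0) +
      (∑ y, if 0 < s y ∧ 2 * s y ≤ D then c + 1 else 0) := by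
    intro l
    have hinv' : Function.Involutive (pt l) := hinv l
    have e1 : ∀ g : Blk → ℕ, ∑ y, g y = ∑ x, g (pt l x) := fun g =>
      (Equiv.sum_comp (hinv'.toPerm (pt l)) g).symm
    rw [e1 (fun y => if s y = 0 then G l y else 0),
      e1 (fun y => if 0 < s y ∧ 2 * s y ≤ D then c + 1 else 0), Finset.sum_filter,
      ← Finset.sum_add_distrib, ← Finset.sum_add_distrib]
    refine Finset.sum_le_sum fun x _ => ?_
    by_cases h1 : D < 2 * s x
    · rw [if_pos h1, if_pos h1]
      have hmem : pt l x ∈ Finset.univ.filter (fun x => D < 2 * s x) ↔ D < 2 * s (pt l x) := by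
        simp
      by_cases h2 : D < 2 * s (pt l x)
      · rw [if_pos (hmem.mpr h2)]
        exact Nat.zero_le _
      · rw [if_neg fun h => h2 (hmem.mp h)]
        have hne : pt l x ≠ x := by
          intro h
          rw [h] at h2
          exact h2 h1
        by_cases h3 : s (pt l x) = 0
        · rw [if_pos h3, if_neg (by omega)]
          have := hlink l x hne
          omega
        · rw [if_neg h3, if_pos (by omega)]
          have := hw l x
          omega
    · rw [if_neg h1, if_neg h1]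
      exact Nat.zero_le _
  have hsum := Finset.sum_le_sum fun x (_ : x ∈ Finset.univ) => hpt x
  rw [Finset.sum_add_distrib, Finset.sum_add_distrib, Finset.sum_add_distrib] at hsum
  have hcutx : cutX pt w (Finset.univ.filter fun x => D < 2 * s x) ≤
      (∑ x, if D < 2 * s x then ∑ l, M l x else 0) +
      (∑ x, if s x = 0 then ∑ l, G l x else 0) +
      (Finset.univ.filter fun x => 0 < s x ∧ 2 * s x ≤ D).card *
        (Fintype.card Λ * (c + 1)) := by
    unfold cutX
    refine le_trans (Finset.sum_le_sum fun l _ => hcut l) ?_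
    rw [Finset.sum_add_distrib, Finset.sum_add_distrib, Finset.sum_comm,
      Finset.sum_comm (f := fun l y => if s y = 0 then G l y else 0)]
    refine Nat.add_le_add (Nat.add_le_add (le_of_eq ?_) (le_of_eq ?_)) (le_of_eq ?_)
    · refine Finset.sum_congr rfl fun x _ => ?_
      split_ifs <;> simp
    · refine Finset.sum_congr rfl fun x _ => ?_
      split_ifs <;> simp
    · rw [Finset.sum_const, Finset.card_univ, smul_eq_mul, ← Finset.sum_filter,
        Finset.sum_const, smul_eq_mul]
      ring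
  have hB : ∑ x, (if 0 < s x ∧ 2 * s x ≤ D then Fintype.card Λ * (c + 1) + K else 0) =
      (Finset.univ.filter fun x => 0 < s x ∧ 2 * s x ≤ D).card *
        (Fintype.card Λ * (c + 1)) +
      K * (Finset.univ.filter fun x => 0 < s x ∧ 2 * s x ≤ D).card := by
    rw [← Finset.sum_filter, Finset.sum_const, smul_eq_mul]
    ring
  rw [hB] at hsum
  omega

open Classical in
/-- the missing slots that belong to a label -/
noncomputable def missT (dr : Λ → Blk → Bool) (ctr : Λ → Γ) (w : Λ → Blk → ℕ)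
    (S : Finset (Vx Λ Γ Blk c f)) (l : Λ) (x : Blk) : ℕ :=
  if dr l x = true then miss S l x else if 0 < w l x then missC S (ctr l) x else 0

theorem sum_missT {w : Λ → Blk → ℕ}
    (hw2 : ∀ x l l', dr l x = false → dr l' x = false → ctr l = ctr l' → 0 < w l x →
      0 < w l' x → l = l') (S : Finset (Vx Λ Γ Blk c f)) (x : Blk) :
    ∑ l, missT dr ctr w S l x ≤ ∑ l, miss S l x + ∑ γ, missC S γ x := by
  classical
  have h1 : ∀ l, missT dr ctr w S l x ≤ miss S l x +
      (if (dr l x = false ∧ 0 < w l x) then missC S (ctr l) x else 0) := by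
    intro l
    unfold missT
    by_cases h : dr l x = true
    · rw [if_pos h]
      exact Nat.le_add_right _ _
    · rw [if_neg h]
      rw [Bool.not_eq_true] at h
      by_cases h2 : 0 < w l x
      · rw [if_pos h2, if_pos ⟨h, h2⟩]
        exact Nat.le_add_left _ _
      · rw [if_neg h2]
        exact Nat.zero_le _
  refine (Finset.sum_le_sum fun l _ => h1 l).trans ?_
  rw [Finset.sum_add_distrib]
  refine Nat.add_le_add_left ?_ _
  exact sum_ctr (fun γ => missC S γ x) (fun l => dr l x = false ∧ 0 < w l x)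
    fun l l' h h' h'' => hw2 x l l' h.1 h'.1 h'' h.2 h'.2

/-- links to blocks without elements of `S` -/
theorem link_gain (hp : Pairing pt dr) {w : Λ → Blk → ℕ}
    (hw1 : ∀ l x, w l x ≤ bif dr l x then c + 1 else 1) {S N : Finset (Vx Λ Γ Blk c f)}
    (hN : ∀ v, v ∈ N ↔ ∃ u ∈ S, XRel pt dr ctr c f u v) (l : Λ) (x : Blk) (hx : pt l x ≠ x) :
    w l x ≤ missT dr ctr w S l x + gain N l (pt l x) := by
  classical
  have hxx : pt l (pt l x) = x := hp.inv l x
  have hne : pt l (pt l x) ≠ pt l x := by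
    rw [hxx]
    exact fun h => hx h.symm
  have hdir := hp.dir l x hx
  have hwx := hw1 l x
  unfold missT
  by_cases h2 : dr l x = true
  · rw [if_pos h2]
    rw [h2, cond_true] at hwx
    refine hwx.trans ?_
    unfold miss gain
    rw [← Finset.sum_add_distrib]
    rw [h2, Bool.not_true] at hdir
    calc c + 1 = ∑ _j : Fin (c + 1), 1 := by simp
      _ ≤ _ := Finset.sum_le_sum fun j _ => ?_
    by_cases hj : ((x, Sum.inl (l, j)) : Vx Λ Γ Blk c f) ∈ S
    · have h3 : ((pt l x, Sum.inl (l, j)) : Vx Λ Γ Blk c f) ∈ N := by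
        rw [hN]
        refine ⟨_, hj, Or.inr (Or.inr ⟨hne, hdir, Or.inr ⟨?_, rfl⟩⟩)⟩
        exact hxx.symm
      rw [if_pos h3]
      omega
    · rw [if_neg hj]
      omega
  · rw [if_neg h2]
    rw [Bool.not_eq_true] at h2
    rw [h2, cond_false] at hwx
    rw [h2, Bool.not_false] at hdir
    by_cases hw0 : 0 < w l x
    · rw [if_pos hw0]
      by_cases hj : ((x, Sum.inr (Sum.inl (ctr l))) : Vx Λ Γ Blk c f) ∈ S
      · have h3 : ((pt l x, Sum.inl (l, 0)) : Vx Λ Γ Blk c f) ∈ N := by
          rw [hN]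
          refine ⟨_, hj, Or.inr (Or.inl ⟨hne, hdir, Or.inr ⟨?_, rfl⟩⟩)⟩
          exact hxx.symm
        have h4 : 1 ≤ gain N l (pt l x) := by
          unfold gain
          calc 1 = if ((pt l x, Sum.inl (l, 0)) : Vx Λ Γ Blk c f) ∈ N then 1 else 0 := by
                rw [if_pos h3]
            _ ≤ _ := Finset.single_le_sum (f := fun j : Fin (c + 1) =>
                if ((pt l x, Sum.inl (l, j)) : Vx Λ Γ Blk c f) ∈ N then 1 else 0)
                (fun _ _ => Nat.zero_le _) (Finset.mem_univ 0)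
        omega
      · have h4 : missC S (ctr l) x = 1 := by
          unfold missC
          rw [if_neg hj]
        omega
    · omega

end XExpLAux

open XExpLAux in
theorem gain_left (hp : Pairing pt dr) {D K : ℕ}
    (hD : D = Fintype.card Λ * (c + 1) + (Fintype.card Γ + f))
    (hK : 2 * (Fintype.card Λ * (c + 1)) + 2 * Fintype.card Γ + 2 * K + 2 ≤ D)
    {w : Λ → Blk → ℕ} (hw1 : ∀ l x, w l x ≤ bif dr l x then c + 1 else 1)
    (hw2 : ∀ x l l', dr l x = false → dr l' x = false → ctr l = ctr l' → 0 < w l x →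
      0 < w l' x → l = l')
    (S N : Finset (Vx Λ Γ Blk c f)) (hN : ∀ v, v ∈ N ↔ ∃ u ∈ S, XRel pt dr ctr c f u v)
    (s : Blk → ℕ) (hs : ∀ x, s x = (S.filter fun u => u.1 = x).card) :
    S.card + cutX pt w (Finset.univ.filter fun x => D < 2 * s x) +
      K * (Finset.univ.filter fun x => 0 < s x ∧ 2 * s x ≤ D).card ≤ N.card := by
  classical
  have hsc : ∀ x, s x = cnt S x := fun x => by rw [hs, card_block]
  have hS1 : S.card = ∑ x, s x := by
    rw [card_eq S]
    exact Finset.sum_congr rfl fun x _ => (hsc x).symm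
  rw [hS1, card_eq N]
  refine final (c := c) hp.inv s (cnt N) w (missT dr ctr w S) (gain N) (fun l x => ?_) (fun x => ?_)
    (link_gain hp hw1 hN)
  · refine (hw1 l x).trans ?_
    cases dr l x <;> simp
  · by_cases h1 : D < 2 * s x
    · have h2 : 2 ≤ cnt S x := by rw [← hsc]; omega
      have h3 := cnt_two hN h2
      have h4 := cnt_miss S x
      have h5 := sum_missT hw2 S x
      rw [if_pos h1, if_neg (by omega), if_neg (by omega), h3, hsc x]
      omega
    · rw [if_neg h1]
      by_cases h5 : s x = 0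
      · rw [if_pos h5, if_neg (by omega), h5]
        have := cnt_eq N x
        omega
      · rw [if_neg h5, if_pos (by omega)]
        by_cases h6 : 2 ≤ s x
        · have h7 : 2 ≤ cnt S x := by rw [← hsc]; exact h6
          have h8 := cnt_two hN h7
          rw [h8]
          omega
        · have h7 : 1 ≤ cnt S x := by rw [← hsc]; omega
          have h8 := cnt_one hN h7
          omega

open XExpLAux in
/-- heavy blocks have all right vertices as neighbours -/
theorem full_left (hp : Pairing pt dr) {D K : ℕ}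
    (hD : D = Fintype.card Λ * (c + 1) + (Fintype.card Γ + f))
    (hK : 2 * (Fintype.card Λ * (c + 1)) + 2 * Fintype.card Γ + 2 * K + 2 ≤ D)
    (S N : Finset (Vx Λ Γ Blk c f)) (hN : ∀ v, v ∈ N ↔ ∃ u ∈ S, XRel pt dr ctr c f u v)
    (s : Blk → ℕ) (hs : ∀ x, s x = (S.filter fun u => u.1 = x).card) :
    D * (Finset.univ.filter fun x => D < 2 * s x).card ≤ N.card := by
  classical
  have hsc : ∀ x, s x = cnt S x := fun x => by rw [hs, card_block]
  rw [card_eq N]
  calc D * (Finset.univ.filter fun x => D < 2 * s x).card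
      = ∑ x ∈ Finset.univ.filter (fun x => D < 2 * s x), D := by
        rw [Finset.sum_const, smul_eq_mul, mul_comm]
    _ ≤ ∑ x ∈ Finset.univ.filter (fun x => D < 2 * s x), cnt N x := by
        refine Finset.sum_le_sum fun x hx => ?_
        have h1 := (Finset.mem_filter.mp hx).2
        have h2 : 2 ≤ cnt S x := by rw [← hsc]; omega
        rw [cnt_two hN h2, hD]
    _ ≤ ∑ x, cnt N x :=
        Finset.sum_le_sum_of_subset (Finset.filter_subset _ _)

end Pool.Agent.Lib.Pa7c826q
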