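import Pool.Agent.Lib.Pa7c826q.Defs

/-!
The number of pure sets for a given state of the blocks.

Proof. Fix `σ`. A set `U` of vertices is pure iff for every link (label `l`, source `x`, target
`y = pt l x ≠ x`) and every `j`:
(1) if `σ x = true`, `σ y = false`: not both `(x, (l, j))` and `(y, (l, j))` are in `U`;
(2) if `σ x = false`, `σ y = true`: not both `(y, ctr l)` and `(x, (l, j))` are in `U`
(see `xpure_iff` in Lib/Pa7c826s/XPure.lean). Split `U` into the set `Z ⊆ Blk × Γ` of its centre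
slots and the rest. For a given `Z` the conditions on the rest are: (1), and (2') `(x, (l, j)) ∉ U`
whenever `σ x = false`, `σ y = true` and `(y, ctr l) ∈ Z`. These are conditions on the pairs of
coordinates `(x, (l, j))`, `(y, (l, j))`, which are disjoint for different links (`xcrd`,
`xcrd_injective` in Lib/Pa7c826s/XPure.lean) so by `card_constrained` (Lib/Pa7c826/Block.lean; with
the link as index and `Fin (c + 1) × Bool` as coordinates of a link) their number is
`2 ^ (|Blk| (|Λ| (c + 1) + f))` times the product over the links of `(3 / 4) ^ (c + 1)` in case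
(1), `(1 / 2) ^ (c + 1)` in case (2) with `(y, ctr l) ∈ Z`, and `1` otherwise. Sum over `Z`: the
sum of a product over the pairs `(y, γ)` is a product of sums (`Finset.prod_add` or
`Finset.prod_univ_sum`): the pair `(y, γ)` contributes
`1 + (1 / 2) ^ ((c + 1) * nF pt dr ctr σ y γ)`, since the links of case (2) with target `y` and
`ctr l = γ` are the labels counted by `nF` (one source for each label). Finally
`2 ^ (|Blk| |Γ|)` is put in front. The identity was checked numerically on random examples.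
-/

namespace Pool.Agent.Lib.Pa7c826q

open Pool.Agent.Lib.Pa7c826
open Pool.Agent.Lib.Pa7c826s (Pairing cutX)

namespace XPureAux

variable {Λ Γ Blk : Type} (pt : Λ → Blk → Blk) (dr : Λ → Blk → Bool) (ctr : Λ → Γ) (c f : ℕ)

/-- links -/
abbrev Lk : Type := {g : Λ × Blk // pt g.1 g.2 ≠ g.2 ∧ dr g.1 g.2 = true}

/-- slots that are not centres -/
abbrev Rst (Λ Blk : Type) (c f : ℕ) : Type := Blk × ((Λ × Fin (c + 1)) ⊕ Fin f)

/-- the coordinates touched by a link -/
def xcrd (p : Lk pt dr × (Fin (c + 1) × Bool)) : Rst Λ Blk c f :=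
  (bif p.2.2 then pt p.1.1.1 p.1.1.2 else p.1.1.2, .inl (p.1.1.1, p.2.1))

variable {pt dr}

theorem xcrd_injective (hp : Pairing pt dr) : Function.Injective (xcrd pt dr c f) := by
  rintro ⟨⟨⟨l, x⟩, hx, hd⟩, j, b⟩ ⟨⟨⟨l', x'⟩, hx', hd'⟩, j', b'⟩ h
  simp only [xcrd, Prod.mk.injEq, Sum.inl.injEq] at h
  obtain ⟨h1, rfl, rfl⟩ := h
  simp only at hx hd hx' hd'
  cases b <;> cases b'
  · simp only [cond_false] at h1
    subst h1
    rfl
  · simp only [cond_false, cond_true] at h1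
    rw [h1, hp.dir l x' hx', hd'] at hd
    exact absurd hd (by simp)
  · simp only [cond_false, cond_true] at h1
    rw [← h1, hp.dir l x hx, hd] at hd'
    exact absurd hd' (by simp)
  · simp only [cond_true] at h1
    have h2 : x = x' := by rw [← hp.inv l x, h1, hp.inv]
    subst h2
    rfl

/-- edges between different blocks -/
theorem XRel_diff {u v : Vx Λ Γ Blk c f} (h : u.1 ≠ v.1) :
    XRel pt dr ctr c f u v ↔ ∃ g : Λ × Fin (c + 1), v.2 = .inl g ∧ pt g.1 v.1 ≠ v.1 ∧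
      ((dr g.1 v.1 = true ∧ u.1 = pt g.1 v.1 ∧ u.2 = .inr (.inl (ctr g.1))) ∨
        (dr g.1 v.1 = false ∧ u.1 = pt g.1 v.1 ∧ u.2 = .inl g)) := by
  unfold XRel
  rcases hv : v.2 with g | s'
  · simp only
    constructor
    · rintro (⟨_, h1⟩ | ⟨h1, h2, ⟨h3, _⟩ | ⟨h3, h4⟩⟩ | ⟨h1, h2, ⟨h3, _⟩ | ⟨h3, h4⟩⟩)
      · exact absurd h1 h
      · exact absurd h3 h
      · exact ⟨g, rfl, h1, Or.inl ⟨h2, h3, h4⟩⟩
      · exact absurd h3 h
      · exact ⟨g, rfl, h1, Or.inr ⟨h2, h3, h4⟩⟩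
    · rintro ⟨g', hg, h1, h2⟩
      simp only [Sum.inl.injEq] at hg
      subst hg
      rcases h2 with ⟨h2, h3, h4⟩ | ⟨h2, h3, h4⟩
      · exact Or.inr (Or.inl ⟨h1, h2, Or.inr ⟨h3, h4⟩⟩)
      · exact Or.inr (Or.inr ⟨h1, h2, Or.inr ⟨h3, h4⟩⟩)
  · simp only
    constructor
    · intro h1; exact absurd h1 h
    · rintro ⟨g, hg, _⟩
      simp at hg

/-- the constraint of a link with source in state `s`, target in state `t`; `z` says that the centre
slot of the target belongs to the set -/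
def con2 (c : ℕ) (z : Prop) (s t : Bool) (v : Set (Fin (c + 1) × Bool)) : Prop :=
  (s = true ∧ t = false → ∀ j, ¬ ((j, false) ∈ v ∧ (j, true) ∈ v)) ∧
    (s = false ∧ t = true → z → ∀ j, (j, false) ∉ v)

/-- embedding of the slots that are not centres -/
def emb (w : Rst Λ Blk c f) : Vx Λ Γ Blk c f :=
  (w.1, match w.2 with
    | .inl a => .inl a
    | .inr b => .inr (.inr b))

/-- splitting a set of vertices into centre slots and the rest -/
def splitU : Set (Vx Λ Γ Blk c f) ≃ Set (Blk × Γ) × Set (Rst Λ Blk c f) where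
  toFun U := ({p | (p.1, .inr (.inl p.2)) ∈ U}, {w | emb c f w ∈ U})
  invFun P := {u | match u.2 with
    | .inl a => (u.1, .inl a) ∈ P.2
    | .inr (.inl γ) => (u.1, γ) ∈ P.1
    | .inr (.inr b) => (u.1, .inr b) ∈ P.2}
  left_inv := by
    intro U
    ext ⟨x, a | γ | b⟩ <;> exact Iff.rfl
  right_inv := by
    rintro ⟨Z, V⟩
    refine Prod.ext ?_ ?_
    · ext ⟨x, γ⟩
      exact Iff.rfl
    · ext ⟨x, a | b⟩ <;> exact Iff.rfl

theorem xpure_iff (hp : Pairing pt dr) (σ : Blk → Bool) (U : Set (Vx Λ Γ Blk c f)) :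
    XPure pt dr ctr c f σ U ↔
      ∀ g : Lk pt dr, con2 c ((pt g.1.1 g.1.2, ctr g.1.1) ∈ (splitU c f U).1) (σ g.1.2)
        (σ (pt g.1.1 g.1.2)) {d | xcrd pt dr c f (g, d) ∈ (splitU c f U).2} := by
  constructor
  · rintro h ⟨⟨l, x⟩, hx, hd⟩
    simp only at hx hd
    have hx' : pt l (pt l x) ≠ pt l x := by rw [hp.inv]; exact fun e => hx e.symm
    constructor
    · rintro ⟨h1, h2⟩ j ⟨h3, h4⟩
      refine h _ h3 _ h4 h1 h2 ?_
      rw [XRel_diff]
      · refine ⟨(l, j), rfl, hx', Or.inr ⟨?_, ?_, rfl⟩⟩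
        · show dr l (pt l x) = false
          rw [hp.dir l x hx, hd]
          rfl
        · show x = pt l (pt l x)
          rw [hp.inv]
      · show x ≠ pt l x
        exact fun e => hx e.symm
    · rintro ⟨h1, h2⟩ h3 j h4
      refine h _ h3 _ h4 h2 h1 ?_
      rw [XRel_diff]
      · exact ⟨(l, j), rfl, hx, Or.inl ⟨hd, rfl, rfl⟩⟩
      · show pt l x ≠ x
        exact hx
  · intro h u hu v hv h1 h2 hR
    rw [XRel_diff ctr c f (by intro e; rw [e, h2] at h1; exact absurd h1 (by simp))] at hR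
    obtain ⟨⟨l, j⟩, h3, h4, ⟨h5, h6, h7⟩ | ⟨h5, h6, h7⟩⟩ := hR
    · simp only at h4 h5 h6 h7
      refine (h ⟨(l, v.1), h4, h5⟩).2 ⟨h2, ?_⟩ ?_ j ?_
      · show σ (pt l v.1) = true
        rw [← h6]; exact h1
      · show ((pt l v.1, .inr (.inl (ctr l))) : Vx Λ Γ Blk c f) ∈ U
        have : ((pt l v.1, .inr (.inl (ctr l))) : Vx Λ Γ Blk c f) = u :=
          Prod.ext h6.symm h7.symm
        rw [this]; exact hu
      · show ((v.1, .inl (l, j)) : Vx Λ Γ Blk c f) ∈ U
        have : ((v.1, .inl (l, j)) : Vx Λ Γ Blk c f) = v := Prod.ext rfl h3.symm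
        rw [this]; exact hv
    · simp only at h4 h5 h6 h7
      have h8 : pt l u.1 = v.1 := by rw [h6, hp.inv]
      have h9 : pt l u.1 ≠ u.1 := by rw [h8, h6]; exact fun e => h4 e.symm
      have h10 : dr l u.1 = true := by rw [h6, hp.dir l v.1 h4, h5]; rfl
      refine (h ⟨(l, u.1), h9, h10⟩).1 ⟨h1, ?_⟩ j ⟨?_, ?_⟩
      · show σ (pt l u.1) = false
        rw [h8]; exact h2
      · show ((u.1, .inl (l, j)) : Vx Λ Γ Blk c f) ∈ U
        have : ((u.1, .inl (l, j)) : Vx Λ Γ Blk c f) = u := Prod.ext rfl h7.symm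
        rw [this]; exact hu
      · show ((pt l u.1, .inl (l, j)) : Vx Λ Γ Blk c f) ∈ U
        have : ((pt l u.1, .inl (l, j)) : Vx Λ Γ Blk c f) = v := Prod.ext h8 h3.symm
        rw [this]; exact hv

open Classical in
/-- normalised number of sets satisfying the constraint of a link -/
noncomputable def nw2 (c : ℕ) (z : Prop) (s t : Bool) : ℚ :=
  (if s = true ∧ t = false then hh c else 1) *
    (if s = false ∧ t = true ∧ z then (1 / 2) ^ (c + 1) else 1)

theorem card_all (c : ℕ) : Nat.card (Set (Fin (c + 1) × Bool)) = 4 ^ (c + 1) := by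
  rw [card_set', Nat.card_prod, Nat.card_eq_fintype_card, Nat.card_eq_fintype_card,
    Fintype.card_fin, Fintype.card_bool, mul_comm, pow_mul]
  norm_num

theorem card_nofalse (c : ℕ) :
    Nat.card {v : Set (Fin (c + 1) × Bool) // ∀ j, (j, false) ∉ v} = 2 ^ (c + 1) := by
  have h := card_constrained (κ := Fin (c + 1) × Bool) (Γ := Fin (c + 1)) (δ := Unit)
    (fun p => (p.1, false)) (fun p q h => Prod.ext (Prod.mk.inj h).1 rfl)
    (fun _ v => () ∉ v)
  have h1 : Nat.card {v : Set Unit // () ∉ v} = 1 := by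
    rw [Nat.card_eq_one_iff_unique]
    refine ⟨⟨fun a b => ?_⟩, ⟨⟨∅, fun h => h.elim⟩⟩⟩
    apply Subtype.ext
    ext ⟨⟩
    exact ⟨fun h => absurd h a.2, fun h => absurd h b.2⟩
  rw [Finset.prod_const, h1, one_pow, mul_one] at h
  simp only [Fintype.card_prod, Fintype.card_fin, Fintype.card_bool, Fintype.card_unit,
    mul_one] at h
  have h4 : Nat.card {v : Set (Fin (c + 1) × Bool) // ∀ j, (j, false) ∉ v} =
      Nat.card {U : Set (Fin (c + 1) × Bool) //
        ∀ γ, () ∉ {d | (((γ, d) : Fin (c + 1) × Unit).1, false) ∈ U}} :=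
    Nat.card_congr (Equiv.subtypeEquivRight fun v => Iff.rfl)
  rw [h4]
  have h5 : (2 : ℕ) ^ ((c + 1) * 2) = 2 ^ (c + 1) * 2 ^ (c + 1) := by ring
  rw [h5] at h
  exact Nat.eq_of_mul_eq_mul_right (by positivity) h

theorem card_con2 (c : ℕ) (z : Prop) (s t : Bool) :
    (Nat.card {v : Set (Fin (c + 1) × Bool) // con2 c z s t v} : ℚ) =
      nw2 c z s t * 4 ^ (c + 1) := by
  classical
  have hall : (∀ v : Set (Fin (c + 1) × Bool), con2 c z s t v) →
      (Nat.card {v : Set (Fin (c + 1) × Bool) // con2 c z s t v} : ℚ) = 4 ^ (c + 1) := by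
    intro h
    rw [Nat.card_congr (Equiv.subtypeUnivEquiv h), card_all]
    push_cast
    rfl
  unfold nw2
  cases s <;> cases t
  · rw [hall (fun v => ⟨fun h => absurd h.1 (by simp), fun h => absurd h.2 (by simp)⟩)]
    simp
  · by_cases hz : z
    · have h1 : Nat.card {v : Set (Fin (c + 1) × Bool) // con2 c z false true v} =
          Nat.card {v : Set (Fin (c + 1) × Bool) // ∀ j, (j, false) ∉ v} := by
        refine Nat.card_congr (Equiv.subtypeEquivRight fun v => ?_)
        constructor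
        · intro h
          exact h.2 ⟨rfl, rfl⟩ hz
        · intro h
          exact ⟨fun h => absurd h.1 (by simp), fun _ _ => h⟩
      rw [h1, card_nofalse, if_neg (by simp), if_pos ⟨rfl, rfl, hz⟩, one_mul]
      push_cast
      rw [← mul_pow]
      norm_num
    · rw [hall (fun v => ⟨fun h => absurd h.1 (by simp), fun _ h => absurd h hz⟩)]
      simp [hz]
  · have h1 : Nat.card {v : Set (Fin (c + 1) × Bool) // con2 c z true false v} =
        wt c True true false := by
      unfold wt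
      refine Nat.card_congr (Equiv.subtypeEquivRight fun v => ?_)
      constructor
      · intro h _
        exact ⟨h.1, fun h => absurd h.1 (by simp)⟩
      · intro h
        exact ⟨(h trivial).1, fun h => absurd h.1 (by simp)⟩
    rw [h1, wt_LR trivial, xx_eq]
    simp
  · rw [hall (fun v => ⟨fun h => absurd h.2 (by simp), fun h => absurd h.1 (by simp)⟩)]
    simp

open Classical in
/-- the product over the links for a given set of centre slots -/
theorem card_given [Fintype Λ] [Fintype Blk] (hp : Pairing pt dr) (σ : Blk → Bool)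
    (Z : Set (Blk × Γ)) :
    (Nat.card {V : Set (Rst Λ Blk c f) // ∀ g : Lk pt dr,
      con2 c ((pt g.1.1 g.1.2, ctr g.1.1) ∈ Z) (σ g.1.2) (σ (pt g.1.1 g.1.2))
        {d | xcrd pt dr c f (g, d) ∈ V}} : ℚ) =
      2 ^ (Fintype.card Blk * (Fintype.card Λ * (c + 1) + f)) *
        ∏ l : Λ, ∏ x : Blk, if pt l x ≠ x ∧ dr l x = true then
          nw2 c ((pt l x, ctr l) ∈ Z) (σ x) (σ (pt l x)) else 1 := by
  classical
  have h := card_constrained (xcrd pt dr c f) (xcrd_injective c f hp)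
    (fun g v => con2 c ((pt g.1.1 g.1.2, ctr g.1.1) ∈ Z) (σ g.1.2) (σ (pt g.1.1 g.1.2)) v)
  have h1 := congrArg (fun n : ℕ => (n : ℚ)) h
  simp only [Nat.cast_mul, Nat.cast_pow, Nat.cast_ofNat, Nat.cast_prod] at h1
  have h2 : ∀ g : Lk pt dr, (Nat.card {v : Set (Fin (c + 1) × Bool) //
      con2 c ((pt g.1.1 g.1.2, ctr g.1.1) ∈ Z) (σ g.1.2) (σ (pt g.1.1 g.1.2)) v} : ℚ) =
      nw2 c ((pt g.1.1 g.1.2, ctr g.1.1) ∈ Z) (σ g.1.2) (σ (pt g.1.1 g.1.2)) * 4 ^ (c + 1) :=
    fun g => card_con2 c _ _ _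
  rw [Finset.prod_congr rfl fun g _ => h2 g, Finset.prod_mul_distrib, Finset.prod_const,
    Finset.card_univ] at h1
  have h3 : (2 : ℚ) ^ (Fintype.card (Lk pt dr) * Fintype.card (Fin (c + 1) × Bool)) =
      ((4 : ℚ) ^ (c + 1)) ^ Fintype.card (Lk pt dr) := by
    rw [← pow_mul, show (4 : ℚ) = 2 ^ 2 by norm_num, ← pow_mul, Fintype.card_prod,
      Fintype.card_fin, Fintype.card_bool]
    congr 1
    ring
  have h4 : Fintype.card (Rst Λ Blk c f) =
      Fintype.card Blk * (Fintype.card Λ * (c + 1) + f) := by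
    rw [Fintype.card_prod, Fintype.card_sum, Fintype.card_prod, Fintype.card_fin,
      Fintype.card_fin]
  have h5 : ∏ g : Lk pt dr,
      nw2 c ((pt g.1.1 g.1.2, ctr g.1.1) ∈ Z) (σ g.1.2) (σ (pt g.1.1 g.1.2)) =
      ∏ l : Λ, ∏ x : Blk, if pt l x ≠ x ∧ dr l x = true then
          nw2 c ((pt l x, ctr l) ∈ Z) (σ x) (σ (pt l x)) else 1 := by
    have h6 : ∏ g : Lk pt dr,
        nw2 c ((pt g.1.1 g.1.2, ctr g.1.1) ∈ Z) (σ g.1.2) (σ (pt g.1.1 g.1.2)) =
        ∏ g ∈ Finset.univ.filter (fun g : Λ × Blk => pt g.1 g.2 ≠ g.2 ∧ dr g.1 g.2 = true),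
          nw2 c ((pt g.1 g.2, ctr g.1) ∈ Z) (σ g.2) (σ (pt g.1 g.2)) :=
      (Finset.prod_subtype _ (fun g => by simp)
        (fun g : Λ × Blk => nw2 c ((pt g.1 g.2, ctr g.1) ∈ Z) (σ g.2) (σ (pt g.1 g.2)))).symm
    rw [h6, Finset.prod_filter, ← Finset.univ_product_univ, Finset.prod_product]
  rw [h3, h4, h5, ← mul_assoc] at h1
  exact mul_right_cancel₀ (by positivity) h1

open Classical in
/-- regrouping the product over the links -/
theorem prod_regroup [Fintype Λ] [Fintype Γ] [Fintype Blk] [DecidableEq Γ] (hp : Pairing pt dr)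
    (σ : Blk → Bool) (Z : Set (Blk × Γ)) :
    (∏ l : Λ, ∏ x : Blk, if pt l x ≠ x ∧ dr l x = true then
          nw2 c ((pt l x, ctr l) ∈ Z) (σ x) (σ (pt l x)) else 1) =
      (∏ l : Λ, ∏ x : Blk,
        if dr l x = true ∧ σ x = true ∧ σ (pt l x) = false then hh c else 1) *
      ∏ p : Blk × Γ, if p ∈ Z then (1 / 2 : ℚ) ^ ((c + 1) * nF pt dr ctr σ p.1 p.2) else 1 := by
  have h1 : ∀ (l : Λ) (x : Blk), (if pt l x ≠ x ∧ dr l x = true then
      nw2 c ((pt l x, ctr l) ∈ Z) (σ x) (σ (pt l x)) else 1) =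
      (if dr l x = true ∧ σ x = true ∧ σ (pt l x) = false then hh c else 1) *
      (if dr l x = true ∧ σ x = false ∧ σ (pt l x) = true ∧ (pt l x, ctr l) ∈ Z then
        (1 / 2 : ℚ) ^ (c + 1) else 1) := by
    intro l x
    by_cases hd : dr l x = true
    · by_cases hx : pt l x = x
      · rw [if_neg (fun h => h.1 hx), if_neg (fun h => by
          rw [hx, h.2.1] at h; exact absurd h.2.2 (by simp)), if_neg (fun h => by
          rw [hx, h.2.1] at h; exact absurd h.2.2.1 (by simp)), one_mul]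
      · rw [if_pos ⟨hx, hd⟩]
        unfold nw2
        simp only [hd, true_and]
    · rw [if_neg (fun h => hd h.2), if_neg (fun h => hd h.1), if_neg (fun h => hd h.1), one_mul]
  simp only [h1, Finset.prod_mul_distrib]
  congr 1
  have h2 : ∀ l : Λ, (∏ x : Blk,
      if dr l x = true ∧ σ x = false ∧ σ (pt l x) = true ∧ (pt l x, ctr l) ∈ Z then
        (1 / 2 : ℚ) ^ (c + 1) else 1) =
      ∏ y : Blk, if (dr l y = false ∧ σ y = true ∧ σ (pt l y) = false) ∧ (y, ctr l) ∈ Z then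
        (1 / 2 : ℚ) ^ (c + 1) else 1 := by
    intro l
    refine (Fintype.prod_equiv ⟨pt l, pt l, hp.inv l, hp.inv l⟩ _ _ fun y => ?_).symm
    show (if (dr l y = false ∧ σ y = true ∧ σ (pt l y) = false) ∧ (y, ctr l) ∈ Z then
        (1 / 2 : ℚ) ^ (c + 1) else 1) =
      if dr l (pt l y) = true ∧ σ (pt l y) = false ∧ σ (pt l (pt l y)) = true ∧
        (pt l (pt l y), ctr l) ∈ Z then (1 / 2 : ℚ) ^ (c + 1) else 1
    rw [hp.inv]
    refine if_congr ?_ rfl rfl
    constructor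
    · rintro ⟨⟨h1, h2, h3⟩, h4⟩
      have hne : pt l y ≠ y := fun e => by rw [e, h2] at h3; exact absurd h3 (by simp)
      exact ⟨by rw [hp.dir l y hne, h1]; rfl, h3, h2, h4⟩
    · rintro ⟨h1, h2, h3, h4⟩
      have hne : pt l y ≠ y := fun e => by rw [e, h3] at h2; exact absurd h2 (by simp)
      rw [hp.dir l y hne] at h1
      exact ⟨⟨by simpa using h1, h3, h2⟩, h4⟩
  rw [Finset.prod_congr rfl fun l _ => h2 l, Finset.prod_comm, Fintype.prod_prod_type]
  refine Finset.prod_congr rfl fun y _ => ?_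
  rw [← Finset.prod_fiberwise Finset.univ ctr]
  refine Finset.prod_congr rfl fun γ _ => ?_
  rw [Finset.prod_congr (g := fun l : Λ => if (dr l y = false ∧ σ y = true ∧
      σ (pt l y) = false) ∧ (y, γ) ∈ Z then (1 / 2 : ℚ) ^ (c + 1) else 1) rfl (fun l hl => by
    rw [(Finset.mem_filter.1 hl).2])]
  by_cases hZ : (y, γ) ∈ Z
  · rw [if_pos hZ]
    simp only [hZ, and_true]
    rw [Finset.prod_ite, Finset.prod_const, Finset.prod_const_one, mul_one, Finset.filter_filter,
      pow_mul]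
    rfl
  · rw [if_neg hZ]
    simp only [hZ, and_false, if_false, Finset.prod_const_one]

end XPureAux

open XPureAux in
theorem card_xpure {Λ Γ Blk : Type} [Fintype Λ] [Fintype Γ] [Fintype Blk] [DecidableEq Γ]
    {pt : Λ → Blk → Blk} {dr : Λ → Blk → Bool} {ctr : Λ → Γ} {c f : ℕ} (hp : Pairing pt dr)
    (σ : Blk → Bool) :
    (Nat.card {U : Set (Vx Λ Γ Blk c f) // XPure pt dr ctr c f σ U} : ℚ) =
      2 ^ (Fintype.card Blk * (Fintype.card Λ * (c + 1) + (Fintype.card Γ + f))) *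
        wgt pt dr ctr c σ := by
  classical
  have e1 : {U : Set (Vx Λ Γ Blk c f) // XPure pt dr ctr c f σ U} ≃
      Σ Z : Set (Blk × Γ), {V : Set (Rst Λ Blk c f) // ∀ g : Lk pt dr,
        con2 c ((pt g.1.1 g.1.2, ctr g.1.1) ∈ Z) (σ g.1.2) (σ (pt g.1.1 g.1.2))
          {d | xcrd pt dr c f (g, d) ∈ V}} :=
    (Equiv.subtypeEquiv (q := fun P : Set (Blk × Γ) × Set (Rst Λ Blk c f) =>
        ∀ g : Lk pt dr, con2 c ((pt g.1.1 g.1.2, ctr g.1.1) ∈ P.1) (σ g.1.2)
          (σ (pt g.1.1 g.1.2)) {d | xcrd pt dr c f (g, d) ∈ P.2})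
      (splitU c f) (fun U => xpure_iff ctr c f hp σ U)).trans
      { toFun := fun p => ⟨p.1.1, p.1.2, p.2⟩
        invFun := fun q => ⟨(q.1, q.2.1), q.2.2⟩
        left_inv := fun _ => rfl
        right_inv := fun _ => rfl }
  rw [Nat.card_congr e1, Nat.card_sigma, Nat.cast_sum]
  rw [Finset.sum_congr rfl fun Z _ => card_given ctr c f hp σ Z, ← Finset.mul_sum]
  rw [Finset.sum_congr rfl fun Z _ => prod_regroup ctr c hp σ Z, ← Finset.mul_sum]
  have h2 : ∑ Z : Set (Blk × Γ), (∏ p : Blk × Γ,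
      if p ∈ Z then (1 / 2 : ℚ) ^ ((c + 1) * nF pt dr ctr σ p.1 p.2) else 1) =
      ∏ p : Blk × Γ, (1 + (1 / 2 : ℚ) ^ ((c + 1) * nF pt dr ctr σ p.1 p.2)) := by
    rw [← (Fintype.finsetEquivSet (α := Blk × Γ)).sum_comp, Finset.prod_one_add,
      Finset.powerset_univ]
    refine Finset.sum_congr rfl fun Z _ => ?_
    rw [← Finset.prod_filter]
    refine Finset.prod_congr ?_ fun _ _ => rfl
    ext p
    simp
  rw [h2]
  unfold wgt
  rw [Fintype.prod_prod_type]
  have h3 : ∏ y : Blk, ∏ γ : Γ, (1 + (1 / 2 : ℚ) ^ ((c + 1) * nF pt dr ctr σ y γ)) / 2 =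
      (∏ y : Blk, ∏ γ : Γ, (1 + (1 / 2 : ℚ) ^ ((c + 1) * nF pt dr ctr σ y γ))) /
        2 ^ (Fintype.card Blk * Fintype.card Γ) := by
    simp only [Finset.prod_div_distrib, Finset.prod_const, Finset.card_univ]
    rw [← pow_mul, mul_comm (Fintype.card Γ)]
  rw [h3]
  have h4 : (2 : ℚ) ^ (Fintype.card Blk * (Fintype.card Λ * (c + 1) + (Fintype.card Γ + f))) =
      2 ^ (Fintype.card Blk * (Fintype.card Λ * (c + 1) + f)) *
        2 ^ (Fintype.card Blk * Fintype.card Γ) := by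
    rw [← pow_add]
    congr 1
    ring
  rw [h4]
  field_simp

theorem xpure_eq {Λ Γ Blk : Type} [Fintype Λ] [Fintype Γ] [Fintype Blk] [DecidableEq Γ]
    [DecidableEq Blk] {pt : Λ → Blk → Blk} {dr : Λ → Blk → Bool} {ctr : Λ → Γ} {c f : ℕ}
    (hp : Pairing pt dr) :
    (xpure pt dr ctr c f : ℚ) =
      2 ^ (Fintype.card Blk * (Fintype.card Λ * (c + 1) + (Fintype.card Γ + f))) *
        ∑ σ : Blk → Bool, wgt pt dr ctr c σ := by
  unfold xpure
  rw [Nat.cast_sum, Finset.mul_sum]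
  exact Finset.sum_congr rfl fun σ _ => card_xpure hp σ

end Pool.Agent.Lib.Pa7c826q
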